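import Pool.Agent.H48.Oper

/-!
# Weighted arrays and norms
-/

set_option autoImplicit false

namespace Pool.Agent.H48

open scoped ENNReal

/-- sum of all entries -/
noncomputable def nrm (f : Arr) : ℝ≥0∞ := ∑' i : ℕ, ∑' c : ℕ, f i c

theorem tsum_antidiag (F : ℕ → ℕ → ℝ≥0∞) :
    ∑' n : ℕ, ∑ p ∈ Finset.HasAntidiagonal.antidiagonal n, F p.1 p.2 = ∑' a : ℕ, ∑' b : ℕ, F a b := by
  have h1 : ∑' n : ℕ, ∑ p ∈ Finset.HasAntidiagonal.antidiagonal n, F p.1 p.2 =
      ∑' n : ℕ, ∑' p : (Finset.HasAntidiagonal.antidiagonal n : Finset (ℕ × ℕ)), F p.1.1 p.1.2 := by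
    apply tsum_congr
    intro n
    exact (Finset.tsum_subtype (Finset.HasAntidiagonal.antidiagonal n)
      (fun p : ℕ × ℕ => F p.1 p.2)).symm
  rw [h1]
  rw [← ENNReal.tsum_sigma' (fun x : (Σ n : ℕ,
    (Finset.HasAntidiagonal.antidiagonal n : Finset (ℕ × ℕ))) => F x.2.1.1 x.2.1.2)]
  rw [← ENNReal.tsum_prod]
  exact (Finset.HasAntidiagonal.sigmaAntidiagonalEquivProd (A := ℕ)).tsum_eq (fun p : ℕ × ℕ => F p.1 p.2)

theorem nrm_conv (f h : Arr) : nrm (conv f h) = nrm f * nrm h := by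
  unfold nrm conv
  have h1 : ∀ i : ℕ, ∑' c : ℕ, ∑ p ∈ Finset.HasAntidiagonal.antidiagonal i,
      ∑ r ∈ Finset.HasAntidiagonal.antidiagonal c, f p.1 r.1 * h p.2 r.2 =
      ∑ p ∈ Finset.HasAntidiagonal.antidiagonal i, (∑' c : ℕ, f p.1 c) * (∑' c : ℕ, h p.2 c) := by
    intro i
    rw [Summable.tsum_finsetSum (fun _ _ => ENNReal.summable)]
    apply Finset.sum_congr rfl
    intro p _
    rw [tsum_antidiag (fun a b => f p.1 a * h p.2 b)]
    simp_rw [ENNReal.tsum_mul_left, ENNReal.tsum_mul_right]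
  simp_rw [h1]
  rw [tsum_antidiag (fun a b => (∑' c : ℕ, f a c) * (∑' c : ℕ, h b c))]
  simp_rw [ENNReal.tsum_mul_left, ENNReal.tsum_mul_right]

theorem nrm_mono {f h : Arr} (H : ∀ i c, f i c ≤ h i c) : nrm f ≤ nrm h :=
  ENNReal.tsum_le_tsum (fun i => ENNReal.tsum_le_tsum (fun c => H i c))

theorem nrm_add (f h : Arr) : nrm (fun i c => f i c + h i c) = nrm f + nrm h := by
  unfold nrm
  simp_rw [ENNReal.tsum_add]

theorem nrm_smul (a : ℝ≥0∞) (f : Arr) : nrm (fun i c => a * f i c) = a * nrm f := by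
  unfold nrm
  simp_rw [ENNReal.tsum_mul_left]

/-- weighted version of the operators -/
noncomputable def Qw (v vi : ℝ≥0∞) (f : Arr) : Arr
  | 0, c => 2 * f 0 c + vi * f 1 c
  | i + 1, c => v * f i c + 2 * f (i + 1) c + vi * f (i + 2) c

noncomputable def Kw (yi : ℝ≥0∞) (f : Arr) : Arr := fun i c => ∑' j : ℕ, f i (c + j) * yi ^ j

noncomputable def Phiw (t v vi y yi : ℝ≥0∞) (f : Arr) : Arr
  | _, 0 => 0
  | 0, c + 1 => t * y * ((if c = 0 then 1 else 0) + Qw v vi f 0 c)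
  | i + 1, c + 1 => t * y * (v * f i c + Qw v vi f (i + 1) c +
      v * conv (Qw v vi f) (Kw yi f) i c)

/-- weighting -/
noncomputable def wt (v y : ℝ≥0∞) (f : Arr) : Arr := fun i c => f i c * (v ^ i * y ^ c)

section

variable (t v vi y yi : ℝ≥0∞) (hv : v * vi = 1) (hy : y * yi = 1)

include hv in
theorem wt_Qop (f : Arr) (i c : ℕ) : wt v y (Qop f) i c = Qw v vi (wt v y f) i c := by
  match i with
  | 0 =>
    simp only [wt, Qop, Qw]
    have : vi * (f 1 c * (v ^ 1 * y ^ c)) = (v * vi) * (f 1 c * (v ^ 0 * y ^ c)) := by ring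
    rw [this, hv]
    ring
  | i + 1 =>
    simp only [wt, Qop, Qw]
    have : vi * (f (i + 2) c * (v ^ (i + 2) * y ^ c)) =
      (v * vi) * (f (i + 2) c * (v ^ (i + 1) * y ^ c)) := by ring
    rw [this, hv]
    ring

include hy in
theorem wt_Kop (f : Arr) (i c : ℕ) : wt v y (Kop f) i c = Kw yi (wt v y f) i c := by
  simp only [wt, Kop, Kw]
  rw [← ENNReal.tsum_mul_right]
  apply tsum_congr
  intro j
  have : f i (c + j) * (v ^ i * y ^ (c + j)) * yi ^ j =
      (y * yi) ^ j * (f i (c + j) * (v ^ i * y ^ c)) := by ring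
  rw [this, hy]
  simp

theorem wt_conv (f h : Arr) (i c : ℕ) :
    wt v y (conv f h) i c = conv (wt v y f) (wt v y h) i c := by
  simp only [wt, conv]
  rw [Finset.sum_mul]
  apply Finset.sum_congr rfl
  intro p hp
  rw [Finset.sum_mul]
  apply Finset.sum_congr rfl
  intro r hr
  rw [Finset.HasAntidiagonal.mem_antidiagonal] at hp hr
  rw [← hp, ← hr]
  ring

include hv hy in
theorem wt_Phi (f : Arr) (i c : ℕ) :
    wt v y (Phi t f) i c = Phiw t v vi y yi (wt v y f) i c := by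
  match i, c with
  | i, 0 => simp [wt, Phi, Phiw]
  | 0, c + 1 =>
    have h1 := wt_Qop v vi y hv f 0 c
    simp only [Phiw, ← h1]
    simp only [wt, Phi]
    by_cases hc : c = 0
    · subst hc; simp only [if_true]; ring
    · simp only [if_neg hc]; ring
  | i + 1, c + 1 =>
    have h1 := wt_Qop v vi y hv f (i + 1) c
    have h2 : conv (Qw v vi (wt v y f)) (Kw yi (wt v y f)) i c = wt v y (conv (Qop f) (Kop f)) i c := by
      rw [wt_conv]
      congr 1
      · funext i c; rw [wt_Qop v vi y hv]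
      · funext i c; rw [wt_Kop v y yi hy]
    simp only [Phiw, ← h1, h2]
    simp only [wt, Phi]
    ring

theorem Qw_add (f h : Arr) (i c : ℕ) :
    Qw v vi (fun i c => f i c + h i c) i c = Qw v vi f i c + Qw v vi h i c := by
  match i with
  | 0 => simp only [Qw]; ring
  | i + 1 => simp only [Qw]; ring

theorem Kw_add (f h : Arr) (i c : ℕ) :
    Kw yi (fun i c => f i c + h i c) i c = Kw yi f i c + Kw yi h i c := by
  simp only [Kw, add_mul, ENNReal.tsum_add]

theorem conv_add_add (a b c d : Arr) (i j : ℕ) :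
    conv (fun i c => a i c + b i c) (fun i j => c i j + d i j) i j =
      conv a c i j + conv a d i j + conv b c i j + conv b d i j := by
  simp only [conv, ← Finset.sum_add_distrib]
  apply Finset.sum_congr rfl
  intro p _
  apply Finset.sum_congr rfl
  intro r _
  ring

theorem Qw_mono {f h : Arr} (H : ∀ i c, f i c ≤ h i c) (i c : ℕ) :
    Qw v vi f i c ≤ Qw v vi h i c := by
  match i with
  | 0 => simp only [Qw]; gcongr <;> exact H _ _
  | i + 1 => simp only [Qw]; gcongr <;> exact H _ _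

theorem Kw_mono {f h : Arr} (H : ∀ i c, f i c ≤ h i c) (i c : ℕ) :
    Kw yi f i c ≤ Kw yi h i c := by
  simp only [Kw]
  apply ENNReal.tsum_le_tsum
  intro j
  gcongr
  exact H _ _

theorem conv_mono {a b c d : Arr} (H : ∀ i j, a i j ≤ b i j) (H' : ∀ i j, c i j ≤ d i j)
    (i j : ℕ) : conv a c i j ≤ conv b d i j := by
  simp only [conv]
  gcongr
  · exact H _ _
  · exact H' _ _

theorem Phiw_mono {f h : Arr} (H : ∀ i c, f i c ≤ h i c) (i c : ℕ) :
    Phiw t v vi y yi f i c ≤ Phiw t v vi y yi h i c := by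
  match i, c with
  | i, 0 => simp [Phiw]
  | 0, c + 1 =>
    simp only [Phiw]
    gcongr
    exact Qw_mono v vi H _ _
  | i + 1, c + 1 =>
    simp only [Phiw]
    gcongr
    · exact H _ _
    · exact Qw_mono v vi H _ _
    · exact conv_mono (Qw_mono v vi H) (Kw_mono yi H) _ _

/-- the increment of `Phiw` -/
noncomputable def Lw (p E : Arr) : Arr
  | _, 0 => 0
  | 0, c + 1 => t * y * (Qw v vi E 0 c)
  | i + 1, c + 1 => t * y * (v * E i c + Qw v vi E (i + 1) c +
      v * (conv (Qw v vi p) (Kw yi E) i c + conv (Qw v vi E) (Kw yi p) i c +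
        conv (Qw v vi E) (Kw yi E) i c))

theorem Phiw_add (p E : Arr) (i c : ℕ) :
    Phiw t v vi y yi (fun i c => p i c + E i c) i c =
      Phiw t v vi y yi p i c + Lw t v vi y yi p E i c := by
  match i, c with
  | i, 0 => simp [Phiw, Lw]
  | 0, c + 1 =>
    simp only [Phiw, Lw, Qw_add]
    ring
  | i + 1, c + 1 =>
    simp only [Phiw, Lw, Qw_add]
    have h1 : Qw v vi (fun i c => p i c + E i c) = fun i c => Qw v vi p i c + Qw v vi E i c := by
      funext i c; exact Qw_add v vi p E i c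
    have h2 : Kw yi (fun i c => p i c + E i c) = fun i c => Kw yi p i c + Kw yi E i c := by
      funext i c; exact Kw_add yi p E i c
    rw [h1, h2, conv_add_add]
    ring

theorem nrm_Qw (f : Arr) : nrm (Qw v vi f) ≤ (v + 2 + vi) * nrm f := by
  unfold nrm
  rw [tsum_eq_zero_add' ENNReal.summable]
  simp only [Qw, ENNReal.tsum_add, ENNReal.tsum_mul_left]
  set F : ℕ → ℝ≥0∞ := fun i => ∑' c : ℕ, f i c with hF
  change 2 * F 0 + vi * F 1 + (v * ∑' i, F i + 2 * ∑' i, F (i + 1) + vi * ∑' i, F (i + 2)) ≤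
    (v + 2 + vi) * ∑' i, F i
  have e0 : ∑' i, F i = F 0 + ∑' i, F (i + 1) := tsum_eq_zero_add' ENNReal.summable
  have e1 : ∑' i, F (i + 1) = F 1 + ∑' i, F (i + 2) := by
    have := tsum_eq_zero_add' (f := fun i => F (i + 1)) ENNReal.summable
    simpa using this
  calc 2 * F 0 + vi * F 1 + (v * ∑' i, F i + 2 * ∑' i, F (i + 1) + vi * ∑' i, F (i + 2))
      = v * ∑' i, F i + 2 * (F 0 + ∑' i, F (i + 1)) + vi * (F 1 + ∑' i, F (i + 2)) := by ring
    _ = v * ∑' i, F i + 2 * (∑' i, F i) + vi * (∑' i, F (i + 1)) := by rw [← e0, ← e1]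
    _ ≤ v * ∑' i, F i + 2 * (∑' i, F i) + vi * (F 0 + ∑' i, F (i + 1)) := by
        gcongr; exact le_add_self
    _ = (v + 2 + vi) * ∑' i, F i := by rw [← e0]; ring

theorem geom_bound (Y : ℝ≥0∞) (hY : 1 + yi * Y ≤ Y) (m : ℕ) :
    ∑ r ∈ Finset.HasAntidiagonal.antidiagonal m, yi ^ r.2 ≤ Y := by
  have h1 : ∀ m : ℕ, ∑ r ∈ Finset.HasAntidiagonal.antidiagonal m, yi ^ r.2 =
      ∑ j ∈ Finset.range (m + 1), yi ^ j := by
    intro m
    rw [Finset.Nat.sum_antidiagonal_eq_sum_range_succ (fun a b => yi ^ b)]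
    rw [← Finset.sum_range_reflect]
    apply Finset.sum_congr rfl
    intro j hj
    rw [Finset.mem_range] at hj
    congr 1
    omega
  rw [h1]
  induction m with
  | zero => simpa using le_trans le_self_add hY
  | succ m ih =>
    rw [Finset.sum_range_succ']
    simp only [pow_succ', ← Finset.mul_sum, pow_zero]
    calc yi * ∑ i ∈ Finset.range (m + 1), yi ^ i + 1 ≤ yi * Y + 1 := by gcongr
      _ = 1 + yi * Y := add_comm _ _
      _ ≤ Y := hY

theorem nrm_Kw (Y : ℝ≥0∞) (hY : 1 + yi * Y ≤ Y) (f : Arr) : nrm (Kw yi f) ≤ Y * nrm f := by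
  unfold nrm
  rw [← ENNReal.tsum_mul_left]
  apply ENNReal.tsum_le_tsum
  intro i
  have h1 := tsum_antidiag (fun a b => f i (a + b) * yi ^ b)
  simp only [Kw]
  rw [← h1, ← ENNReal.tsum_mul_left]
  apply ENNReal.tsum_le_tsum
  intro m
  have h2 : ∑ p ∈ Finset.HasAntidiagonal.antidiagonal m, f i (p.1 + p.2) * yi ^ p.2 =
      f i m * ∑ p ∈ Finset.HasAntidiagonal.antidiagonal m, yi ^ p.2 := by
    rw [Finset.mul_sum]
    apply Finset.sum_congr rfl
    intro p hp
    rw [Finset.HasAntidiagonal.mem_antidiagonal] at hp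
    rw [hp]
  rw [h2, mul_comm]
  gcongr
  exact geom_bound yi Y hY m

theorem nrm_Lw (p E : Arr) (CQ Y qn kn : ℝ≥0∞) (hCQ : nrm (Qw v vi E) ≤ CQ * nrm E)
    (hK : nrm (Kw yi E) ≤ Y * nrm E) (hq : nrm (Qw v vi p) ≤ qn) (hk : nrm (Kw yi p) ≤ kn) :
    nrm (Lw t v vi y yi p E) ≤ t * y * (v * nrm E + CQ * nrm E +
      v * (qn * (Y * nrm E) + CQ * nrm E * kn + CQ * nrm E * (Y * nrm E))) := by
  have h1 : nrm (Lw t v vi y yi p E) = t * y * (v * nrm E + nrm (Qw v vi E) +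
      v * (nrm (Qw v vi p) * nrm (Kw yi E) + nrm (Qw v vi E) * nrm (Kw yi p) +
        nrm (Qw v vi E) * nrm (Kw yi E))) := by
    have e0 : ∀ i : ℕ, ∑' c : ℕ, Lw t v vi y yi p E i c =
        ∑' c : ℕ, Lw t v vi y yi p E i (c + 1) := by
      intro i
      rw [tsum_eq_zero_add' ENNReal.summable]
      have : Lw t v vi y yi p E i 0 = 0 := by cases i <;> rfl
      rw [this, zero_add]
    rw [← nrm_conv, ← nrm_conv, ← nrm_conv]
    conv_lhs => rw [nrm]
    simp_rw [e0]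
    rw [tsum_eq_zero_add' ENNReal.summable]
    simp only [Lw, ENNReal.tsum_mul_left, ENNReal.tsum_add]
    have e1 : nrm (Qw v vi E) = ∑' c, Qw v vi E 0 c + ∑' i, ∑' c, Qw v vi E (i + 1) c := by
      rw [nrm]; exact tsum_eq_zero_add' ENNReal.summable
    rw [e1]
    simp only [nrm]
    ring
  rw [h1]
  gcongr

/-- The bootstrapping step. -/
theorem boot_step (p r E G : Arr) (CQ Y qn kn ρ e : ℝ≥0∞)
    (hCQ : nrm (Qw v vi E) ≤ CQ * nrm E)
    (hK : nrm (Kw yi E) ≤ Y * nrm E) (hq : nrm (Qw v vi p) ≤ qn) (hk : nrm (Kw yi p) ≤ kn)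
    (hpr : ∀ i c, Phiw t v vi y yi p i c ≤ p i c + r i c) (hr : nrm r ≤ ρ)
    (hE : nrm E ≤ e)
    (hnum : ρ + t * y * (v * e + CQ * e + v * (qn * (Y * e) + CQ * e * kn + CQ * e * (Y * e))) ≤ e)
    (hG : ∀ i c, G i c ≤ p i c + E i c) :
    ∃ E' : Arr, nrm E' ≤ e ∧ ∀ i c, Phiw t v vi y yi G i c ≤ p i c + E' i c := by
  refine ⟨fun i c => r i c + Lw t v vi y yi p E i c, ?_, ?_⟩
  · rw [nrm_add]
    refine le_trans ?_ hnum
    gcongr
    refine (nrm_Lw t v vi y yi p E CQ Y qn kn hCQ hK hq hk).trans ?_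
    gcongr
  · intro i c
    calc Phiw t v vi y yi G i c ≤ Phiw t v vi y yi (fun i c => p i c + E i c) i c :=
          Phiw_mono t v vi y yi hG i c
      _ = Phiw t v vi y yi p i c + Lw t v vi y yi p E i c := Phiw_add t v vi y yi p E i c
      _ ≤ p i c + r i c + Lw t v vi y yi p E i c := by gcongr; exact hpr i c
      _ = p i c + (r i c + Lw t v vi y yi p E i c) := by ring

include hv hy in
theorem boot (p r : Arr) (Y qn kn ρ e : ℝ≥0∞) (hY : 1 + yi * Y ≤ Y)
    (hq : nrm (Qw v vi p) ≤ qn) (hk : nrm (Kw yi p) ≤ kn)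
    (hpr : ∀ i c, Phiw t v vi y yi p i c ≤ p i c + r i c) (hr : nrm r ≤ ρ)
    (hnum : ρ + t * y * (v * e + (v + 2 + vi) * e +
      v * (qn * (Y * e) + (v + 2 + vi) * e * kn + (v + 2 + vi) * e * (Y * e))) ≤ e) (N : ℕ) :
    ∃ E : Arr, nrm E ≤ e ∧ ∀ i c, wt v y (g t N) i c ≤ p i c + E i c := by
  induction N with
  | zero =>
    refine ⟨fun _ _ => 0, ?_, ?_⟩
    · simp [nrm]
    · intro i c
      simp [wt, g_zero]
  | succ N ih =>
    obtain ⟨E, hE, hG⟩ := ih
    obtain ⟨E', hE', hG'⟩ := boot_step t v vi y yi p r E (wt v y (g t N)) (v + 2 + vi) Y qn kn ρ e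
      (nrm_Qw v vi E) (nrm_Kw yi Y hY E) hq hk hpr hr hE hnum hG
    refine ⟨E', hE', fun i c => ?_⟩
    refine le_trans ?_ (hG' i c)
    rw [← wt_Phi t v vi y yi hv hy]
    simp only [wt]
    gcongr
    exact g_le_Phi t N i c

end

end Pool.Agent.H48
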