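import Pool.Agent.H48.Digits
import Pool.Agent.H48.Norm

/-!
# The certificate as a statement about arrays
-/

set_option autoImplicit false

namespace Pool.Agent.H48

open scoped ENNReal NNReal

attribute [local irreducible] RA RK BB RQ cv RD

noncomputable def tE : ℝ≥0∞ := ((500 / 4851 : ℝ≥0) : ℝ≥0∞)
noncomputable def vE : ℝ≥0∞ := ((18 / 71 : ℝ≥0) : ℝ≥0∞)
noncomputable def viE : ℝ≥0∞ := ((71 / 18 : ℝ≥0) : ℝ≥0∞)
noncomputable def yE : ℝ≥0∞ := ((71 / 65 : ℝ≥0) : ℝ≥0∞)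
noncomputable def yiE : ℝ≥0∞ := ((65 / 71 : ℝ≥0) : ℝ≥0∞)
noncomputable def uE : ℝ≥0∞ := ((1 / 2 ^ 56 : ℝ≥0) : ℝ≥0∞)

theorem ht : 4851 * tE = 500 := by
  rw [tE]; exact_mod_cast (by norm_num : (4851 : ℝ≥0) * (500 / 4851) = 500)
theorem hv : 71 * vE = 18 := by
  rw [vE]; exact_mod_cast (by norm_num : (71 : ℝ≥0) * (18 / 71) = 18)
theorem hvi : 18 * viE = 71 := by
  rw [viE]; exact_mod_cast (by norm_num : (18 : ℝ≥0) * (71 / 18) = 71)
theorem hy : 65 * yE = 71 := by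
  rw [yE]; exact_mod_cast (by norm_num : (65 : ℝ≥0) * (71 / 65) = 71)
theorem hyi : 71 * yiE = 65 := by
  rw [yiE]; exact_mod_cast (by norm_num : (71 : ℝ≥0) * (65 / 71) = 65)
theorem hu : 2 ^ 56 * uE = 1 := by
  rw [uE]; exact_mod_cast (by norm_num : (2 ^ 56 : ℝ≥0) * (1 / 2 ^ 56) = 1)
theorem hvvi : vE * viE = 1 := by
  rw [vE, viE]; exact_mod_cast (by norm_num : (18 / 71 : ℝ≥0) * (71 / 18) = 1)
theorem hyyi : yE * yiE = 1 := by
  rw [yE, yiE]; exact_mod_cast (by norm_num : (71 / 65 : ℝ≥0) * (65 / 71) = 1)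

theorem cancel_nat (n : ℕ) (hn : n ≠ 0) {a b : ℝ≥0∞} (h : (n : ℝ≥0∞) * a ≤ n * b) : a ≤ b := by
  have h0 : (n : ℝ≥0∞) ≠ 0 := by exact_mod_cast hn
  have h1 : (n : ℝ≥0∞) ≠ ∞ := ENNReal.natCast_ne_top n
  exact (ENNReal.mul_le_mul_iff_right h0 h1).1 h

/-- arrays of the certificate -/
noncomputable def pE : Arr := fun i c => (eA i c : ℝ≥0∞) * uE
noncomputable def kE : Arr := fun i c => (eK i c : ℝ≥0∞) * uE

theorem Kw_le_of (yi : ℝ≥0∞) (p K' : Arr) (h : ∀ i c, p i c + yi * K' i (c + 1) ≤ K' i c)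
    (i c : ℕ) : Kw yi p i c ≤ K' i c := by
  rw [Kw]
  apply ENNReal.tsum_le_of_sum_range_le
  intro n
  induction n generalizing c with
  | zero => simp
  | succ n ih =>
    rw [Finset.sum_range_succ']
    refine le_trans ?_ (h i c)
    have h1 : ∑ k ∈ Finset.range n, p i (c + (k + 1)) * yi ^ (k + 1) =
        yi * ∑ k ∈ Finset.range n, p i (c + 1 + k) * yi ^ k := by
      rw [Finset.mul_sum]
      apply Finset.sum_congr rfl
      intro k _
      rw [show c + (k + 1) = c + 1 + k by omega]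
      ring
    rw [h1]
    simp only [add_zero, pow_zero, mul_one]
    rw [add_comm]
    gcongr
    exact ih (c + 1)

theorem Kw_pE_le (i c : ℕ) : Kw yiE pE i c ≤ kE i c := by
  apply Kw_le_of
  intro i c
  apply cancel_nat 71 (by norm_num)
  have h1 := eK_ineq i c
  have h2 : ((71 * eA i c + 65 * eK i (c + 1) : ℕ) : ℝ≥0∞) ≤ ((71 * eK i c : ℕ) : ℝ≥0∞) := by
    exact_mod_cast h1
  push_cast at h2 ⊢
  calc (71 : ℝ≥0∞) * (pE i c + yiE * kE i (c + 1))
      = (71 * (eA i c : ℝ≥0∞) + (71 * yiE) * (eK i (c + 1) : ℝ≥0∞)) * uE := by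
        simp only [pE, kE]; ring
    _ = (71 * (eA i c : ℝ≥0∞) + 65 * (eK i (c + 1) : ℝ≥0∞)) * uE := by rw [hyi]
    _ ≤ (71 * (eK i c : ℝ≥0∞)) * uE := by gcongr
    _ = 71 * kE i c := by simp only [kE]; ring

/-- upper bound array -/
noncomputable def WE : Arr
  | _, 0 => 0
  | 0, c + 1 => tE * yE * ((if c = 0 then 1 else 0) + Qw vE viE pE 0 c)
  | i + 1, c + 1 => tE * yE * (vE * pE i c + Qw vE viE pE (i + 1) c +
      vE * conv (Qw vE viE pE) kE i c)

theorem Phiw_pE_le (i c : ℕ) : Phiw tE vE viE yE yiE pE i c ≤ WE i c := by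
  match i, c with
  | i, 0 => simp [Phiw, WE]
  | 0, c + 1 => simp only [Phiw, WE]; exact le_rfl
  | i + 1, c + 1 =>
    simp only [Phiw, WE]
    gcongr
    exact conv_mono (fun _ _ => le_rfl) Kw_pE_le i c

theorem scale_Q (i c : ℕ) : 1278 * 2 ^ 56 * Qw vE viE pE i c = (eQ i c : ℝ≥0∞) := by
  match i with
  | 0 =>
    rw [show eQ 0 c = 5041 * eA 1 c + 2556 * eA 0 c from rfl, Qw]
    simp only [pE]
    push_cast
    calc 1278 * 2 ^ 56 * (2 * ((eA 0 c : ℝ≥0∞) * uE) + viE * ((eA 1 c : ℝ≥0∞) * uE))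
        = (2 ^ 56 * uE) * (2556 * (eA 0 c : ℝ≥0∞) + (18 * viE) * 71 * (eA 1 c : ℝ≥0∞)) := by ring
      _ = 5041 * (eA 1 c : ℝ≥0∞) + 2556 * (eA 0 c : ℝ≥0∞) := by rw [hu, hvi]; ring
  | i + 1 =>
    rw [show eQ (i + 1) c = 5041 * eA (i + 2) c + 2556 * eA (i + 1) c + 324 * eA i c from rfl, Qw]
    simp only [pE]
    push_cast
    calc 1278 * 2 ^ 56 * (vE * ((eA i c : ℝ≥0∞) * uE) + 2 * ((eA (i + 1) c : ℝ≥0∞) * uE) +
          viE * ((eA (i + 2) c : ℝ≥0∞) * uE))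
        = (2 ^ 56 * uE) * ((71 * vE) * 18 * (eA i c : ℝ≥0∞) + 2556 * (eA (i + 1) c : ℝ≥0∞) +
          (18 * viE) * 71 * (eA (i + 2) c : ℝ≥0∞)) := by ring
      _ = 5041 * (eA (i + 2) c : ℝ≥0∞) + 2556 * (eA (i + 1) c : ℝ≥0∞) +
          324 * (eA i c : ℝ≥0∞) := by rw [hu, hvi, hv]; ring

theorem scale_C (i c : ℕ) : 1278 * 2 ^ 112 * conv (Qw vE viE pE) kE i c = (eC i c : ℝ≥0∞) := by
  rw [conv, eC, Finset.mul_sum]
  push_cast
  apply Finset.sum_congr rfl
  intro p _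
  rw [Finset.mul_sum]
  apply Finset.sum_congr rfl
  intro r _
  rw [← scale_Q]
  simp only [kE]
  calc 1278 * 2 ^ 112 * (Qw vE viE pE p.1 r.1 * ((eK p.2 r.2 : ℝ≥0∞) * uE))
      = (2 ^ 56 * uE) * (1278 * 2 ^ 56 * Qw vE viE pE p.1 r.1 * (eK p.2 r.2 : ℝ≥0∞)) := by ring
    _ = 1278 * 2 ^ 56 * Qw vE viE pE p.1 r.1 * (eK p.2 r.2 : ℝ≥0∞) := by rw [hu, one_mul]

theorem scale_W (i c : ℕ) :
    4851 * 65 * 90738 * 2 ^ 112 * WE i c = (eD i c : ℝ≥0∞) := by
  match i, c with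
  | 0, 0 => simp [WE, eD]
  | i + 1, 0 => simp [WE, eD]
  | 0, c + 1 =>
    rw [show eD 0 (c + 1) = 500 * 71 * ((if c = 0 then 2 ^ 112 * 90738 else 0) +
      2 ^ 56 * 71 * eQ 0 c) from rfl]
    simp only [WE]
    push_cast
    rw [← scale_Q]
    have h1 : (90738 : ℝ≥0∞) * 2 ^ 112 * (if c = 0 then 1 else 0) =
        (if c = 0 then 2 ^ 112 * 90738 else 0) := by
      split_ifs <;> ring
    calc 4851 * 65 * 90738 * 2 ^ 112 *
          (tE * yE * ((if c = 0 then 1 else 0) + Qw vE viE pE 0 c))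
        = (4851 * tE) * (65 * yE) * (90738 * 2 ^ 112 * (if c = 0 then 1 else 0) +
            2 ^ 56 * 71 * (1278 * 2 ^ 56 * Qw vE viE pE 0 c)) := by ring
      _ = _ := by rw [ht, hy, h1]; split_ifs <;> ring
  | i + 1, c + 1 =>
    rw [show eD (i + 1) (c + 1) = 500 * 71 * (2 ^ 56 * 23004 * eA i c +
      2 ^ 56 * 71 * eQ (i + 1) c + 18 * eC i c) from rfl]
    simp only [WE]
    push_cast
    rw [← scale_Q, ← scale_C]
    have h1 : pE i c = (eA i c : ℝ≥0∞) * uE := rfl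
    rw [h1]
    calc 4851 * 65 * 90738 * 2 ^ 112 * (tE * yE * (vE * ((eA i c : ℝ≥0∞) * uE) +
          Qw vE viE pE (i + 1) c + vE * conv (Qw vE viE pE) kE i c))
        = (4851 * tE) * (65 * yE) * ((71 * vE) * (2 ^ 56 * uE) * 2 ^ 56 * 1278 *
            (eA i c : ℝ≥0∞) + 2 ^ 56 * 71 * (1278 * 2 ^ 56 * Qw vE viE pE (i + 1) c) +
            (71 * vE) * (1278 * 2 ^ 112 * conv (Qw vE viE pE) kE i c)) := by ring
      _ = _ := by rw [ht, hy, hv, hu]; ring

theorem nrm_fin (e : ℕ → ℕ → ℕ) (h1 : ∀ i c, 64 ≤ i → e i c = 0)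
    (h2 : ∀ i c, 321 ≤ c → e i c = 0) :
    nrm (fun i c => (e i c : ℝ≥0∞) * uE) =
      ((∑ i ∈ Finset.range 64, ∑ c ∈ Finset.range 321, e i c : ℕ) : ℝ≥0∞) * uE := by
  rw [nrm]
  simp_rw [ENNReal.tsum_mul_right]
  congr 1
  push_cast
  rw [tsum_eq_sum (s := Finset.range 64)]
  · apply Finset.sum_congr rfl
    intro i _
    rw [tsum_eq_sum (s := Finset.range 321)]
    intro c hc
    rw [h2 i c (by simpa using hc)]; simp
  · intro i hi
    rw [ENNReal.tsum_eq_zero]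
    intro c
    rw [h1 i c (by simpa using hi)]; simp

theorem nrm_pE : nrm pE = (13410842393335895 : ℝ≥0∞) * uE := by
  have := nrm_fin eA (fun i c h => eA_row h c) (fun i c h => eA_col i h)
  rw [sum_eA] at this
  rw [show pE = fun i c => (eA i c : ℝ≥0∞) * uE from rfl, this]
  norm_num

theorem nrm_kE : nrm kE = (37217889962213513 : ℝ≥0∞) * uE := by
  have := nrm_fin eK (fun i c h => eK_row h c) (fun i c h => eK_col i h)
  rw [sum_eK] at this
  rw [show kE = fun i c => (eK i c : ℝ≥0∞) * uE from rfl, this]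
  norm_num

theorem row0_pE : ∑' c : ℕ, pE 0 c = (11285742187960226 : ℝ≥0∞) * uE := by
  simp only [pE, ENNReal.tsum_mul_right]
  congr 1
  rw [tsum_eq_sum (s := Finset.range 321)]
  · have := sum_eA0
    have h2 : ((∑ c ∈ Finset.range 321, eA 0 c : ℕ) : ℝ≥0∞) = ((11285742187960226 : ℕ) : ℝ≥0∞) := by
      rw [this]
    push_cast at h2
    rw [h2]
  · intro c hc
    rw [eA_col 0 (by simpa using hc)]; simp

theorem nrm_Qw_eq (v vi : ℝ≥0∞) (f : Arr) :
    nrm (Qw v vi f) + vi * ∑' c : ℕ, f 0 c = (v + 2 + vi) * nrm f := by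
  unfold nrm
  rw [tsum_eq_zero_add' (f := fun i => ∑' c : ℕ, Qw v vi f i c) ENNReal.summable]
  simp only [Qw, ENNReal.tsum_add, ENNReal.tsum_mul_left]
  set F : ℕ → ℝ≥0∞ := fun i => ∑' c : ℕ, f i c with hF
  change 2 * F 0 + vi * F 1 + (v * ∑' i, F i + 2 * ∑' i, F (i + 1) + vi * ∑' i, F (i + 2)) +
    vi * F 0 = (v + 2 + vi) * ∑' i, F i
  have e0 : ∑' i, F i = F 0 + ∑' i, F (i + 1) := tsum_eq_zero_add' ENNReal.summable
  have e1 : ∑' i, F (i + 1) = F 1 + ∑' i, F (i + 2) := by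
    have := tsum_eq_zero_add' (f := fun i => F (i + 1)) ENNReal.summable
    simpa using this
  calc 2 * F 0 + vi * F 1 + (v * ∑' i, F i + 2 * ∑' i, F (i + 1) + vi * ∑' i, F (i + 2)) +
        vi * F 0
      = v * ∑' i, F i + 2 * (F 0 + ∑' i, F (i + 1)) +
        vi * (F 0 + (F 1 + ∑' i, F (i + 2))) := by ring
    _ = v * ∑' i, F i + 2 * (∑' i, F i) + vi * (∑' i, F i) := by rw [← e1, ← e0]
    _ = (v + 2 + vi) * ∑' i, F i := by ring

theorem nrm_QE : 1278 * 2 ^ 56 * nrm (Qw vE viE pE) = (49335856228106125029 : ℝ≥0∞) := by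
  have h := nrm_Qw_eq vE viE pE
  rw [row0_pE, nrm_pE] at h
  have h2 : 1278 * 2 ^ 56 * nrm (Qw vE viE pE) + 5041 * 11285742187960226 =
      7921 * 13410842393335895 := by
    calc 1278 * 2 ^ 56 * nrm (Qw vE viE pE) + 5041 * 11285742187960226
        = 1278 * 2 ^ 56 * nrm (Qw vE viE pE) +
          (2 ^ 56 * uE) * (18 * viE) * 71 * 11285742187960226 := by rw [hu, hvi]; ring
      _ = 1278 * 2 ^ 56 * (nrm (Qw vE viE pE) + viE * (11285742187960226 * uE)) := by ring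
      _ = 1278 * 2 ^ 56 * ((vE + 2 + viE) * (13410842393335895 * uE)) := by rw [h]
      _ = (2 ^ 56 * uE) * (18 * (71 * vE) + 2556 + 71 * (18 * viE)) * 13410842393335895 := by ring
      _ = 7921 * 13410842393335895 := by rw [hu, hv, hvi]; ring
  have h3 := ENNReal.eq_sub_of_add_eq (by
    have : (5041 * 11285742187960226 : ℝ≥0∞) = ((5041 * 11285742187960226 : ℕ) : ℝ≥0∞) := by
      push_cast; ring
    rw [this]; exact ENNReal.natCast_ne_top _) h2
  rw [h3]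
  have e1 : (7921 * 13410842393335895 : ℝ≥0∞) = ((7921 * 13410842393335895 : ℕ) : ℝ≥0∞) := by
    push_cast; ring
  have e2 : (5041 * 11285742187960226 : ℝ≥0∞) = ((5041 * 11285742187960226 : ℕ) : ℝ≥0∞) := by
    push_cast; ring
  rw [e1, e2, ← ENNReal.natCast_sub]
  norm_num

theorem nrm_WE : 4851 * 65 * 90738 * 2 ^ 112 * nrm WE =
    ((27648338410938601272425899466573506803699000 : ℕ) : ℝ≥0∞) := by
  have h1 : nrm WE = tE * yE * (1 + vE * nrm pE + nrm (Qw vE viE pE) +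
      vE * (nrm (Qw vE viE pE) * nrm kE)) := by
    have e0 : ∀ i : ℕ, ∑' c : ℕ, WE i c = ∑' c : ℕ, WE i (c + 1) := by
      intro i
      rw [tsum_eq_zero_add' ENNReal.summable]
      have : WE i 0 = 0 := by cases i <;> rfl
      rw [this, zero_add]
    rw [← nrm_conv]
    conv_lhs => rw [nrm]
    simp_rw [e0]
    rw [tsum_eq_zero_add' ENNReal.summable]
    simp only [WE, ENNReal.tsum_mul_left, ENNReal.tsum_add]
    have e1 : nrm (Qw vE viE pE) = ∑' c, Qw vE viE pE 0 c + ∑' i, ∑' c, Qw vE viE pE (i + 1) c := by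
      rw [nrm]; exact tsum_eq_zero_add' ENNReal.summable
    have e2 : ∑' c : ℕ, (if c = 0 then (1 : ℝ≥0∞) else 0) = 1 := tsum_ite_eq 0 _
    rw [e1, e2]
    simp only [nrm]
    ring
  rw [h1, nrm_pE, nrm_kE]
  calc 4851 * 65 * 90738 * 2 ^ 112 * (tE * yE * (1 + vE * (13410842393335895 * uE) +
        nrm (Qw vE viE pE) + vE * (nrm (Qw vE viE pE) * (37217889962213513 * uE))))
      = (4851 * tE) * (65 * yE) * (90738 * 2 ^ 112 +
        (71 * vE) * (2 ^ 56 * uE) * 1278 * 2 ^ 56 * 13410842393335895 +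
        2 ^ 56 * 71 * (1278 * 2 ^ 56 * nrm (Qw vE viE pE)) +
        (71 * vE) * (2 ^ 56 * uE) * (1278 * 2 ^ 56 * nrm (Qw vE viE pE)) *
          37217889962213513) := by ring
    _ = _ := by
      rw [ht, hy, hv, hu, nrm_QE]
      norm_num

theorem K0_nat : (4851 * 65 * 90738 * 2 ^ 112 : ℝ≥0∞) = ((4851 * 65 * 90738 * 2 ^ 112 : ℕ) : ℝ≥0∞) := by
  push_cast; ring

theorem le_nrm (f : Arr) (i c : ℕ) : f i c ≤ nrm f :=
  (ENNReal.le_tsum c).trans (ENNReal.le_tsum (f := fun i => ∑' c, f i c) i)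

theorem eD_lt (i c : ℕ) : eD i c < BB := by
  have h1 : (eD i c : ℝ≥0∞) ≤ ((27648338410938601272425899466573506803699000 : ℕ) : ℝ≥0∞) := by
    rw [← scale_W, ← nrm_WE]
    gcongr
    exact le_nrm WE i c
  have h2 : eD i c ≤ 27648338410938601272425899466573506803699000 := by exact_mod_cast h1
  have h3 : 27648338410938601272425899466573506803699000 < BB := by
    unfold BB; norm_num
  omega

/-- the remainder -/
noncomputable def rE : Arr := fun i c => if i < 64 ∧ c < 321 then 0 else WE i c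

theorem Phiw_pE_le' (i c : ℕ) : Phiw tE vE viE yE yiE pE i c ≤ pE i c + rE i c := by
  refine (Phiw_pE_le i c).trans ?_
  rw [rE]
  by_cases h : i < 64 ∧ c < 321
  · rw [if_pos h, add_zero]
    apply cancel_nat (4851 * 65 * 90738 * 2 ^ 112) (by norm_num)
    rw [← K0_nat, scale_W]
    have h1 := eD_le eD_lt i c h.1 h.2
    have h2 : (eD i c : ℝ≥0∞) ≤ ((MM * eA i c : ℕ) : ℝ≥0∞) := by exact_mod_cast h1
    refine h2.trans (le_of_eq ?_)
    rw [MM]
    simp only [pE]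
    push_cast
    calc _ = (4851 * 65 * 90738 * 2 ^ 56) * (2 ^ 56 * uE) * (eA i c : ℝ≥0∞) := by rw [hu]; ring
      _ = _ := by ring
  · rw [if_neg h]
    exact le_add_self

theorem nrm_rE : 4851 * 65 * 90738 * 2 ^ 112 * nrm rE =
    ((17968714422934956768563432388666394000 : ℕ) : ℝ≥0∞) := by
  have h1 : nrm WE = nrm rE + nrm (fun i c => if i < 64 ∧ c < 321 then WE i c else 0) := by
    rw [← nrm_add]
    congr 1
    funext i c
    rw [rE]
    split_ifs <;> simp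
  have h2 : 4851 * 65 * 90738 * 2 ^ 112 *
      nrm (fun i c => if i < 64 ∧ c < 321 then WE i c else 0) =
      ((27648320442224178337469130903141118137305000 : ℕ) : ℝ≥0∞) := by
    rw [← sum_eD eD_lt, nrm, ← ENNReal.tsum_mul_left]
    push_cast
    rw [tsum_eq_sum (s := Finset.range 64)]
    · apply Finset.sum_congr rfl
      intro i hi
      rw [Finset.mem_range] at hi
      rw [tsum_eq_sum (s := Finset.range 321), Finset.mul_sum]
      · apply Finset.sum_congr rfl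
        intro c hc
        rw [Finset.mem_range] at hc
        rw [if_pos ⟨hi, hc⟩, scale_W]
      · intro c hc
        rw [if_neg]
        rintro ⟨-, h⟩
        exact hc (Finset.mem_range.2 h)
    · intro i hi
      have : ∑' c : ℕ, (if i < 64 ∧ c < 321 then WE i c else 0) = 0 := by
        rw [ENNReal.tsum_eq_zero]
        intro c
        rw [if_neg]
        rintro ⟨h, -⟩
        exact hi (Finset.mem_range.2 h)
      rw [this, mul_zero]
  have h3 := nrm_WE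
  rw [h1, mul_add, h2] at h3
  have h4 := ENNReal.eq_sub_of_add_eq (ENNReal.natCast_ne_top _) h3
  rw [h4, ← ENNReal.natCast_sub]

end Pool.Agent.H48
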