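import Pool.Agent.H48.Data
import Mathlib.Tactic.NormNum

/-!
# The kernel check of the certificate
-/

set_option autoImplicit false

namespace Pool.Agent.H48

def BB : ℕ := 2 ^ 152

def RA (i : ℕ) : ℕ := rowsA.getD i 0

def RK (i : ℕ) : ℕ := rowsK.getD i 0

def RQ : ℕ → ℕ
  | 0 => 5041 * RA 1 + 2556 * RA 0
  | i + 1 => 5041 * RA (i + 2) + 2556 * RA (i + 1) + 324 * RA i

/-- `cv i m = ∑ j ≤ i, RQ j * RK (i - j + m)` -/
def cv : ℕ → ℕ → ℕ
  | 0, m => RQ 0 * RK m
  | j + 1, m => RQ (j + 1) * RK m + cv j (m + 1)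

def RD : ℕ → ℕ
  | 0 => 500 * 71 * BB * (2 ^ 112 * 90738 + 2 ^ 56 * 71 * RQ 0)
  | i + 1 => 500 * 71 * BB * (2 ^ 56 * 23004 * RA i + 2 ^ 56 * 71 * RQ (i + 1) + 18 * cv i 0)

def MM : ℕ := 4851 * 65 * 90738 * 2 ^ 56

/-- rows are small -/
def chkLen : ℕ → Bool
  | 0 => true
  | i + 1 => Nat.blt (RA i) (BB ^ 321) && Nat.blt (RK i) (BB ^ 321) && chkLen i

/-- digitwise inequality for `K` -/
def loopK : ℕ → ℕ → ℕ → Bool
  | 0, _, _ => true
  | n + 1, X, Y => Nat.ble (71 * (X % BB) + 65 * ((Y / BB) % BB)) (71 * (Y % BB)) &&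
      loopK n (X / BB) (Y / BB)

def chkK : ℕ → Bool
  | 0 => true
  | i + 1 => loopK 321 (RA i) (RK i) && chkK i

/-- digitwise inequality for `D` -/
def loopD : ℕ → ℕ → ℕ → Bool
  | 0, _, _ => true
  | n + 1, X, Z => Nat.ble (Z % BB) (MM * (X % BB)) && loopD n (X / BB) (Z / BB)

def chkD : ℕ → Bool
  | 0 => true
  | i + 1 => loopD 321 (RA i) (RD i) && chkD i

/-- sum of digits -/
def sumDig : ℕ → ℕ → ℕ → ℕ
  | 0, _, acc => acc
  | n + 1, X, acc => sumDig n (X / BB) (acc + X % BB)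

def sumRows (R : ℕ → ℕ) : ℕ → ℕ
  | 0 => 0
  | i + 1 => sumDig 321 (R i) 0 + sumRows R i

theorem chkLen_ok : chkLen 64 = true := by decide +kernel

theorem chkK_ok : chkK 64 = true := by decide +kernel

theorem chkD_ok : chkD 64 = true := by decide +kernel

theorem sumA_eq : sumRows RA 64 = 13410842393335895 := by decide +kernel

theorem sumA0_eq : sumDig 321 (RA 0) 0 = 11285742187960226 := by decide +kernel

theorem sumK_eq : sumRows RK 64 = 37217889962213513 := by decide +kernel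

theorem sumD_eq : sumRows RD 64 = 27648320442224178337469130903141118137305000 := by decide +kernel

end Pool.Agent.H48
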