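import Pool.Agent.H48.Forest

/-!
# Decomposition of valid forests and the resulting inequality
-/

set_option autoImplicit false

namespace Pool.Agent.H48

open scoped ENNReal

theorem mem_flatten_lt {l : Fo} (h : Valid l) {x : ℕ} (hx : x ∈ l.flatten) : x < sz l :=
  List.mem_range.1 (h.std.mem_iff.1 hx)

/-- number of trees after attaching -/
def lenTy : Ty → Fo → ℕ
  | .leaf, F => F.length + 1
  | .left, F => F.length
  | .right, F => F.length
  | .both, F => F.length - 1

theorem length_attach' (n : ℕ) (ty : Ty) (F : Fo) (h : okTy ty F) :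
    (attach n ty F).length = lenTy ty F := by
  match ty, F, h with
  | .leaf, F, _ => simp [attach, lenTy]
  | .left, X :: r, _ => simp [attach, lenTy]
  | .right, X :: r, _ => simp [attach, lenTy]
  | .both, Y :: X :: r, _ => simp [attach, lenTy]
  | .both, [X], h => simp [okTy] at h

theorem lenTy_rel (f : ℕ → ℕ) (ty : Ty) (F : Fo) : lenTy ty (rel f F) = lenTy ty F := by
  cases ty <;> simp [lenTy, rel]

theorem up_attach (l2 F : Fo) (n : ℕ) (ty : Ty) (h : okTy ty F)
    (h1 : ∀ x ∈ F.flatten, x < n) (h2 : ∀ x ∈ l2.flatten, x < n)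
    (hnd1 : F.flatten.Nodup) (hnd2 : l2.flatten.Nodup) :
    up (l2 ++ attach n ty F) = up F ++ up l2 ++ [n] := by
  rw [up, rho_append, rho_attach n ty F h h1, List.append_assoc, List.singleton_append,
    ss_split (rho F) (rho l2) n]
  · rfl
  · intro x hx
    exact h1 x ((rho_perm F hnd1).mem_iff.1 hx)
  · intro x hx
    exact h2 x ((rho_perm l2 hnd2).mem_iff.1 hx)

theorem kap_snoc (w : List ℕ) (n : ℕ) (h : ∀ x ∈ w, x < n) : kap (w ++ [n]) = kap w + 1 := by
  rw [kap_append w [n], kap_singleton]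
  intro x hx y hy
  rw [List.mem_singleton] at hy
  rw [hy]; exact h x hx

theorem decomp (l : Fo) (n : ℕ) (hv : Valid l) (hs : sz l = n + 1) :
    (n = 0 ∧ l = [[0]] ∧ kap (up l) = 1) ∨
    (∃ F2 : Fo, Valid F2 ∧ sz F2 = n ∧ l = F2 ++ [[n]] ∧ kap (up l) = kap (up F2) + 1) ∨
    (∃ (F1 : Fo) (ty : Ty), Valid F1 ∧ okTy ty F1 ∧ sz F1 = n ∧ l = attach n ty F1 ∧
      kap (up l) = kap (up F1) + 1) ∨
    (∃ (G1 G2 : Fo) (ty : Ty) (h : ℕ), Valid G1 ∧ Valid G2 ∧ okTy ty G1 ∧ sz G1 + sz G2 = n ∧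
      l = rel (phi2 (sz G1) h) G2 ++ attach n ty (rel (phi1 (sz G1) h) G1) ∧
      h ≤ (up G2).length ∧
      (∀ x ∈ (up G2).take h, ∀ y ∈ (up G2).drop h, x < y) ∧
      kap (up l) = kap (up G1) + kap ((up G2).drop h) + 1) := by
  have hmem : n ∈ l.flatten := by
    rw [hv.std.mem_iff, hs]; simp
  obtain ⟨l2, F, ty, hok, hl, hneF, hne2⟩ := exists_attach l n hmem hv.ne
  have hperm : (F.flatten ++ l2.flatten).Perm (List.range n) := by
    have h1 : l.flatten.Perm (n :: (F.flatten ++ l2.flatten)) := by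
      rw [hl, List.flatten_append]
      refine List.perm_append_comm.trans ?_
      exact (attach_flatten_perm n ty F hok).append_right _
    have h2 := h1.symm.trans hv.std
    rw [hs, List.range_succ] at h2
    have h3 : (n :: (F.flatten ++ l2.flatten)).Perm (n :: List.range n) :=
      h2.trans (List.perm_append_singleton n _)
    exact h3.cons_inv
  have hnd : (F.flatten ++ l2.flatten).Nodup := hperm.nodup_iff.2 List.nodup_range
  have hnd1 : F.flatten.Nodup := (List.nodup_append.1 hnd).1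
  have hnd2 : l2.flatten.Nodup := (List.nodup_append.1 hnd).2.1
  have hlt1 : ∀ x ∈ F.flatten, x < n := fun x hx =>
    List.mem_range.1 (hperm.mem_iff.1 (by simp [hx]))
  have hlt2 : ∀ x ∈ l2.flatten, x < n := fun x hx =>
    List.mem_range.1 (hperm.mem_iff.1 (by simp [hx]))
  have hup : up l = up F ++ up l2 ++ [n] := by
    rw [hl]; exact up_attach l2 F n ty hok hlt1 hlt2 hnd1 hnd2
  have hav : Av (up F ++ up l2) := by
    have := hv.av
    rw [hup] at this
    exact this.of_sublist (List.sublist_append_left _ _)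
  have hlt : ∀ x ∈ up F ++ up l2, x < n := by
    intro x hx
    rcases List.mem_append.1 hx with h | h
    · exact hlt1 x ((mem_up hnd1).1 h)
    · exact hlt2 x ((mem_up hnd2).1 h)
  have hkap : kap (up l) = kap (up F ++ up l2) + 1 := by
    rw [hup, kap_snoc _ _ hlt]
  have hlen : sz F + sz l2 = n := by
    have := hperm.length_eq
    rw [List.length_append, List.length_range] at this
    exact this
  have hupnil : up ([] : Fo) = [] := by simp [up, rho, ss_nil]
  by_cases hF : F = []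
  · have hty : ty = .leaf := by
      subst hF
      cases ty <;> simp [okTy] at hok ⊢
    subst hF hty
    by_cases h2 : l2 = []
    · left
      subst h2
      have hn : n = 0 := by simpa [sz] using hlen.symm
      refine ⟨hn, ?_, ?_⟩
      · rw [hl, hn]; rfl
      · rw [hkap, hupnil]; rfl
    · right; left
      have hsz : sz l2 = n := by simpa [sz] using hlen
      refine ⟨l2, ⟨hne2, h2, ?_, ?_⟩, hsz, hl, ?_⟩
      · rw [hsz]
        simpa using hperm
      · rw [hupnil] at hav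
        simpa using hav
      · rw [hkap, hupnil, List.nil_append]
  · by_cases h2 : l2 = []
    · right; right; left
      subst h2
      have hsz : sz F = n := by simpa [sz] using hlen
      refine ⟨F, ty, ⟨hneF, hF, ?_, ?_⟩, hok, hsz, by simpa using hl, ?_⟩
      · rw [hsz]
        simpa using hperm
      · rw [hupnil] at hav
        simpa using hav
      · rw [hkap, hupnil, List.append_nil]
    · right; right; right
      obtain ⟨h, G1, G2, v1, v2, hsz, e1, e2, hh, hcut, hk⟩ :=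
        two_parts F l2 n hF h2 hneF hne2 hperm hav
      refine ⟨G1, G2, ty, h, v1, v2, ?_, hsz, ?_, ?_, hcut, ?_⟩
      · rw [e1, okTy_rel] at hok; exact hok
      · rw [← e1, ← e2]; exact hl
      · rw [length_up v2.nodup]; exact hh
      · rw [hkap, hk]

/-- the cut position with prescribed number of components to its right. -/
noncomputable def hcut (w : List ℕ) (c : ℕ) : ℕ :=
  open Classical in
  if H : ∃ h : ℕ, h ≤ w.length ∧ (∀ x ∈ w.take h, ∀ y ∈ w.drop h, x < y) ∧ kap (w.drop h) = c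
  then H.choose else 0

theorem hcut_eq (w : List ℕ) (c h : ℕ) (h1 : h ≤ w.length)
    (h2 : ∀ x ∈ w.take h, ∀ y ∈ w.drop h, x < y) (h3 : kap (w.drop h) = c) : hcut w c = h := by
  have H : ∃ h : ℕ, h ≤ w.length ∧ (∀ x ∈ w.take h, ∀ y ∈ w.drop h, x < y) ∧
      kap (w.drop h) = c := ⟨h, h1, h2, h3⟩
  unfold hcut
  rw [dif_pos H]
  obtain ⟨a1, a2, a3⟩ := H.choose_spec
  exact split_unique w _ h a1 h1 a2 h2 (by rw [a3, h3])

theorem kap_drop_le (w : List ℕ) (h : ℕ)
    (h2 : ∀ x ∈ w.take h, ∀ y ∈ w.drop h, x < y) : kap (w.drop h) ≤ kap w := by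
  have := kap_append (w.take h) (w.drop h) h2
  rw [List.take_append_drop] at this
  omega

section sums

open Classical

variable (t : ℝ≥0∞)

/-- condition on a valid forest -/
def cG (N i c : ℕ) (F : Fo) : Prop :=
  Valid F ∧ sz F ≤ N ∧ F.length = i + 1 ∧ kap (up F) = c

def cQ (N i c : ℕ) (p : Ty × Fo) : Prop :=
  okTy p.1 p.2 ∧ Valid p.2 ∧ sz p.2 ≤ N ∧ lenTy p.1 p.2 = i + 1 ∧ kap (up p.2) = c

def cK (N i c : ℕ) (F : Fo) : Prop :=
  Valid F ∧ sz F ≤ N ∧ F.length = i + 1 ∧ c ≤ kap (up F)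

def c2 (N i c : ℕ) (F : Fo) : Prop :=
  Valid F ∧ sz F ≤ N ∧ F.length = i ∧ kap (up F) = c

/-- generating function of valid forests of size at most `N` -/
noncomputable def g (N i c : ℕ) : ℝ≥0∞ := ∑' F : Fo, if cG N i c F then t ^ sz F else 0
noncomputable def q (N i c : ℕ) : ℝ≥0∞ := ∑' p : Ty × Fo, if cQ N i c p then t ^ sz p.2 else 0
noncomputable def k (N i c : ℕ) : ℝ≥0∞ := ∑' F : Fo, if cK N i c F then t ^ sz F else 0

theorem tsum_code {C : Type*} (dec : C → Fo) (P : C → Prop) (wt : C → ℝ≥0∞) :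
    ∑' l : Fo, ∑' c : C, (if P c ∧ l = dec c then wt c else 0) =
      ∑' c : C, if P c then wt c else 0 := by
  rw [ENNReal.tsum_comm]
  apply tsum_congr
  intro c
  by_cases h : P c
  · simp only [h, true_and, if_true]
    rw [tsum_eq_single (dec c)]
    · simp
    · intro l hl
      rw [if_neg hl]
  · simp [h]

/-- decoding maps -/
noncomputable def dec4 (c : Ty × Fo × Fo × ℕ) : Fo :=
  rel (phi2 (sz c.2.1) (hcut (up c.2.2.1) c.2.2.2)) c.2.2.1 ++
    attach (sz c.2.1 + sz c.2.2.1) c.1 (rel (phi1 (sz c.2.1) (hcut (up c.2.2.1) c.2.2.2)) c.2.1)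

def P4 (N i c : ℕ) (d : Ty × Fo × Fo × ℕ) : Prop :=
  okTy d.1 d.2.1 ∧ Valid d.2.1 ∧ sz d.2.1 ≤ N ∧ Valid d.2.2.1 ∧ sz d.2.2.1 ≤ N ∧
    lenTy d.1 d.2.1 + d.2.2.1.length = i + 1 ∧ kap (up d.2.1) + d.2.2.2 = c ∧
    d.2.2.2 ≤ kap (up d.2.2.1)

theorem pointwise (N i c : ℕ) (l : Fo) :
    (if cG (N + 1) i (c + 1) l then t ^ sz l else 0) ≤
      (if l = [[0]] then (if i = 0 ∧ c = 0 then t else 0) else 0) +
      (∑' F : Fo, if c2 N i c F ∧
        l = F ++ [[sz F]] then t * t ^ sz F else 0) +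
      (∑' p : Ty × Fo, if cQ N i c p ∧ l = attach (sz p.2) p.1 p.2 then t * t ^ sz p.2 else 0) +
      (∑' d : Ty × Fo × Fo × ℕ, if P4 N i c d ∧ l = dec4 d then
        t * (t ^ sz d.2.1 * t ^ sz d.2.2.1) else 0) := by
  by_cases hc : cG (N + 1) i (c + 1) l
  swap
  · rw [if_neg hc]; exact zero_le
  rw [if_pos hc]
  obtain ⟨hv, hsz, hlen, hk⟩ := hc
  have hpos : 0 < sz l := by
    have := flatten_ne_nil hv.ne hv.nonempty
    exact List.length_pos_iff.2 this
  obtain ⟨n, hn⟩ : ∃ n, sz l = n + 1 := ⟨sz l - 1, by omega⟩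
  rcases decomp l n hv hn with ⟨hn0, hl, hk1⟩ | ⟨F2, v2, hs2, hl, hk2⟩ |
      ⟨F1, ty, v1, hok, hs1, hl, hk1⟩ | ⟨G1, G2, ty, h, v1, v2, hok, hs, hl, hh, hcut', hkk⟩
  · have hi : i = 0 := by
      rw [hl] at hlen; simpa using hlen.symm
    have hc0 : c = 0 := by omega
    rw [if_pos hl, if_pos ⟨hi, hc0⟩, hn, hn0]
    simp only [zero_add, pow_one]
    rw [add_assoc, add_assoc]
    exact le_self_add
  · have hle : t ^ sz l ≤ ∑' F : Fo, if c2 N i c F ∧
        l = F ++ [[sz F]] then t * t ^ sz F else 0 := by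
      refine le_trans ?_ (ENNReal.le_tsum F2)
      rw [if_pos]
      · rw [hn, hs2, pow_succ, mul_comm]
      · refine ⟨⟨v2, by omega, ?_, by omega⟩, by rw [hs2]; exact hl⟩
        rw [hl] at hlen
        simpa using hlen
    refine hle.trans ?_
    refine le_trans ?_ le_self_add
    refine le_trans ?_ le_self_add
    exact le_add_self
  · have hle : t ^ sz l ≤ ∑' p : Ty × Fo, if cQ N i c p ∧ l = attach (sz p.2) p.1 p.2 then
        t * t ^ sz p.2 else 0 := by
      refine le_trans ?_ (ENNReal.le_tsum (ty, F1))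
      rw [if_pos]
      · simp only
        rw [hn, hs1, pow_succ, mul_comm]
      · refine ⟨⟨hok, v1, ?_, ?_, ?_⟩, ?_⟩
        · simp only; omega
        · simp only
          rw [← length_attach' n ty F1 hok, ← hl]; exact hlen
        · simp only; omega
        · simp only; rw [hs1]; exact hl
    refine hle.trans ?_
    refine le_trans ?_ le_self_add
    exact le_add_self
  · have hle : t ^ sz l ≤ ∑' d : Ty × Fo × Fo × ℕ, if P4 N i c d ∧ l = dec4 d then
        t * (t ^ sz d.2.1 * t ^ sz d.2.2.1) else 0 := by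
      refine le_trans ?_ (ENNReal.le_tsum (ty, G1, G2, kap ((up G2).drop h)))
      have hcu : hcut (up G2) (kap ((up G2).drop h)) = h := hcut_eq _ _ _ hh hcut' rfl
      rw [if_pos]
      · simp only
        rw [hn, ← pow_add, hs, pow_succ, mul_comm]
      · refine ⟨⟨hok, v1, ?_, v2, ?_, ?_, ?_, ?_⟩, ?_⟩
        · simp only; omega
        · simp only; omega
        · simp only
          rw [hl, List.length_append, length_rel, length_attach' _ _ _ ((okTy_rel _ _ _).2 hok),
            lenTy_rel] at hlen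
          omega
        · simp only; omega
        · simp only; exact kap_drop_le _ _ hcut'
        · simp only [dec4, hcu, hs]
          exact hl
    refine hle.trans ?_
    exact le_add_self

theorem g_succ_le (N i c : ℕ) :
    g t (N + 1) i (c + 1) ≤ (if i = 0 ∧ c = 0 then t else 0) +
      (∑' F : Fo, if c2 N i c F then t * t ^ sz F else 0) +
      (∑' p : Ty × Fo, if cQ N i c p then t * t ^ sz p.2 else 0) +
      (∑' d : Ty × Fo × Fo × ℕ, if P4 N i c d then
        t * (t ^ sz d.2.1 * t ^ sz d.2.2.1) else 0) := by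
  unfold g
  refine (ENNReal.tsum_le_tsum (fun l => pointwise t N i c l)).trans ?_
  rw [ENNReal.tsum_add, ENNReal.tsum_add, ENNReal.tsum_add]
  rw [tsum_code (fun F : Fo => F ++ [[sz F]])
      (c2 N i c) (fun F => t * t ^ sz F),
    tsum_code (fun p : Ty × Fo => attach (sz p.2) p.1 p.2) (cQ N i c) (fun p => t * t ^ sz p.2),
    tsum_code dec4 (P4 N i c) (fun d => t * (t ^ sz d.2.1 * t ^ sz d.2.2.1))]
  rw [tsum_ite_eq]

theorem P4_sum (N i c : ℕ) :
    (∑' d : Ty × Fo × Fo × ℕ, if P4 N (i + 1) c d then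
        t * (t ^ sz d.2.1 * t ^ sz d.2.2.1) else 0) ≤
      t * ∑ p ∈ Finset.HasAntidiagonal.antidiagonal i, ∑ r ∈ Finset.HasAntidiagonal.antidiagonal c,
        q t N p.1 r.1 * k t N p.2 r.2 := by
  have hpt : ∀ d : Ty × Fo × Fo × ℕ, (if P4 N (i + 1) c d then
      t * (t ^ sz d.2.1 * t ^ sz d.2.2.1) else 0) ≤
      t * ∑ p ∈ Finset.HasAntidiagonal.antidiagonal i, ∑ r ∈ Finset.HasAntidiagonal.antidiagonal c,
        (if cQ N p.1 r.1 (d.1, d.2.1) then t ^ sz d.2.1 else 0) *
          ((if cK N p.2 r.2 d.2.2.1 then t ^ sz d.2.2.1 else 0) *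
            (if d.2.2.2 = r.2 then 1 else 0)) := by
    intro d
    by_cases hP : P4 N (i + 1) c d
    swap
    · rw [if_neg hP]; exact zero_le
    rw [if_pos hP]
    obtain ⟨a1, a2, a3, a4, a5, a6, a7, a8⟩ := hP
    have hlen2 : 1 ≤ d.2.2.1.length := List.length_pos_iff.2 a4.nonempty
    have hlen1 : 1 ≤ lenTy d.1 d.2.1 := by
      have h0 : 1 ≤ d.2.1.length := List.length_pos_iff.2 a2.nonempty
      revert a1
      cases d.1 <;> simp [lenTy, okTy] <;> omega
    gcongr
    set p0 : ℕ × ℕ := (lenTy d.1 d.2.1 - 1, d.2.2.1.length - 1) with hp0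
    set r0 : ℕ × ℕ := (kap (up d.2.1), d.2.2.2) with hr0
    have hp : p0 ∈ Finset.HasAntidiagonal.antidiagonal i := by
      rw [Finset.HasAntidiagonal.mem_antidiagonal]; simp only [hp0]; omega
    have hr : r0 ∈ Finset.HasAntidiagonal.antidiagonal c := by
      rw [Finset.HasAntidiagonal.mem_antidiagonal]; simp only [hr0]; omega
    refine le_trans ?_ (Finset.single_le_sum (f := fun p : ℕ × ℕ =>
      ∑ r ∈ Finset.HasAntidiagonal.antidiagonal c,
        (if cQ N p.1 r.1 (d.1, d.2.1) then t ^ sz d.2.1 else 0) *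
          ((if cK N p.2 r.2 d.2.2.1 then t ^ sz d.2.2.1 else 0) *
            (if d.2.2.2 = r.2 then 1 else 0))) (fun _ _ => zero_le) hp)
    refine le_trans ?_ (Finset.single_le_sum (f := fun r : ℕ × ℕ =>
        (if cQ N p0.1 r.1 (d.1, d.2.1) then t ^ sz d.2.1 else 0) *
          ((if cK N p0.2 r.2 d.2.2.1 then t ^ sz d.2.2.1 else 0) *
            (if d.2.2.2 = r.2 then 1 else 0))) (fun _ _ => zero_le) hr)
    rw [if_pos, if_pos, if_pos]
    · simp
    · rfl
    · refine ⟨a4, a5, ?_, a8⟩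
      simp only [hp0]; omega
    · refine ⟨a1, a2, a3, ?_, rfl⟩
      simp only [hp0]; omega
  refine (ENNReal.tsum_le_tsum hpt).trans ?_
  rw [ENNReal.tsum_mul_left]
  gcongr
  rw [Summable.tsum_finsetSum (fun _ _ => ENNReal.summable)]
  refine Finset.sum_le_sum (fun p _ => ?_)
  rw [Summable.tsum_finsetSum (fun _ _ => ENNReal.summable)]
  refine Finset.sum_le_sum (fun r _ => ?_)
  apply le_of_eq
  have e1 : ∀ m : ℕ, ∑' x : ℕ, (if x = m then (1 : ℝ≥0∞) else 0) = 1 := fun m => tsum_ite_eq m _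
  rw [ENNReal.tsum_prod']
  simp_rw [ENNReal.tsum_prod', ENNReal.tsum_mul_left, e1, mul_one, ENNReal.tsum_mul_right]
  rw [q, k, ENNReal.tsum_prod']

end sums

end Pool.Agent.H48
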