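import Pool.Agent.H48.Check
import Mathlib

/-!
# From big numbers to polynomials
-/

set_option autoImplicit false

namespace Pool.Agent.H48

open Polynomial

def dg (X c : ℕ) : ℕ := X / BB ^ c % BB

theorem BB_pos : 0 < BB := by unfold BB; positivity

theorem dg_zero (X : ℕ) : dg X 0 = X % BB := by simp [dg]

theorem dg_succ (X c : ℕ) : dg X (c + 1) = dg (X / BB) c := by
  simp only [dg]
  rw [pow_succ', Nat.div_div_eq_div_mul]

theorem dg_lt (X c : ℕ) : dg X c < BB := Nat.mod_lt _ BB_pos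

theorem dg_large {X n c : ℕ} (h : X < BB ^ n) (hc : n ≤ c) : dg X c = 0 := by
  have : X < BB ^ c := lt_of_lt_of_le h (Nat.pow_le_pow_right BB_pos hc)
  rw [dg, Nat.div_eq_of_lt this, Nat.zero_mod]

theorem loopK_spec (n X Y : ℕ) (h : loopK n X Y = true) :
    ∀ c < n, 71 * dg X c + 65 * dg Y (c + 1) ≤ 71 * dg Y c := by
  induction n generalizing X Y with
  | zero => intro c hc; omega
  | succ n ih =>
    rw [loopK, Bool.and_eq_true] at h
    obtain ⟨h1, h2⟩ := h
    intro c hc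
    match c with
    | 0 =>
      rw [dg_zero, dg_zero, dg_succ, dg_zero]
      exact Nat.le_of_ble_eq_true h1
    | c + 1 =>
      rw [dg_succ X, dg_succ Y (c + 1), dg_succ Y c]
      exact ih _ _ h2 c (by omega)

theorem loopD_spec (n X Z : ℕ) (h : loopD n X Z = true) :
    ∀ c < n, dg Z c ≤ MM * dg X c := by
  induction n generalizing X Z with
  | zero => intro c hc; omega
  | succ n ih =>
    rw [loopD, Bool.and_eq_true] at h
    obtain ⟨h1, h2⟩ := h
    intro c hc
    match c with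
    | 0 =>
      rw [dg_zero, dg_zero]
      exact Nat.le_of_ble_eq_true h1
    | c + 1 =>
      rw [dg_succ X, dg_succ Z]
      exact ih _ _ h2 c (by omega)

theorem sumDig_spec (n X acc : ℕ) :
    sumDig n X acc = acc + ∑ c ∈ Finset.range n, dg X c := by
  induction n generalizing X acc with
  | zero => simp [sumDig]
  | succ n ih =>
    rw [sumDig, ih, Finset.sum_range_succ', dg_zero]
    simp only [dg_succ]
    omega

theorem sumRows_spec (R : ℕ → ℕ) (m : ℕ) :
    sumRows R m = ∑ i ∈ Finset.range m, ∑ c ∈ Finset.range 321, dg (R i) c := by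
  induction m with
  | zero => simp [sumRows]
  | succ m ih =>
    rw [sumRows, ih, Finset.sum_range_succ, sumDig_spec]
    omega

theorem chkK_spec (m : ℕ) (h : chkK m = true) :
    ∀ i < m, ∀ c < 321, 71 * dg (RA i) c + 65 * dg (RK i) (c + 1) ≤ 71 * dg (RK i) c := by
  induction m with
  | zero => intro i hi; omega
  | succ m ih =>
    rw [chkK, Bool.and_eq_true] at h
    intro i hi
    rcases Nat.lt_succ_iff_lt_or_eq.1 hi with h' | h'
    · exact ih h.2 i h'
    · subst h'; exact loopK_spec _ _ _ h.1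

theorem chkD_spec (m : ℕ) (h : chkD m = true) :
    ∀ i < m, ∀ c < 321, dg (RD i) c ≤ MM * dg (RA i) c := by
  induction m with
  | zero => intro i hi; omega
  | succ m ih =>
    rw [chkD, Bool.and_eq_true] at h
    intro i hi
    rcases Nat.lt_succ_iff_lt_or_eq.1 hi with h' | h'
    · exact ih h.2 i h'
    · subst h'; exact loopD_spec _ _ _ h.1

theorem chkLen_spec (m : ℕ) (h : chkLen m = true) :
    ∀ i < m, RA i < BB ^ 321 ∧ RK i < BB ^ 321 := by
  induction m with
  | zero => intro i hi; omega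
  | succ m ih =>
    rw [chkLen, Bool.and_eq_true, Bool.and_eq_true] at h
    intro i hi
    rcases Nat.lt_succ_iff_lt_or_eq.1 hi with h' | h'
    · exact ih h.2 i h'
    · subst h'
      exact ⟨Nat.blt_eq ▸ h.1.1, Nat.blt_eq ▸ h.1.2⟩

theorem length_rowsA : rowsA.length = 64 := by decide +kernel

theorem length_rowsK : rowsK.length = 64 := by decide +kernel

theorem RA_large {i : ℕ} (h : 64 ≤ i) : RA i = 0 := by
  rw [RA, List.getD_eq_default]
  rw [length_rowsA]; exact h

theorem RK_large {i : ℕ} (h : 64 ≤ i) : RK i = 0 := by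
  rw [RK, List.getD_eq_default]
  rw [length_rowsK]; exact h

theorem RA_lt (i : ℕ) : RA i < BB ^ 321 := by
  by_cases h : i < 64
  · exact (chkLen_spec 64 chkLen_ok i h).1
  · rw [RA_large (by omega)]; exact Nat.pow_pos BB_pos

theorem RK_lt (i : ℕ) : RK i < BB ^ 321 := by
  by_cases h : i < 64
  · exact (chkLen_spec 64 chkLen_ok i h).2
  · rw [RK_large (by omega)]; exact Nat.pow_pos BB_pos

/-- entries -/
def eA (i c : ℕ) : ℕ := dg (RA i) c

def eK (i c : ℕ) : ℕ := dg (RK i) c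

theorem eA_row {i : ℕ} (h : 64 ≤ i) (c : ℕ) : eA i c = 0 := by
  rw [eA, RA_large h, dg]; simp

theorem eK_row {i : ℕ} (h : 64 ≤ i) (c : ℕ) : eK i c = 0 := by
  rw [eK, RK_large h, dg]; simp

theorem eA_col (i : ℕ) {c : ℕ} (h : 321 ≤ c) : eA i c = 0 := dg_large (RA_lt i) h

theorem eK_col (i : ℕ) {c : ℕ} (h : 321 ≤ c) : eK i c = 0 := dg_large (RK_lt i) h

theorem eK_ineq (i c : ℕ) : 71 * eA i c + 65 * eK i (c + 1) ≤ 71 * eK i c := by
  by_cases hi : i < 64
  · by_cases hc : c < 321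
    · exact chkK_spec 64 chkK_ok i hi c hc
    · rw [eA_col i (by omega), eK_col i (by omega : 321 ≤ c + 1)]; omega
  · rw [eA_row (by omega), eK_row (by omega)]; omega

theorem RQ_zero : RQ 0 = 5041 * RA 1 + 2556 * RA 0 := rfl

theorem RQ_succ (i : ℕ) : RQ (i + 1) = 5041 * RA (i + 2) + 2556 * RA (i + 1) + 324 * RA i := rfl

theorem cv_zero (m : ℕ) : cv 0 m = RQ 0 * RK m := rfl

theorem cv_succ (j m : ℕ) : cv (j + 1) m = RQ (j + 1) * RK m + cv j (m + 1) := rfl

theorem RD_zero : RD 0 = 500 * 71 * BB * (2 ^ 112 * 90738 + 2 ^ 56 * 71 * RQ 0) := rfl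

theorem RD_succ (i : ℕ) : RD (i + 1) = 500 * 71 * BB * (2 ^ 56 * 23004 * RA i +
    2 ^ 56 * 71 * RQ (i + 1) + 18 * cv i 0) := rfl

attribute [local irreducible] RA RK BB RQ cv RD

/-- polynomial of a number -/
noncomputable def pol (X : ℕ) : ℕ[X] := ∑ c ∈ Finset.range 321, monomial c (dg X c)

theorem coeff_pol {X : ℕ} (h : X < BB ^ 321) (c : ℕ) : (pol X).coeff c = dg X c := by
  rw [pol, finsetSum_coeff]
  simp only [coeff_monomial]
  rw [Finset.sum_ite_eq']
  by_cases hc : c < 321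
  · simp [hc]
  · rw [if_neg (by simpa using hc), dg_large h (by omega)]

theorem sum_dg (X n : ℕ) : ∑ c ∈ Finset.range n, dg X c * BB ^ c = X % BB ^ n := by
  induction n generalizing X with
  | zero => simp [Nat.mod_one]
  | succ n ih =>
    rw [Finset.sum_range_succ']
    simp only [dg_succ, dg_zero, pow_succ, ← mul_assoc, ← Finset.sum_mul]
    rw [ih]
    simp only [pow_zero, mul_one]
    rw [mul_comm (BB ^ n) BB, Nat.mod_mul]
    ring

theorem eval_pol {X : ℕ} (h : X < BB ^ 321) : (pol X).eval BB = X := by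
  rw [pol, eval_finsetSum]
  simp only [eval_monomial]
  rw [sum_dg, Nat.mod_eq_of_lt h]

theorem dg_eval (c : ℕ) (f : ℕ[X]) (hf : ∀ c, f.coeff c < BB) : dg (f.eval BB) c = f.coeff c := by
  have key : ∀ f : ℕ[X], f.eval BB = f.divX.eval BB * BB + f.coeff 0 := by
    intro f
    conv_lhs => rw [← divX_mul_X_add f]
    simp
  induction c generalizing f with
  | zero =>
    rw [dg_zero, key f, Nat.add_mod, Nat.mul_mod_left, zero_add, Nat.mod_mod,
      Nat.mod_eq_of_lt (hf 0)]
  | succ c ih =>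
    rw [dg_succ, key f]
    have : (f.divX.eval BB * BB + f.coeff 0) / BB = f.divX.eval BB := by
      rw [mul_comm, Nat.mul_add_div BB_pos, Nat.div_eq_of_lt (hf 0), add_zero]
    rw [this, ih f.divX, coeff_divX]
    intro c
    rw [coeff_divX]; exact hf _

noncomputable def pA (i : ℕ) : ℕ[X] := pol (RA i)

noncomputable def pK (i : ℕ) : ℕ[X] := pol (RK i)

theorem coeff_pA (i c : ℕ) : (pA i).coeff c = eA i c := coeff_pol (RA_lt i) c

theorem coeff_pK (i c : ℕ) : (pK i).coeff c = eK i c := coeff_pol (RK_lt i) c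

theorem eval_pA (i : ℕ) : (pA i).eval BB = RA i := eval_pol (RA_lt i)

theorem eval_pK (i : ℕ) : (pK i).eval BB = RK i := eval_pol (RK_lt i)

/-- scaled `Q` entries -/
def eQ : ℕ → ℕ → ℕ
  | 0, c => 5041 * eA 1 c + 2556 * eA 0 c
  | i + 1, c => 5041 * eA (i + 2) c + 2556 * eA (i + 1) c + 324 * eA i c

/-- shifted rows -/
noncomputable def pAs : ℕ → ℕ[X]
  | 0 => 0
  | i + 1 => pA i

/-- linear combination of three polynomials -/
noncomputable def lin3 (a b c : ℕ) (f g h : ℕ[X]) : ℕ[X] := C a * f + C b * g + C c * h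

theorem coeff_lin3 (a b c : ℕ) (f g h : ℕ[X]) (n : ℕ) :
    (lin3 a b c f g h).coeff n = a * f.coeff n + b * g.coeff n + c * h.coeff n := by
  simp only [lin3, coeff_add, coeff_C_mul]

theorem eval_lin3 (a b c : ℕ) (f g h : ℕ[X]) (x : ℕ) :
    (lin3 a b c f g h).eval x = a * f.eval x + b * g.eval x + c * h.eval x := by
  simp only [lin3, eval_add, eval_mul, eval_C]

noncomputable def pQ (i : ℕ) : ℕ[X] := lin3 5041 2556 324 (pA (i + 1)) (pA i) (pAs i)

theorem coeff_pQ (i c : ℕ) : (pQ i).coeff c = eQ i c := by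
  rw [pQ, coeff_lin3, coeff_pA, coeff_pA]
  match i with
  | 0 =>
    rw [pAs, coeff_zero]; rfl
  | i + 1 => rw [pAs, coeff_pA]; rfl

theorem eval_pQ (i : ℕ) : (pQ i).eval BB = RQ i := by
  rw [pQ, eval_lin3, eval_pA, eval_pA]
  match i with
  | 0 =>
    rw [pAs, eval_zero, RQ_zero, mul_zero, add_zero]
  | i + 1 => rw [pAs, eval_pA, RQ_succ]

/-- convolution entries -/
def eC (i c : ℕ) : ℕ :=
  ∑ p ∈ Finset.HasAntidiagonal.antidiagonal i, ∑ r ∈ Finset.HasAntidiagonal.antidiagonal c,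
    eQ p.1 r.1 * eK p.2 r.2

noncomputable def pC (i : ℕ) : ℕ[X] :=
  ∑ p ∈ Finset.HasAntidiagonal.antidiagonal i, pQ p.1 * pK p.2

theorem coeff_pC (i c : ℕ) : (pC i).coeff c = eC i c := by
  simp only [pC, eC, finsetSum_coeff, coeff_mul, coeff_pQ, coeff_pK]

theorem cv_eq (i m : ℕ) :
    cv i m = ∑ p ∈ Finset.HasAntidiagonal.antidiagonal i, RQ p.1 * RK (p.2 + m) := by
  induction i generalizing m with
  | zero => rw [cv_zero]; simp
  | succ i ih =>
    rw [cv_succ, ih, Finset.Nat.antidiagonal_succ']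
    simp only [Finset.sum_cons, Finset.sum_map, zero_add]
    congr 1
    apply Finset.sum_congr rfl
    intro p _
    simp only [Function.Embedding.prodMap, Function.Embedding.coeFn_mk, Prod.map,
      Function.Embedding.refl_apply]
    congr 2
    simp only [Nat.succ_eq_add_one]
    omega

theorem eval_pC (i : ℕ) : (pC i).eval BB = cv i 0 := by
  rw [cv_eq, pC, eval_finsetSum]
  apply Finset.sum_congr rfl
  intro p _
  rw [eval_mul, eval_pQ, eval_pK, add_zero]

/-- `D` entries -/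
def eD : ℕ → ℕ → ℕ
  | _, 0 => 0
  | 0, c + 1 => 500 * 71 * ((if c = 0 then 2 ^ 112 * 90738 else 0) + 2 ^ 56 * 71 * eQ 0 c)
  | i + 1, c + 1 => 500 * 71 * (2 ^ 56 * 23004 * eA i c + 2 ^ 56 * 71 * eQ (i + 1) c +
      18 * eC i c)

/-- the polynomial inside -/
noncomputable def pI : ℕ → ℕ[X]
  | 0 => 0
  | i + 1 => pC i

/-- the constant term -/
def z0 : ℕ → ℕ
  | 0 => 2 ^ 112 * 90738
  | _ + 1 => 0

/-- generic form -/
noncomputable def pDg (k z a b c : ℕ) (f g h : ℕ[X]) : ℕ[X] :=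
  C k * X * (C z + lin3 a b c f g h)

theorem coeff_pDg_zero (k z a b c : ℕ) (f g h : ℕ[X]) : (pDg k z a b c f g h).coeff 0 = 0 := by
  rw [pDg, mul_assoc, coeff_C_mul, coeff_X_mul_zero, mul_zero]

theorem coeff_pDg_succ (k z a b c : ℕ) (f g h : ℕ[X]) (n : ℕ) :
    (pDg k z a b c f g h).coeff (n + 1) =
      k * ((if n = 0 then z else 0) + (a * f.coeff n + b * g.coeff n + c * h.coeff n)) := by
  rw [pDg, mul_assoc, coeff_C_mul, coeff_X_mul, coeff_add, coeff_lin3, coeff_C]

theorem eval_pDg (k z a b c : ℕ) (f g h : ℕ[X]) (x : ℕ) :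
    (pDg k z a b c f g h).eval x =
      k * x * (z + (a * f.eval x + b * g.eval x + c * h.eval x)) := by
  rw [pDg, eval_mul, eval_mul, eval_add, eval_lin3, eval_C, eval_C, eval_X]

noncomputable def pD (i : ℕ) : ℕ[X] :=
  pDg (500 * 71) (z0 i) (2 ^ 56 * 23004) (2 ^ 56 * 71) 18 (pAs i) (pQ i) (pI i)

theorem coeff_pD (i c : ℕ) : (pD i).coeff c = eD i c := by
  match i, c with
  | 0, 0 => rw [pD, coeff_pDg_zero]; rfl
  | i + 1, 0 => rw [pD, coeff_pDg_zero]; rfl
  | 0, c + 1 =>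
    rw [pD, coeff_pDg_succ, coeff_pQ, pAs, pI, coeff_zero, mul_zero, mul_zero, zero_add,
      add_zero]
    rfl
  | i + 1, c + 1 =>
    rw [pD, coeff_pDg_succ, coeff_pQ, pAs, pI, coeff_pA, coeff_pC]
    have : (if c = 0 then z0 (i + 1) else 0) = 0 := by
      have h : z0 (i + 1) = 0 := rfl
      rw [h, ite_self]
    rw [this, zero_add]
    rfl

theorem eval_pD (i : ℕ) : (pD i).eval BB = RD i := by
  match i with
  | 0 =>
    rw [pD, RD_zero, eval_pDg, pAs, pI, eval_pQ, eval_zero, mul_zero, mul_zero, zero_add,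
      add_zero]
    rfl
  | i + 1 =>
    rw [pD, RD_succ, eval_pDg, pAs, pI, eval_pQ, eval_pA, eval_pC]
    have h : z0 (i + 1) = 0 := rfl
    rw [h, zero_add]

theorem dg_RD (hlt : ∀ i c, eD i c < BB) (i c : ℕ) : dg (RD i) c = eD i c := by
  rw [← eval_pD, dg_eval c (pD i), coeff_pD]
  intro c
  rw [coeff_pD]; exact hlt i c

theorem eD_le (hlt : ∀ i c, eD i c < BB) (i c : ℕ) (hi : i < 64) (hc : c < 321) :
    eD i c ≤ MM * eA i c := by
  rw [← dg_RD hlt i c]
  exact chkD_spec 64 chkD_ok i hi c hc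

theorem sum_eA : ∑ i ∈ Finset.range 64, ∑ c ∈ Finset.range 321, eA i c = 13410842393335895 := by
  rw [← sumA_eq, sumRows_spec]; rfl

theorem sum_eA0 : ∑ c ∈ Finset.range 321, eA 0 c = 11285742187960226 := by
  rw [← sumA0_eq, sumDig_spec, zero_add]; rfl

theorem sum_eK : ∑ i ∈ Finset.range 64, ∑ c ∈ Finset.range 321, eK i c = 37217889962213513 := by
  rw [← sumK_eq, sumRows_spec]; rfl

theorem sum_eD (hlt : ∀ i c, eD i c < BB) :
    ∑ i ∈ Finset.range 64, ∑ c ∈ Finset.range 321, eD i c =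
      27648320442224178337469130903141118137305000 := by
  rw [← sumD_eq, sumRows_spec]
  apply Finset.sum_congr rfl
  intro i _
  apply Finset.sum_congr rfl
  intro c _
  rw [dg_RD hlt]

end Pool.Agent.H48
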