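import Pool.Agent.H48.Cert

/-!
# The growth bound for 3-stack-sortable permutations
-/

set_option autoImplicit false

namespace Pool.Agent.H48

open scoped ENNReal NNReal
open Filter Topology

attribute [local irreducible] RA RK BB RQ cv RD

theorem hq_bound : nrm (Qw vE viE pE) ≤ ((535738 / 10 ^ 6 : ℝ≥0) : ℝ≥0∞) := by
  apply cancel_nat (1278 * 2 ^ 56) (by norm_num)
  have h := nrm_QE
  have e1 : (1278 * 2 ^ 56 : ℝ≥0∞) = ((1278 * 2 ^ 56 : ℕ) : ℝ≥0∞) := by push_cast; ring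
  rw [← e1, h]
  have : (49335856228106125029 : ℝ≥0) ≤ 1278 * 2 ^ 56 * (535738 / 10 ^ 6) := by
    rw [← NNReal.coe_le_coe]; push_cast; norm_num
  exact_mod_cast this

theorem hk_bound : nrm (Kw yiE pE) ≤ ((516503 / 10 ^ 6 : ℝ≥0) : ℝ≥0∞) := by
  refine (nrm_mono Kw_pE_le).trans ?_
  rw [nrm_kE, uE]
  have : (37217889962213513 : ℝ≥0) * (1 / 2 ^ 56) ≤ 516503 / 10 ^ 6 := by
    rw [← NNReal.coe_le_coe]; push_cast; norm_num
  exact_mod_cast this

theorem hr_bound : nrm rE ≤ ((1210 / 10 ^ 10 : ℝ≥0) : ℝ≥0∞) := by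
  apply cancel_nat (4851 * 65 * 90738 * 2 ^ 112) (by norm_num)
  rw [← K0_nat, nrm_rE, K0_nat]
  have : (17968714422934956768563432388666394000 : ℝ≥0) ≤
      ((4851 * 65 * 90738 * 2 ^ 112 : ℕ) : ℝ≥0) * (1210 / 10 ^ 10) := by
    rw [← NNReal.coe_le_coe]; push_cast; norm_num
  exact_mod_cast this

theorem hY_bound : 1 + yiE * ((71 / 6 : ℝ≥0) : ℝ≥0∞) ≤ ((71 / 6 : ℝ≥0) : ℝ≥0∞) := by
  rw [yiE]
  have : (1 : ℝ≥0) + 65 / 71 * (71 / 6) ≤ 71 / 6 := by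
    rw [← NNReal.coe_le_coe]; push_cast; norm_num
  exact_mod_cast this

theorem hnum_bound : ((1210 / 10 ^ 10 : ℝ≥0) : ℝ≥0∞) + tE * yE *
      (vE * ((318 / 10 ^ 6 : ℝ≥0) : ℝ≥0∞) + (vE + 2 + viE) * ((318 / 10 ^ 6 : ℝ≥0) : ℝ≥0∞) +
      vE * (((535738 / 10 ^ 6 : ℝ≥0) : ℝ≥0∞) * (((71 / 6 : ℝ≥0) : ℝ≥0∞) *
        ((318 / 10 ^ 6 : ℝ≥0) : ℝ≥0∞)) +
        (vE + 2 + viE) * ((318 / 10 ^ 6 : ℝ≥0) : ℝ≥0∞) * ((516503 / 10 ^ 6 : ℝ≥0) : ℝ≥0∞) +
        (vE + 2 + viE) * ((318 / 10 ^ 6 : ℝ≥0) : ℝ≥0∞) * (((71 / 6 : ℝ≥0) : ℝ≥0∞) *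
          ((318 / 10 ^ 6 : ℝ≥0) : ℝ≥0∞)))) ≤ ((318 / 10 ^ 6 : ℝ≥0) : ℝ≥0∞) := by
  rw [tE, yE, vE, viE]
  have : (1210 / 10 ^ 10 : ℝ≥0) + 500 / 4851 * (71 / 65) *
      (18 / 71 * (318 / 10 ^ 6) + (18 / 71 + 2 + 71 / 18) * (318 / 10 ^ 6) +
      18 / 71 * (535738 / 10 ^ 6 * (71 / 6 * (318 / 10 ^ 6)) +
        (18 / 71 + 2 + 71 / 18) * (318 / 10 ^ 6) * (516503 / 10 ^ 6) +
        (18 / 71 + 2 + 71 / 18) * (318 / 10 ^ 6) * (71 / 6 * (318 / 10 ^ 6)))) ≤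
      318 / 10 ^ 6 := by
    rw [← NNReal.coe_le_coe]; push_cast; norm_num
  exact_mod_cast this

theorem nrm_bound (N : ℕ) : nrm (wt vE yE (g tE N)) ≤ 1 := by
  obtain ⟨E, hE, hG⟩ := boot tE vE viE yE yiE hvvi hyyi pE rE ((71 / 6 : ℝ≥0) : ℝ≥0∞)
    ((535738 / 10 ^ 6 : ℝ≥0) : ℝ≥0∞) ((516503 / 10 ^ 6 : ℝ≥0) : ℝ≥0∞)
    ((1210 / 10 ^ 10 : ℝ≥0) : ℝ≥0∞) ((318 / 10 ^ 6 : ℝ≥0) : ℝ≥0∞)
    hY_bound hq_bound hk_bound Phiw_pE_le' hr_bound hnum_bound N
  calc nrm (wt vE yE (g tE N)) ≤ nrm (fun i c => pE i c + E i c) := nrm_mono hG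
    _ = nrm pE + nrm E := nrm_add _ _
    _ ≤ (13410842393335895 : ℝ≥0∞) * uE + ((318 / 10 ^ 6 : ℝ≥0) : ℝ≥0∞) := by
        rw [nrm_pE]; gcongr
    _ ≤ 1 := by
        rw [uE]
        have : (13410842393335895 : ℝ≥0) * (1 / 2 ^ 56) + 318 / 10 ^ 6 ≤ 1 := by
          rw [← NNReal.coe_le_coe]; push_cast; norm_num
        exact_mod_cast this

/-- the list of a permutation -/
def pl {n : ℕ} (σ : Equiv.Perm (Fin n)) : List ℕ :=
  List.ofFn (fun i : Fin n => ((σ i : Fin n) : ℕ))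

theorem pl_nodup {n : ℕ} (σ : Equiv.Perm (Fin n)) : (pl σ).Nodup := by
  unfold pl
  rw [List.nodup_ofFn]
  intro i j h
  exact σ.injective (Fin.ext h)

theorem pl_length {n : ℕ} (σ : Equiv.Perm (Fin n)) : (pl σ).length = n := by
  simp [pl]

theorem pl_perm {n : ℕ} (σ : Equiv.Perm (Fin n)) : (pl σ).Perm (List.range n) := by
  have h := perm_range_of (pl_nodup σ) (by
    intro x hx
    rw [pl_length]
    simp only [pl, List.mem_ofFn] at hx
    obtain ⟨i, rfl⟩ := hx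
    exact (σ i).isLt)
  rwa [pl_length] at h

theorem pl_inj {n : ℕ} : Function.Injective (pl (n := n)) := by
  intro σ τ h
  unfold pl at h
  have h2 := List.ofFn_injective h
  ext i
  exact congrFun h2 i

theorem valid_pl {n : ℕ} (hn : n ≠ 0) (σ : Equiv.Perm (Fin n))
    (h : ss (ss (ss (pl σ))) = List.range n) : Valid [pl σ] := by
  have hf : List.flatten [pl σ] = pl σ := by simp
  have hs : sz [pl σ] = n := by rw [sz, hf, pl_length]
  refine ⟨?_, by simp, ?_, ?_⟩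
  · intro α hα
    rw [List.mem_singleton] at hα
    subst hα
    intro h0
    have := congrArg List.length h0
    rw [pl_length] at this
    exact hn (by simpa using this)
  · rw [hs, hf]; exact pl_perm σ
  · have hu : up [pl σ] = ss (ss (pl σ)) := by simp [up, rho]
    rw [hu, av_iff _ (ss_nodup (ss_nodup (pl_nodup σ))), h]
    exact List.pairwise_lt_range

theorem count_bound (n : ℕ) (hn : n ≠ 0) :
    ((((Finset.univ : Finset (Equiv.Perm (Fin n))).filter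
      (fun σ => ss (ss (ss (pl σ))) = List.range n)).card : ℕ) : ℝ≥0∞) * tE ^ n ≤ 1 := by
  classical
  refine le_trans ?_ (nrm_bound n)
  set S := (Finset.univ : Finset (Equiv.Perm (Fin n))).filter
      (fun σ => ss (ss (ss (pl σ))) = List.range n) with hS
  have h1 : ∑' c : ℕ, wt vE yE (g tE n) 0 c ≤ nrm (wt vE yE (g tE n)) :=
    ENNReal.le_tsum (f := fun i => ∑' c : ℕ, wt vE yE (g tE n) i c) 0
  refine le_trans ?_ h1
  have hy1 : 1 ≤ yE := by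
    rw [yE]
    have : (1 : ℝ≥0) ≤ 71 / 65 := by rw [← NNReal.coe_le_coe]; push_cast; norm_num
    exact_mod_cast this
  have h2 : ∑' c : ℕ, g tE n 0 c ≤ ∑' c : ℕ, wt vE yE (g tE n) 0 c := by
    apply ENNReal.tsum_le_tsum
    intro c
    simp only [wt, pow_zero, one_mul]
    exact le_mul_of_one_le_right zero_le (one_le_pow₀ hy1)
  refine le_trans ?_ h2
  simp only [g]
  rw [ENNReal.tsum_comm]
  have hinj : Set.InjOn (fun σ : Equiv.Perm (Fin n) => ([pl σ] : Fo)) S := by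
    intro σ _ τ _ h
    simp only [List.cons.injEq, and_true] at h
    exact pl_inj h
  refine le_trans ?_ (ENNReal.sum_le_tsum (S.image (fun σ => ([pl σ] : Fo))))
  rw [Finset.sum_image hinj]
  rw [← nsmul_eq_mul, ← Finset.sum_const]
  apply Finset.sum_le_sum
  intro σ hσ
  have hσ' : ss (ss (ss (pl σ))) = List.range n := (Finset.mem_filter.1 hσ).2
  have hsz : sz [pl σ] = n := by
    rw [sz]; simp [pl_length]
  refine le_trans ?_ (ENNReal.le_tsum (kap (up [pl σ])))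
  rw [if_pos, hsz]
  exact ⟨valid_pl hn σ hσ', by rw [hsz], rfl, rfl⟩

/-- real form of the bound -/
theorem count_bound_real (n : ℕ) (hn : n ≠ 0) :
    (((Finset.univ : Finset (Equiv.Perm (Fin n))).filter
      (fun σ => ss (ss (ss (pl σ))) = List.range n)).card : ℝ) ≤ (9.702 : ℝ) ^ n := by
  have h := count_bound n hn
  set k := ((Finset.univ : Finset (Equiv.Perm (Fin n))).filter
      (fun σ => ss (ss (ss (pl σ))) = List.range n)).card with hk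
  rw [tE] at h
  have h2 : ((k : ℝ≥0) * (500 / 4851) ^ n : ℝ≥0) ≤ 1 := by exact_mod_cast h
  rw [← NNReal.coe_le_coe] at h2
  push_cast at h2
  have h3 : ((500 : ℝ) / 4851) ^ n * (9.702 : ℝ) ^ n = 1 := by
    rw [← mul_pow]; norm_num
  have h4 : (0 : ℝ) < (9.702 : ℝ) ^ n := by positivity
  calc (k : ℝ) = (k : ℝ) * ((500 / 4851) ^ n * (9.702 : ℝ) ^ n) := by rw [h3, mul_one]
    _ = ((k : ℝ) * (500 / 4851) ^ n) * (9.702 : ℝ) ^ n := by ring
    _ ≤ 1 * (9.702 : ℝ) ^ n := by gcongr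
    _ = (9.702 : ℝ) ^ n := one_mul _

theorem growth_le (c : ℝ) (hc : Tendsto
    (fun n : ℕ => (((Finset.univ : Finset (Equiv.Perm (Fin n))).filter
      (fun σ => ss (ss (ss (pl σ))) = List.range n)).card : ℝ) ^ ((1 : ℝ) / (n : ℝ)))
    atTop (𝓝 c)) : c ≤ 9.702 := by
  refine le_of_tendsto hc ?_
  filter_upwards [eventually_ne_atTop 0] with n hn
  have h := count_bound_real n hn
  have hn' : (n : ℝ) ≠ 0 := by exact_mod_cast hn
  calc _ ≤ ((9.702 : ℝ) ^ n) ^ ((1 : ℝ) / (n : ℝ)) := by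
        apply Real.rpow_le_rpow (by positivity) h (by positivity)
    _ = 9.702 := by
        rw [← Real.rpow_natCast, ← Real.rpow_mul (by norm_num)]
        rw [mul_one_div_cancel hn', Real.rpow_one]

end Pool.Agent.H48
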