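import Pool.Agent.H48.Kap

/-!
# Forests: reversed lists of words
-/

set_option autoImplicit false

namespace Pool.Agent.H48

/-- A forest is a (reversed) list of words. -/
abbrev Fo := List (List ℕ)

/-- concatenation of the sorted words (the list is stored in reversed order). -/
def rho : Fo → List ℕ
  | [] => []
  | α :: r => rho r ++ ss α

/-- the second pass -/
def up (F : Fo) : List ℕ := ss (rho F)

/-- total number of letters -/
def sz (F : Fo) : ℕ := F.flatten.length

/-- relabelling of letters -/
def rel (f : ℕ → ℕ) (F : Fo) : Fo := F.map (List.map f)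

theorem rho_append (F G : Fo) : rho (F ++ G) = rho G ++ rho F := by
  induction F with
  | nil => simp [rho]
  | cons α F ih => simp [rho, ih, List.append_assoc]

theorem rho_perm (F : Fo) (h : F.flatten.Nodup) : (rho F).Perm F.flatten := by
  induction F with
  | nil => simp [rho]
  | cons α F ih =>
    simp only [rho, List.flatten_cons]
    rw [List.flatten_cons, List.nodup_append] at h
    exact ((ih h.2.1).append (ss_perm α h.1)).trans List.perm_append_comm

theorem rho_nodup (F : Fo) (h : F.flatten.Nodup) : (rho F).Nodup :=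
  (rho_perm F h).nodup_iff.2 h

theorem up_perm (F : Fo) (h : F.flatten.Nodup) : (up F).Perm F.flatten :=
  (ss_perm _ (rho_nodup F h)).trans (rho_perm F h)

theorem up_nodup (F : Fo) (h : F.flatten.Nodup) : (up F).Nodup :=
  (up_perm F h).nodup_iff.2 h

theorem mem_up {F : Fo} (h : F.flatten.Nodup) {x : ℕ} : x ∈ up F ↔ x ∈ F.flatten :=
  (up_perm F h).mem_iff

theorem length_up {F : Fo} (h : F.flatten.Nodup) : (up F).length = sz F :=
  (up_perm F h).length_eq

theorem rel_flatten (f : ℕ → ℕ) (F : Fo) : (rel f F).flatten = F.flatten.map f := by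
  rw [rel, List.map_flatten]

theorem rho_rel {f : ℕ → ℕ} (hf : StrictMono f) (F : Fo) (h : F.flatten.Nodup) :
    rho (rel f F) = (rho F).map f := by
  induction F with
  | nil => simp [rho, rel]
  | cons α F ih =>
    rw [List.flatten_cons, List.nodup_append] at h
    have := ih h.2.1
    simp only [rel, List.map_cons, rho, List.map_append] at this ⊢
    rw [this, ss_map hf α h.1]

theorem up_rel {f : ℕ → ℕ} (hf : StrictMono f) (F : Fo) (h : F.flatten.Nodup) :
    up (rel f F) = (up F).map f := by
  rw [up, rho_rel hf F h, ss_map hf _ (rho_nodup F h), up]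

theorem sz_rel (f : ℕ → ℕ) (F : Fo) : sz (rel f F) = sz F := by
  rw [sz, rel_flatten, List.length_map, sz]

theorem length_rel (f : ℕ → ℕ) (F : Fo) : (rel f F).length = F.length := by
  rw [rel, List.length_map]

theorem rel_rel (f g : ℕ → ℕ) (F : Fo) (h : ∀ x ∈ F.flatten, f (g x) = x) :
    rel f (rel g F) = F := by
  rw [rel, rel, List.map_map]
  conv_rhs => rw [← List.map_id F]
  apply List.map_congr_left
  intro α hα
  simp only [Function.comp, List.map_map, id]
  conv_rhs => rw [← List.map_id α]
  apply List.map_congr_left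
  intro x hx
  exact h x (List.mem_flatten.2 ⟨α, hα, hx⟩)

/-- The four ways of adding a new maximum. -/
inductive Ty
  | leaf | left | right | both
  deriving DecidableEq

instance : Fintype Ty := ⟨{.leaf, .left, .right, .both}, by intro x; cases x <;> simp⟩

/-- put the new letter `n` on top of the last trees of a forest. -/
def attach (n : ℕ) : Ty → Fo → Fo
  | .leaf, F => [n] :: F
  | .left, X :: r => (X ++ [n]) :: r
  | .right, X :: r => (n :: X) :: r
  | .both, Y :: X :: r => (X ++ n :: Y) :: r
  | _, F => F

/-- number of trees needed -/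
def okTy : Ty → Fo → Prop
  | .leaf, _ => True
  | .left, F => F ≠ []
  | .right, F => F ≠ []
  | .both, F => 2 ≤ F.length

theorem exists_attach (l : Fo) (n : ℕ) (hn : n ∈ l.flatten) (hne : ∀ α ∈ l, α ≠ []) :
    ∃ (l2 F : Fo) (ty : Ty), okTy ty F ∧ l = l2 ++ attach n ty F ∧ (∀ α ∈ F, α ≠ []) ∧
      (∀ α ∈ l2, α ≠ []) := by
  obtain ⟨α, hα, hnα⟩ := List.mem_flatten.1 hn
  obtain ⟨l2, l1, rfl⟩ := List.append_of_mem hα
  obtain ⟨L, R, rfl⟩ := List.append_of_mem hnα
  have h1 : ∀ α ∈ l1, α ≠ [] := fun α h => hne α (by simp [h])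
  have h2 : ∀ α ∈ l2, α ≠ [] := fun α h => hne α (by simp [h])
  by_cases hL : L = [] <;> by_cases hR : R = []
  · subst hL hR
    exact ⟨l2, l1, .leaf, trivial, rfl, h1, h2⟩
  · subst hL
    refine ⟨l2, R :: l1, .right, by simp [okTy], rfl, ?_, h2⟩
    intro α h
    rcases List.mem_cons.1 h with h | h
    · rw [h]; exact hR
    · exact h1 α h
  · subst hR
    refine ⟨l2, L :: l1, .left, by simp [okTy], rfl, ?_, h2⟩
    intro α h
    rcases List.mem_cons.1 h with h | h
    · rw [h]; exact hL
    · exact h1 α h
  · refine ⟨l2, R :: L :: l1, .both, by simp [okTy], rfl, ?_, h2⟩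
    intro α h
    rcases List.mem_cons.1 h with h | h
    · rw [h]; exact hR
    rcases List.mem_cons.1 h with h | h
    · rw [h]; exact hL
    · exact h1 α h

theorem attach_flatten_perm (n : ℕ) (ty : Ty) (F : Fo) (h : okTy ty F) :
    (attach n ty F).flatten.Perm (n :: F.flatten) := by
  match ty, F, h with
  | .leaf, F, _ => simp [attach]
  | .left, X :: r, _ =>
    simp only [attach, List.flatten_cons]
    rw [List.append_assoc]
    exact List.perm_middle
  | .right, X :: r, _ => simp [attach]
  | .both, Y :: X :: r, _ =>
    simp only [attach, List.flatten_cons]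
    rw [List.append_assoc, List.cons_append]
    refine List.perm_middle.trans (List.Perm.cons _ ?_)
    rw [← List.append_assoc, ← List.append_assoc]
    exact List.Perm.append_right _ List.perm_append_comm
  | .both, [X], h => simp [okTy] at h

theorem rho_attach (n : ℕ) (ty : Ty) (F : Fo) (h : okTy ty F)
    (hlt : ∀ x ∈ F.flatten, x < n) : rho (attach n ty F) = rho F ++ [n] := by
  match ty, F, h with
  | .leaf, F, _ =>
    have : ss [n] = [n] := by
      have := ss_split [] [] n (by simp) (by simp)
      simpa [ss_nil] using this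
    simp [attach, rho, this]
  | .left, X :: r, _ =>
    have := ss_split X [] n (fun x hx => hlt x (by simp [hx])) (by simp)
    simp [attach, rho, this, ss_nil]
  | .right, X :: r, _ =>
    have := ss_split [] X n (by simp) (fun x hx => hlt x (by simp [hx]))
    simp only [List.nil_append, ss_nil] at this
    simp [attach, rho, this]
  | .both, Y :: X :: r, _ =>
    have := ss_split X Y n (fun x hx => hlt x (by simp [hx])) (fun x hx => hlt x (by simp [hx]))
    simp [attach, rho, this]
  | .both, [X], h => simp [okTy] at h

theorem attach_rel (f : ℕ → ℕ) (n : ℕ) (ty : Ty) (F : Fo) (h : okTy ty F) :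
    attach (f n) ty (rel f F) = rel f (attach n ty F) := by
  match ty, F, h with
  | .leaf, F, _ => simp [attach, rel]
  | .left, X :: r, _ => simp [attach, rel]
  | .right, X :: r, _ => simp [attach, rel]
  | .both, Y :: X :: r, _ => simp [attach, rel]
  | .both, [X], h => simp [okTy] at h

theorem okTy_rel (f : ℕ → ℕ) (ty : Ty) (F : Fo) : okTy ty (rel f F) ↔ okTy ty F := by
  cases ty <;> simp [okTy, rel]

/-- length of the forest after attaching, expressed additively -/
theorem length_attach (n : ℕ) (ty : Ty) (F : Fo) (h : okTy ty F) :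
    (ty = .leaf ∧ (attach n ty F).length = F.length + 1) ∨
    ((ty = .left ∨ ty = .right) ∧ (attach n ty F).length = F.length) ∨
    (ty = .both ∧ (attach n ty F).length + 1 = F.length) := by
  match ty, F, h with
  | .leaf, F, _ => simp [attach]
  | .left, X :: r, _ => simp [attach]
  | .right, X :: r, _ => simp [attach]
  | .both, Y :: X :: r, _ => simp [attach]
  | .both, [X], h => simp [okTy] at h

/-- Valid forests: standard letters, nonempty words, 2-stack-sortable. -/
structure Valid (F : Fo) : Prop where
  ne : ∀ α ∈ F, α ≠ []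
  nonempty : F ≠ []
  std : F.flatten.Perm (List.range (sz F))
  av : Av (up F)

theorem Valid.nodup {F : Fo} (h : Valid F) : F.flatten.Nodup :=
  h.std.nodup_iff.2 List.nodup_range

theorem flatten_ne_nil {F : Fo} (hne : ∀ α ∈ F, α ≠ []) (h : F ≠ []) : F.flatten ≠ [] := by
  match F, h with
  | α :: r, _ =>
    have := hne α (by simp)
    simp [this]

theorem perm_range_of {w : List ℕ} (h : w.Nodup) (hlt : ∀ x ∈ w, x < w.length) :
    w.Perm (List.range w.length) := by
  have h1 : w ⊆ List.range w.length := fun x hx => List.mem_range.2 (hlt x hx)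
  exact (h.subperm h1).perm_of_length_le (by simp)

/-- relabelling maps used for interleaving -/
def phi1 (k h : ℕ) (j : ℕ) : ℕ := if j < k - 1 then j else j + h
def phi2 (k h : ℕ) (j : ℕ) : ℕ := if j < h then j + (k - 1) else j + k
def psi1 (k h : ℕ) (x : ℕ) : ℕ := if x < k - 1 then x else x - h
def psi2 (k h : ℕ) (x : ℕ) : ℕ := if x < k - 1 + h then x - (k - 1) else x - k

theorem phi1_mono (k h : ℕ) : StrictMono (phi1 k h) := by
  intro a b hab
  simp only [phi1]
  split_ifs <;> omega

theorem phi2_mono (k h : ℕ) : StrictMono (phi2 k h) := by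
  intro a b hab
  simp only [phi2]
  split_ifs <;> omega

theorem split_at (a : ℕ) (V : List ℕ) (hV : ∀ y ∈ V, y ≠ a)
    (hs : ∀ y z : ℕ, List.Sublist [y, z] V → z < a → a < y → False) :
    ∃ V1 V2 : List ℕ, V = V1 ++ V2 ∧ (∀ x ∈ V1, x < a) ∧ (∀ x ∈ V2, a < x) := by
  induction V with
  | nil => exact ⟨[], [], by simp⟩
  | cons x V ih =>
    by_cases hx : x < a
    · obtain ⟨V1, V2, h1, h2, h3⟩ := ih (fun y hy => hV y (by simp [hy]))
        (fun y z hyz => hs y z (hyz.cons x))
      refine ⟨x :: V1, V2, by simp [h1], ?_, h3⟩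
      intro y hy
      rcases List.mem_cons.1 hy with h | h
      · rw [h]; exact hx
      · exact h2 y h
    · refine ⟨[], x :: V, by simp, by simp, ?_⟩
      have hxa : a < x := by
        have := hV x (by simp)
        omega
      intro y hy
      rcases List.mem_cons.1 hy with h | h
      · rw [h]; exact hxa
      · by_contra hcon
        have h1 := hV y (by simp [h])
        refine hs x y ?_ (by omega) hxa
        exact List.Sublist.cons_cons x (List.singleton_sublist.2 h)

/-- the key structural lemma: two nonempty parts. -/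
theorem two_parts (F1 F2 : Fo) (n : ℕ) (h1 : F1 ≠ []) (_h2 : F2 ≠ [])
    (hne1 : ∀ α ∈ F1, α ≠ []) (hne2 : ∀ α ∈ F2, α ≠ [])
    (hperm : (F1.flatten ++ F2.flatten).Perm (List.range n))
    (hav : Av (up F1 ++ up F2)) :
    ∃ (h : ℕ) (G1 G2 : Fo), Valid G1 ∧ Valid G2 ∧ sz G1 + sz G2 = n ∧
      F1 = rel (phi1 (sz G1) h) G1 ∧ F2 = rel (phi2 (sz G1) h) G2 ∧
      h ≤ sz G2 ∧
      (∀ x ∈ (up G2).take h, ∀ y ∈ (up G2).drop h, x < y) ∧
      kap (up F1 ++ up F2) = kap (up G1) + kap ((up G2).drop h) := by
  have hnd : (F1.flatten ++ F2.flatten).Nodup := hperm.nodup_iff.2 List.nodup_range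
  have hnd' := List.nodup_append.1 hnd
  have hnd1 : F1.flatten.Nodup := hnd'.1
  have hnd2 : F2.flatten.Nodup := hnd'.2.1
  have hdisj := hnd'.2.2
  -- U = U' ++ [a]
  have hρne : rho F1 ≠ [] := by
    intro h
    have := (rho_perm F1 hnd1).length_eq
    rw [h] at this
    have h3 := flatten_ne_nil hne1 h1
    apply h3
    exact List.length_eq_zero_iff.1 this.symm
  obtain ⟨L, a, R, hρ, hL, hR⟩ := exists_split (rho F1) hρne (rho_nodup F1 hnd1)
  obtain ⟨U', hU', hU'a⟩ : ∃ U' : List ℕ, up F1 = U' ++ [a] ∧ ∀ x ∈ U', x < a := by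
    refine ⟨ss L ++ ss R, ?_, ?_⟩
    · rw [up, hρ, ss_split L R a hL hR]
    · have hn3 := rho_nodup F1 hnd1
      rw [hρ] at hn3
      have hnL : L.Nodup := (List.nodup_append.1 hn3).1
      have hnR : R.Nodup := (List.nodup_cons.1 (List.nodup_append.1 hn3).2.1).2
      intro x hx
      rcases List.mem_append.1 hx with h | h
      · exact hL x ((ss_mem hnL).1 h)
      · exact hR x ((ss_mem hnR).1 h)
  set V := up F2 with hVdef
  have hmemU : ∀ x, x ∈ U' ++ [a] ↔ x ∈ F1.flatten := fun x => by
    rw [← hU']; exact mem_up hnd1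
  have hmemV : ∀ x, x ∈ V ↔ x ∈ F2.flatten := fun x => mem_up hnd2
  have hUV : ∀ x ∈ U' ++ [a], ∀ y ∈ V, x ≠ y := fun x hx y hy =>
    hdisj x ((hmemU x).1 hx) y ((hmemV y).1 hy)
  rw [hU'] at hav
  -- U' < V
  have hU'V : ∀ u ∈ U', ∀ z ∈ V, u < z := by
    intro u hu z hz
    by_contra hcon
    have hne : u ≠ z := hUV u (by simp [hu]) z hz
    refine hav z u a ?_ (by omega) (hU'a u hu)
    have s1 : List.Sublist [u] U' := List.singleton_sublist.2 hu
    have s2 : List.Sublist [z] V := List.singleton_sublist.2 hz
    have := (s1.append (List.Sublist.refl [a])).append s2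
    simpa using this
  obtain ⟨V1, V2, hV12, hV1, hV2⟩ := split_at a V (fun y hy => (hUV a (by simp) y hy).symm) (by
    intro y z hyz hz hy
    refine hav z a y ?_ hz hy
    have s1 : List.Sublist [a] (U' ++ [a]) := List.sublist_append_right _ _
    have := s1.append hyz
    simpa using this)
  -- sizes
  have hlenU : (U' ++ [a]).length = sz F1 := by rw [← hU']; exact length_up hnd1
  have hlenV : V.length = sz F2 := length_up hnd2
  have hallperm : (U' ++ [a] ++ V).Perm (List.range n) := by
    rw [← hU']
    exact ((up_perm F1 hnd1).append (up_perm F2 hnd2)).trans hperm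
  have hallnd : (U' ++ [a] ++ V).Nodup := hallperm.nodup_iff.2 List.nodup_range
  have hmem_all : ∀ z, z < n → z ∈ U' ∨ z = a ∨ z ∈ V1 ∨ z ∈ V2 := by
    intro z hz
    have : z ∈ U' ++ [a] ++ V := hallperm.mem_iff.2 (List.mem_range.2 hz)
    rw [hV12] at this
    simp only [List.mem_append, List.mem_singleton] at this
    tauto
  have hlt_all : ∀ z, z ∈ U' ++ [a] ++ V → z < n := fun z hz =>
    List.mem_range.1 (hallperm.mem_iff.1 hz)
  -- bounds from counting
  have hcard : ∀ (w : List ℕ) (b : ℕ), w.Nodup → (∀ z, z < b → z ∈ w) → b ≤ w.length := by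
    intro w b hw hb
    have : List.range b ⊆ w := fun z hz => hb z (List.mem_range.1 hz)
    have := (List.nodup_range.subperm this).length_le
    simpa using this
  have hcard' : ∀ (w : List ℕ) (b : ℕ), w.Nodup → (∀ z ∈ w, z < b) → w.length ≤ b := by
    intro w b hw hb
    have : w ⊆ List.range b := fun z hz => List.mem_range.2 (hb z hz)
    have := (hw.subperm this).length_le
    simpa using this
  have hndU' : U'.Nodup := by
    rw [List.append_assoc] at hallnd
    exact (List.nodup_append.1 hallnd).1
  have hndV : V.Nodup := up_nodup F2 hnd2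
  have hndV1 : V1.Nodup := by rw [hV12] at hndV; exact (List.nodup_append.1 hndV).1
  have hndUV1 : (U' ++ V1).Nodup := by
    refine List.nodup_append.2 ⟨hndU', hndV1, ?_⟩
    intro x hx y hy
    have := hU'V x hx y (by rw [hV12]; simp [hy])
    omega
  have hndUV1a : (a :: (U' ++ V1)).Nodup := by
    refine List.nodup_cons.2 ⟨?_, hndUV1⟩
    intro h
    rcases List.mem_append.1 h with h | h
    · have := hU'a a h; omega
    · have := hV1 a h; omega
  have hV1V : ∀ x ∈ V1, x ∈ V := fun x hx => by rw [hV12]; simp [hx]
  have hV2V : ∀ x ∈ V2, x ∈ V := fun x hx => by rw [hV12]; simp [hx]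
  set k := sz F1 with hk
  set h := V1.length with hh
  have hkU : U'.length = k - 1 ∧ 1 ≤ k := by
    have := hlenU
    simp only [List.length_append, List.length_singleton] at this
    omega
  have bU' : ∀ x ∈ U', x < k - 1 := by
    intro x hx
    have hxn : x < n := hlt_all x (by simp [hx])
    have := hcard U' (x + 1) hndU' (by
      intro z hz
      rcases hmem_all z (by omega) with h | h | h | h
      · exact h
      · have := hU'a x hx; omega
      · have := hU'V x hx z (hV1V z h); omega
      · have := hU'V x hx z (hV2V z h); omega)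
    omega
  have bV1 : ∀ x ∈ V1, k - 1 ≤ x ∧ x < k - 1 + h := by
    intro x hx
    have hxn : x < n := hlt_all x (by simp [hV1V x hx])
    constructor
    · have := hcard' U' x hndU' (fun z hz => hU'V z hz x (hV1V x hx))
      omega
    · have := hcard (U' ++ V1) (x + 1) hndUV1 (by
        intro z hz
        rcases hmem_all z (by omega) with h | h | h | h
        · simp [h]
        · have := hV1 x hx; omega
        · simp [h]
        · have := hV1 x hx; have := hV2 z h; omega)
      rw [List.length_append] at this
      omega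
  have ba : a = k - 1 + h := by
    have hxn : a < n := hlt_all a (by simp)
    have e1 := hcard' (U' ++ V1) a hndUV1 (by
      intro z hz
      rcases List.mem_append.1 hz with h | h
      · exact hU'a z h
      · exact hV1 z h)
    have e2 := hcard (U' ++ V1) a hndUV1 (by
        intro z hz
        rcases hmem_all z (by omega) with h | h | h | h
        · simp [h]
        · omega
        · simp [h]
        · have := hV2 z h; omega)
    rw [List.length_append] at e1 e2
    omega
  have bV2 : ∀ x ∈ V2, k + h ≤ x := by
    intro x hx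
    have := hcard' (a :: (U' ++ V1)) x hndUV1a (by
      intro z hz
      rcases List.mem_cons.1 hz with h | h
      · rw [h]; exact hV2 x hx
      rcases List.mem_append.1 h with h | h
      · exact hU'V z h x (hV2V x hx)
      · have := hV1 z h; have := hV2 x hx; omega)
    rw [List.length_cons, List.length_append] at this
    omega
  have hF1mem : ∀ x ∈ F1.flatten, x < k - 1 ∨ x = k - 1 + h := by
    intro x hx
    rcases List.mem_append.1 ((hmemU x).2 hx) with h | h
    · exact Or.inl (bU' x h)
    · rw [List.mem_singleton] at h; right; omega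
  have hF2mem : ∀ x ∈ F2.flatten, (k - 1 ≤ x ∧ x < k - 1 + h) ∨ (k + h ≤ x ∧ x < n) := by
    intro x hx
    have hxV := (hmemV x).2 hx
    have hxn : x < n := hlt_all x (by simp [hxV])
    rw [hV12] at hxV
    rcases List.mem_append.1 hxV with h | h
    · exact Or.inl (bV1 x h)
    · exact Or.inr ⟨bV2 x h, hxn⟩
  have hn : sz F1 + sz F2 = n := by
    have := hperm.length_eq
    rw [List.length_append, List.length_range] at this
    exact this
  -- define G1, G2
  set G1 := rel (psi1 k h) F1 with hG1
  set G2 := rel (psi2 k h) F2 with hG2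
  have e1 : rel (phi1 k h) G1 = F1 := by
    apply rel_rel
    intro x hx
    have := hF1mem x hx
    simp only [psi1, phi1]
    split_ifs <;> omega
  have e2 : rel (phi2 k h) G2 = F2 := by
    apply rel_rel
    intro x hx
    have := hF2mem x hx
    have := hkU.2
    simp only [psi2, phi2]
    split_ifs <;> omega
  have s1 : sz G1 = k := sz_rel _ _
  have s2 : sz G2 = sz F2 := sz_rel _ _
  have ndG1 : G1.flatten.Nodup := by
    have : (G1.flatten.map (phi1 k h)).Nodup := by rw [← rel_flatten, e1]; exact hnd1
    exact List.Nodup.of_map _ this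
  have ndG2 : G2.flatten.Nodup := by
    have : (G2.flatten.map (phi2 k h)).Nodup := by rw [← rel_flatten, e2]; exact hnd2
    exact List.Nodup.of_map _ this
  have u1 : up F1 = (up G1).map (phi1 k h) := by
    rw [← up_rel (phi1_mono k h) G1 ndG1, e1]
  have u2 : V = (up G2).map (phi2 k h) := by
    rw [← up_rel (phi2_mono k h) G2 ndG2, e2]
  have vG1 : Valid G1 := by
    refine ⟨?_, ?_, ?_, ?_⟩
    · intro α hα
      obtain ⟨β, hβ, rfl⟩ := List.mem_map.1 hα
      have := hne1 β hβ
      simpa using this
    · simpa [hG1, rel] using h1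
    · have := perm_range_of ndG1 (by
        intro x hx
        have hs1 : G1.flatten.length = k := s1
        rw [hs1]
        rw [hG1, rel_flatten] at hx
        obtain ⟨z, hz, rfl⟩ := List.mem_map.1 hx
        have := hkU.2
        rcases hF1mem z hz with h' | h'
        · simp only [psi1, h', if_true]; omega
        · simp only [psi1]
          rw [if_neg (by omega : ¬ z < k - 1)]
          omega)
      exact this
    · have : Av ((up G1).map (phi1 k h)) := by
        rw [← u1, hU']
        exact hav.of_sublist (List.sublist_append_left _ _)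
      exact (av_map (phi1_mono k h)).1 this
  have vG2 : Valid G2 := by
    refine ⟨?_, ?_, ?_, ?_⟩
    · intro α hα
      obtain ⟨β, hβ, rfl⟩ := List.mem_map.1 hα
      have := hne2 β hβ
      simpa using this
    · simpa [hG2, rel] using _h2
    · have := perm_range_of ndG2 (by
        intro x hx
        have hs2 : G2.flatten.length = sz F2 := s2
        rw [hs2]
        rw [hG2, rel_flatten] at hx
        obtain ⟨z, hz, rfl⟩ := List.mem_map.1 hx
        have := hkU.2
        have hhle : h ≤ sz F2 := by
          rw [← hlenV, hV12, List.length_append]; omega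
        rcases hF2mem z hz with h' | h'
        · simp only [psi2]
          rw [if_pos (by omega : z < k - 1 + h)]
          omega
        · simp only [psi2]
          rw [if_neg (by omega : ¬ z < k - 1 + h)]
          omega)
      exact this
    · have : Av ((up G2).map (phi2 k h)) := by
        rw [← u2]
        exact hav.of_sublist (List.sublist_append_right _ _)
      exact (av_map (phi2_mono k h)).1 this
  have hdropV : V.drop h = V2 := by rw [hV12]; simp [hh]
  have htakeV : V.take h = V1 := by rw [hV12]; simp [hh]
  refine ⟨h, G1, G2, vG1, vG2, ?_, ?_, ?_, ?_, ?_, ?_⟩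
  · rw [s1, s2]; exact hn
  · rw [s1]; exact e1.symm
  · rw [s1]; exact e2.symm
  · rw [s2, ← hlenV, hV12, List.length_append]; omega
  · intro x hx y hy
    have hx' : phi2 k h x ∈ V1 := by
      rw [← htakeV, u2, ← List.map_take]; exact List.mem_map_of_mem hx
    have hy' : phi2 k h y ∈ V2 := by
      rw [← hdropV, u2, ← List.map_drop]; exact List.mem_map_of_mem hy
    have h3 := hV1 _ hx'
    have h4 := hV2 _ hy'
    exact (phi2_mono k h).lt_iff_lt.1 (by omega)
  · have c1 : kap (up G1) = kap (U' ++ [a]) := by
      rw [← hU', u1, kap_map (phi1_mono k h)]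
    have c2 : kap ((up G2).drop h) = kap V2 := by
      rw [← kap_map (phi2_mono k h), List.map_drop, ← u2, hdropV]
    rw [c1, c2, hU', hV12]
    have r1 : U' ++ [a] ++ (V1 ++ V2) = U' ++ ((a :: V1) ++ V2) := by simp
    rw [r1, kap_append U', kap_append (a :: V1), kap_cons_max a V1 hV1, kap_append U' [a],
      kap_singleton]
    · ring
    · intro x hx y hy
      rw [List.mem_singleton] at hy
      rw [hy]; exact hU'a x hx
    · intro x hx y hy
      have := hV2 y hy
      rcases List.mem_cons.1 hx with h | h
      · rw [h]; exact this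
      · have := hV1 x h; omega
    · intro x hx y hy
      rcases List.mem_append.1 hy with h | h
      · rcases List.mem_cons.1 h with h | h
        · rw [h]; exact hU'a x hx
        · exact hU'V x hx y (hV1V y h)
      · exact hU'V x hx y (hV2V y h)

end Pool.Agent.H48
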