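import Pool.Agent.H74.NB.Dec

/-!
# GB: the rescaling by the Taylor coefficients

`Obj 𝒰 Φ w (M + 1) G r`: the functions `Φ n`, without zeros, converge to `(z - w) ^ (M + 1) • G z`.  `ℓ` is a linear form with `ℓ (G w) = 1`,
`π v = v - ℓ v • G w`.  There are `c n → w` (zeros of `ℓ ∘ Φ n`) and `lam n → 0`, `lam n > 0`, such that on all of `ℂ`
* `ℓ (Φ n (c n + lam n u)) / lam n ^ (M + 1)` converges to a monic polynomial `P` of degree `M + 1`, with `P 0 = 0`;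
* `π (Φ n (c n + lam n u)) / lam n ^ (M + 2)` converges to a vector `N` of polynomials with leading term `u ^ (M + 2) • π (G' w)`;
and the lower coefficients of `(P, N)` are not all zero.
-/

set_option autoImplicit false
set_option linter.unusedSectionVars false

open Topology Filter Metric

namespace Pool.Agent.H48.GB

open Pool.Agent.H74.NB

variable {E : Type*} [NormedAddCommGroup E] [NormedSpace ℂ E] [CompleteSpace E] {𝒰 : Ultrafilter ℕ}

/-- **The rescaling by the Taylor coefficients, with the neck.** -/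
theorem scale_neck [ProperSpace E] {Φ : ℕ → ℂ → E} {w : ℂ} {M : ℕ} {G : ℂ → E} {r : ℝ} (h : Obj 𝒰 Φ w (M + 1) G r) (ℓ : E →L[ℂ] ℂ)
    (hℓ : ℓ (G w) = 1) :
    ∃ (c : ℕ → ℂ) (lam : ℕ → ℝ) (a : ℕ → ℂ) (A : ℕ → E), Tendsto c 𝒰 (𝓝 w) ∧ (∀ᶠ n in (𝒰 : Filter ℕ), 0 < lam n) ∧ Tendsto lam 𝒰 (𝓝 0) ∧
      a 0 = 0 ∧ (∀ j, ℓ (A j) = 0) ∧
      CC 𝒰 (fun n u => ((lam n : ℂ) ^ (M + 1))⁻¹ * ℓ (Φ n (c n + lam n * u)))
        (fun u => ∑ j ∈ Finset.range (M + 1), u ^ j * a j + u ^ (M + 1)) Set.univ ∧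
      CC 𝒰 (fun n u => ((lam n : ℂ) ^ (M + 2))⁻¹ • (Φ n (c n + lam n * u) - ℓ (Φ n (c n + lam n * u)) • G w))
        (fun u => ∑ j ∈ Finset.range (M + 2), u ^ j • A j + u ^ (M + 2) • (deriv G w - ℓ (deriv G w) • G w)) Set.univ ∧
      (¬ ((∀ j ∈ Finset.range (M + 1), a j = 0) ∧ ∀ j ∈ Finset.range (M + 2), A j = 0)) ∧
      (∀ᶠ n in (𝒰 : Filter ℕ), ℓ (Φ n (c n)) = 0) ∧
      ∀ ε : ℝ, 0 < ε → ∃ R δ : ℝ, 1 ≤ R ∧ 0 < δ ∧ ∀ᶠ n in (𝒰 : Filter ℕ), ∀ u : ℂ, R * lam n ≤ ‖u‖ → ‖u‖ ≤ δ → c n + u ∈ ball w r ∧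
        ‖ℓ (Φ n (c n + u)) - u ^ (M + 1)‖ ≤ ε * ‖u‖ ^ (M + 1) ∧
        ‖(Φ n (c n + u) - ℓ (Φ n (c n + u)) • G w) - u ^ (M + 2) • (deriv G w - ℓ (deriv G w) • G w)‖ ≤ ε * ‖u‖ ^ (M + 2) := by
  have hcomp : ∀ {F : ℕ → ℂ → E} {f : ℂ → E} {Ω : Set ℂ}, CC 𝒰 F f Ω → CC 𝒰 (fun n z => ℓ (F n z)) (fun z => ℓ (f z)) Ω := by
    intro F f Ω hc z₀ hz₀ z hz
    exact (ℓ.continuous.tendsto _).comp (hc z₀ hz₀ z hz)
  have hwr : ball w r ∈ 𝓝 w := ball_mem_nhds w h.pos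
  have hGd : DifferentiableAt ℂ G w := h.holG.differentiableAt hwr
  -- the centre
  obtain ⟨c, hc1, hc2⟩ : ∃ c : ℕ → ℂ, Tendsto c 𝒰 (𝓝 w) ∧ ∀ᶠ n in (𝒰 : Filter ℕ), ℓ (Φ n (c n)) = 0 := by
    refine exists_zero h.pos (h := fun n z => ℓ (Φ n z)) (ψ := fun z => ℓ ((z - w) ^ (M + 1) • G z)) ?_ ?_ (hcomp h.cc) (by simp) ?_
    · exact h.hol.mono fun n hn => ℓ.differentiable.comp_differentiableOn hn
    · exact ℓ.differentiable.comp_differentiableOn (DifferentiableOn.smul (by fun_prop) h.holG)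
    · have h1 : ∀ᶠ z in 𝓝[≠] w, z ≠ w ∧ ℓ (G z) ≠ 0 :=
        (eventually_mem_nhdsWithin.mono fun z hz => hz).and (nhdsWithin_le_nhds
          ((ℓ.continuous.continuousAt.comp (h.holG.continuousOn.continuousAt hwr)).eventually_ne (by
            rw [Function.comp_apply, hℓ]; exact one_ne_zero)))
      have h2 : ∀ᶠ z in 𝓝[≠] w, ℓ ((z - w) ^ (M + 1) • G z) ≠ 0 := h1.mono fun z hz => by
        rw [map_smul, smul_eq_mul]
        exact mul_ne_zero (pow_ne_zero _ (sub_ne_zero.2 hz.1)) hz.2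
      exact h2.frequently.filter_mono nhdsWithin_le_nhds
  -- the Taylor coefficients
  have hit := cc_it h.pos (a := fun _ => c) (fun _ => hc1) h.hol h.holG h.cc
  set C : ℕ → ℕ → E := fun j n => it (Φ n) (fun _ => c n) j (c n) with hCdef
  have hC0 : ∀ j ∈ Finset.range (M + 1), Tendsto (C j) 𝒰 (𝓝 0) := by
    intro j hj
    have hj' := Finset.mem_range.1 hj
    obtain ⟨k, hk⟩ : ∃ k, j + (k + 1) = M + 1 := ⟨M - j, by omega⟩
    have h1 := (hit j (k + 1) hk).2 w (mem_ball_self h.pos) c hc1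
    simpa using h1
  have hS : CC 𝒰 (fun n => it (Φ n) (fun _ => c n) (M + 1)) G (ball w r) :=
    ((hit (M + 1) 0 (by omega)).2).congr fun z _ => by simp
  have hC1 : Tendsto (C (M + 1)) 𝒰 (𝓝 (G w)) := hS w (mem_ball_self h.pos) c hc1
  have hT : CC 𝒰 (fun n => it (Φ n) (fun _ => c n) (M + 2)) (_root_.dslope G w) (ball w r) :=
    CC.dslope (hit (M + 1) 0 (by omega)).1 h.holG hS hc1
  have hπ0 : ∀ j ∈ Finset.range (M + 2), Tendsto (fun n => C j n - ℓ (C j n) • G w) 𝒰 (𝓝 0) := by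
    intro j hj
    rcases Nat.lt_or_ge j (M + 1) with hj1 | hj1
    · have h1 := hC0 j (Finset.mem_range.2 hj1)
      have h2 := h1.sub (((ℓ.continuous.tendsto _).comp h1).smul_const (G w))
      simpa using h2
    · have hj2 : j = M + 1 := by
        have := Finset.mem_range.1 hj
        omega
      subst hj2
      have h2 := hC1.sub (((ℓ.continuous.tendsto _).comp hC1).smul_const (G w))
      simpa [hℓ] using h2
  -- the radius
  set lam : ℕ → ℝ := fun n => ∑ j ∈ Finset.range (M + 1), ‖ℓ (C j n)‖ ^ (((M + 1 - j : ℕ) : ℝ)⁻¹) +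
    ∑ j ∈ Finset.range (M + 2), ‖C j n - ℓ (C j n) • G w‖ ^ (((M + 2 - j : ℕ) : ℝ)⁻¹) with hlamdef
  have hlam0 : ∀ n, 0 ≤ lam n := fun n => add_nonneg (Finset.sum_nonneg fun i _ => Real.rpow_nonneg (norm_nonneg _) _)
    (Finset.sum_nonneg fun j _ => Real.rpow_nonneg (norm_nonneg _) _)
  have hle1 : ∀ n, ∀ j ∈ Finset.range (M + 1), ‖ℓ (C j n)‖ ^ (((M + 1 - j : ℕ) : ℝ)⁻¹) ≤ lam n := fun n i hi =>
    (Finset.single_le_sum (f := fun j => ‖ℓ (C j n)‖ ^ (((M + 1 - j : ℕ) : ℝ)⁻¹)) (fun i _ => Real.rpow_nonneg (norm_nonneg _) _) hi).trans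
      (le_add_of_nonneg_right (Finset.sum_nonneg fun j _ => Real.rpow_nonneg (norm_nonneg _) _))
  have hle2 : ∀ n, ∀ j ∈ Finset.range (M + 2), ‖C j n - ℓ (C j n) • G w‖ ^ (((M + 2 - j : ℕ) : ℝ)⁻¹) ≤ lam n := fun n j hj =>
    (Finset.single_le_sum (f := fun j => ‖C j n - ℓ (C j n) • G w‖ ^ (((M + 2 - j : ℕ) : ℝ)⁻¹))
      (fun j _ => Real.rpow_nonneg (norm_nonneg _) _) hj).trans
      (le_add_of_nonneg_left (Finset.sum_nonneg fun j _ => Real.rpow_nonneg (norm_nonneg _) _))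
  have hpow : ∀ (k : ℕ) (x : ℝ) (j : ℕ), j ∈ Finset.range k → 0 ≤ x → (x ^ (((k - j : ℕ) : ℝ)⁻¹)) ^ (k - j) = x := by
    intro k x j hj hx
    have : k - j ≠ 0 := by
      have := Finset.mem_range.1 hj
      omega
    exact Real.rpow_inv_natCast_pow hx this
  have hinv : ∀ (k j : ℕ), j ∈ Finset.range k → (0 : ℝ) < ((k - j : ℕ) : ℝ)⁻¹ := by
    intro k j hj
    have := Finset.mem_range.1 hj
    have h4 : 0 < k - j := by omega
    positivity
  have hlamt : Tendsto lam 𝒰 (𝓝 0) := by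
    have h1 : Tendsto (fun n => ∑ j ∈ Finset.range (M + 1), ‖ℓ (C j n)‖ ^ (((M + 1 - j : ℕ) : ℝ)⁻¹)) 𝒰 (𝓝 0) := by
      have : (0 : ℝ) = ∑ j ∈ Finset.range (M + 1), (0 : ℝ) := by simp
      rw [this]
      refine tendsto_finsetSum _ fun j hj => ?_
      have h3 := hinv (M + 1) j hj
      have h5 : Tendsto (fun n => ℓ (C j n)) 𝒰 (𝓝 0) := by
        have := (ℓ.continuous.tendsto _).comp (hC0 j hj)
        rw [map_zero] at this
        exact this
      have h4 := (h5.norm).rpow_const (p := ((M + 1 - j : ℕ) : ℝ)⁻¹) (Or.inr h3.le)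
      rw [norm_zero, Real.zero_rpow h3.ne'] at h4
      exact h4
    have h2 : Tendsto (fun n => ∑ j ∈ Finset.range (M + 2), ‖C j n - ℓ (C j n) • G w‖ ^ (((M + 2 - j : ℕ) : ℝ)⁻¹)) 𝒰 (𝓝 0) := by
      have : (0 : ℝ) = ∑ j ∈ Finset.range (M + 2), (0 : ℝ) := by simp
      rw [this]
      refine tendsto_finsetSum _ fun j hj => ?_
      have h3 := hinv (M + 2) j hj
      have h4 := ((hπ0 j hj).norm).rpow_const (p := ((M + 2 - j : ℕ) : ℝ)⁻¹) (Or.inr h3.le)
      rw [norm_zero, Real.zero_rpow h3.ne'] at h4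
      exact h4
    have := h1.add h2
    rw [add_zero] at this
    exact this
  have hcm : ∀ᶠ n in (𝒰 : Filter ℕ), c n ∈ ball w r := hc1.eventually (ball_mem_nhds w h.pos)
  have hlamp : ∀ᶠ n in (𝒰 : Filter ℕ), 0 < lam n := by
    filter_upwards [hcm, h.nz, hc2] with n h1 h3 h9
    refine lt_of_le_of_ne (hlam0 n) fun h4 => ?_
    have h6 := hle2 n 0 (by simp)
    rw [← h4] at h6
    have h7 : ‖C 0 n - ℓ (C 0 n) • G w‖ ^ (((M + 2 - 0 : ℕ) : ℝ)⁻¹) = 0 := le_antisymm h6 (Real.rpow_nonneg (norm_nonneg _) _)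
    have h8 := hpow (M + 2) ‖C 0 n - ℓ (C 0 n) • G w‖ 0 (by simp) (norm_nonneg _)
    rw [h7, zero_pow (by omega)] at h8
    have h10 := norm_eq_zero.1 h8.symm
    have h11 : C 0 n = Φ n (c n) := rfl
    rw [h11, h9, zero_smul, sub_zero] at h10
    exact h3 _ h1 h10
  -- the limits of the parameters
  have hA : ∀ j ∈ Finset.range (M + 1), ∃ x : ℂ, Tendsto (fun n => ((lam n : ℂ) ^ (M + 1 - j))⁻¹ * ℓ (C j n)) 𝒰 (𝓝 x) := by
    intro j hj
    obtain ⟨y, -, hy⟩ := exists_lim (𝒰 := 𝒰) (isCompact_closedBall (0 : ℂ) 1) (x := fun n => ((lam n : ℂ) ^ (M + 1 - j))⁻¹ * ℓ (C j n)) (by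
      filter_upwards [hlamp] with n hn
      rw [mem_closedBall_zero_iff, norm_mul, norm_inv, norm_pow, Complex.norm_real, Real.norm_of_nonneg hn.le,
        inv_mul_le_iff₀ (by positivity), mul_one]
      have h1 := hle1 n j hj
      have h2 := pow_le_pow_left₀ (Real.rpow_nonneg (norm_nonneg _) _) h1 (M + 1 - j)
      rwa [hpow _ _ j hj (norm_nonneg _)] at h2)
    exact ⟨y, hy⟩
  have hB : ∀ j ∈ Finset.range (M + 2), ∃ y : E,
      Tendsto (fun n => ((lam n : ℂ) ^ (M + 2 - j))⁻¹ • (C j n - ℓ (C j n) • G w)) 𝒰 (𝓝 y) := by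
    intro j hj
    obtain ⟨y, -, hy⟩ := exists_lim (𝒰 := 𝒰) (isCompact_closedBall (0 : E) 1)
      (x := fun n => ((lam n : ℂ) ^ (M + 2 - j))⁻¹ • (C j n - ℓ (C j n) • G w)) (by
      filter_upwards [hlamp] with n hn
      rw [mem_closedBall_zero_iff, norm_smul, norm_inv, norm_pow, Complex.norm_real, Real.norm_of_nonneg hn.le,
        inv_mul_le_iff₀ (by positivity), mul_one]
      have h1 := hle2 n j hj
      have h2 := pow_le_pow_left₀ (Real.rpow_nonneg (norm_nonneg _) _) h1 (M + 2 - j)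
      rwa [hpow _ _ j hj (norm_nonneg _)] at h2)
    exact ⟨y, hy⟩
  have hA' : ∀ j : ℕ, ∃ x : ℂ, (j ∈ Finset.range (M + 1) → Tendsto (fun n => ((lam n : ℂ) ^ (M + 1 - j))⁻¹ * ℓ (C j n)) 𝒰 (𝓝 x)) ∧
      (j ∉ Finset.range (M + 1) → x = 0) := by
    intro j
    by_cases hj : j ∈ Finset.range (M + 1)
    · obtain ⟨x, hx⟩ := hA j hj
      exact ⟨x, fun _ => hx, fun h => absurd hj h⟩
    · exact ⟨0, fun h => absurd h hj, fun _ => rfl⟩
  have hB' : ∀ j : ℕ, ∃ y : E, (j ∈ Finset.range (M + 2) →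
      Tendsto (fun n => ((lam n : ℂ) ^ (M + 2 - j))⁻¹ • (C j n - ℓ (C j n) • G w)) 𝒰 (𝓝 y)) ∧ (j ∉ Finset.range (M + 2) → y = 0) := by
    intro j
    by_cases hj : j ∈ Finset.range (M + 2)
    · obtain ⟨x, hx⟩ := hB j hj
      exact ⟨x, fun _ => hx, fun h => absurd hj h⟩
    · exact ⟨0, fun h => absurd h hj, fun _ => rfl⟩
  choose a ha ha0 using hA'
  choose A hAA hAA0 using hB'
  have hone : ∑ j ∈ Finset.range (M + 1), ‖a j‖ ^ (((M + 1 - j : ℕ) : ℝ)⁻¹) + ∑ j ∈ Finset.range (M + 2), ‖A j‖ ^ (((M + 2 - j : ℕ) : ℝ)⁻¹) = 1 := by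
    have h1 : Tendsto (fun n => ∑ j ∈ Finset.range (M + 1), ‖((lam n : ℂ) ^ (M + 1 - j))⁻¹ * ℓ (C j n)‖ ^ (((M + 1 - j : ℕ) : ℝ)⁻¹) +
        ∑ j ∈ Finset.range (M + 2), ‖((lam n : ℂ) ^ (M + 2 - j))⁻¹ • (C j n - ℓ (C j n) • G w)‖ ^ (((M + 2 - j : ℕ) : ℝ)⁻¹)) 𝒰
        (𝓝 (∑ j ∈ Finset.range (M + 1), ‖a j‖ ^ (((M + 1 - j : ℕ) : ℝ)⁻¹) + ∑ j ∈ Finset.range (M + 2), ‖A j‖ ^ (((M + 2 - j : ℕ) : ℝ)⁻¹))) := by
      refine (tendsto_finsetSum _ fun j hj => ?_).add (tendsto_finsetSum _ fun j hj => ?_)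
      · exact ((ha j hj).norm).rpow_const (Or.inr (hinv _ j hj).le)
      · exact ((hAA j hj).norm).rpow_const (Or.inr (hinv _ j hj).le)
    refine tendsto_nhds_unique h1 (Tendsto.congr' ?_ tendsto_const_nhds)
    filter_upwards [hlamp] with n hn
    have h2 : ∀ j ∈ Finset.range (M + 1), ‖((lam n : ℂ) ^ (M + 1 - j))⁻¹ * ℓ (C j n)‖ ^ (((M + 1 - j : ℕ) : ℝ)⁻¹) =
        ‖ℓ (C j n)‖ ^ (((M + 1 - j : ℕ) : ℝ)⁻¹) / lam n := by
      intro j hj
      have h4 : M + 1 - j ≠ 0 := by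
        have := Finset.mem_range.1 hj
        omega
      rw [norm_mul, norm_inv, norm_pow, Complex.norm_real, Real.norm_of_nonneg hn.le, inv_mul_eq_div,
        Real.div_rpow (norm_nonneg _) (by positivity), Real.pow_rpow_inv_natCast hn.le h4]
    have h3 : ∀ j ∈ Finset.range (M + 2), ‖((lam n : ℂ) ^ (M + 2 - j))⁻¹ • (C j n - ℓ (C j n) • G w)‖ ^ (((M + 2 - j : ℕ) : ℝ)⁻¹) =
        ‖C j n - ℓ (C j n) • G w‖ ^ (((M + 2 - j : ℕ) : ℝ)⁻¹) / lam n := by
      intro j hj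
      have h4 : M + 2 - j ≠ 0 := by
        have := Finset.mem_range.1 hj
        omega
      rw [norm_smul, norm_inv, norm_pow, Complex.norm_real, Real.norm_of_nonneg hn.le, inv_mul_eq_div,
        Real.div_rpow (norm_nonneg _) (by positivity), Real.pow_rpow_inv_natCast hn.le h4]
    rw [Finset.sum_congr rfl h2, Finset.sum_congr rfl h3, ← Finset.sum_div, ← Finset.sum_div, ← add_div]
    exact (div_self hn.ne').symm
  have ha00 : a 0 = 0 := by
    refine tendsto_nhds_unique (ha 0 (by simp)) (Tendsto.congr' ?_ tendsto_const_nhds)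
    filter_upwards [hc2] with n hn
    have h1 : C 0 n = Φ n (c n) := rfl
    rw [h1, hn, mul_zero]
  have hℓA : ∀ j, ℓ (A j) = 0 := by
    intro j
    by_cases hj : j ∈ Finset.range (M + 2)
    · refine tendsto_nhds_unique ((ℓ.continuous.tendsto _).comp (hAA j hj)) (Tendsto.congr (fun n => ?_) tendsto_const_nhds)
      rw [Function.comp_apply, map_smul, map_sub, map_smul, hℓ, smul_eq_mul, smul_eq_mul, mul_one, sub_self, mul_zero]
    · rw [hAA0 j hj, map_zero]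
  have hxt : ∀ (ζ : ℕ → ℂ) (ζ₀ : ℂ), Tendsto ζ 𝒰 (𝓝 ζ₀) → Tendsto (fun n => c n + lam n * ζ n) 𝒰 (𝓝 w) := by
    intro ζ ζ₀ hζ
    have h1 : Tendsto (fun n => (lam n : ℂ) * ζ n) 𝒰 (𝓝 ((0 : ℂ) * ζ₀)) :=
      ((Complex.continuous_ofReal.tendsto' 0 0 (by simp)).comp hlamt).mul hζ
    have := hc1.add h1
    simpa using this
  have hnewton : ∀ (n k : ℕ) (u : ℂ), Φ n (c n + lam n * u) =
      ∑ j ∈ Finset.range k, ((lam n : ℂ) ^ j * u ^ j) • C j n + ((lam n : ℂ) ^ k * u ^ k) • it (Φ n) (fun _ => c n) k (c n + lam n * u) := by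
    intro n k u
    rw [newton (Φ n) (fun _ => c n) k (c n + lam n * u)]
    simp only [Finset.prod_const, Finset.card_range, add_sub_cancel_left, mul_pow]
    rfl
  have hsplit : ∀ (n k j : ℕ), j ≤ k → (lam n : ℂ) ≠ 0 → ((lam n : ℂ) ^ k)⁻¹ * (lam n : ℂ) ^ j = ((lam n : ℂ) ^ (k - j))⁻¹ := by
    intro n k j hj hn
    have h3 : (lam n : ℂ) ^ k = (lam n : ℂ) ^ j * (lam n : ℂ) ^ (k - j) := by
      rw [← pow_add]
      congr 1
      omega
    rw [h3]
    field_simp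
  refine ⟨c, lam, a, A, hc1, hlamp, hlamt, ha00, hℓA, ?_, ?_, ?_, hc2, ?_⟩
  · intro ζ₀ _ ζ hζ
    have hx := hxt ζ ζ₀ hζ
    have h1 : Tendsto (fun n => ∑ j ∈ Finset.range (M + 1), ζ n ^ j * (((lam n : ℂ) ^ (M + 1 - j))⁻¹ * ℓ (C j n)) +
        ζ n ^ (M + 1) * ℓ (it (Φ n) (fun _ => c n) (M + 1) (c n + lam n * ζ n))) 𝒰
        (𝓝 (∑ j ∈ Finset.range (M + 1), ζ₀ ^ j * a j + ζ₀ ^ (M + 1) * 1)) := by
      refine (tendsto_finsetSum _ fun j hj => (hζ.pow j).mul (ha j hj)).add ((hζ.pow (M + 1)).mul ?_)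
      have := (ℓ.continuous.tendsto _).comp (hS w (mem_ball_self h.pos) _ hx)
      rwa [hℓ] at this
    rw [mul_one] at h1
    refine h1.congr' ?_
    filter_upwards [hlamp] with n hn
    have hn' : (lam n : ℂ) ≠ 0 := by
      rw [Ne, Complex.ofReal_eq_zero]
      exact hn.ne'
    rw [hnewton n (M + 1) (ζ n), map_add, map_sum, mul_add, Finset.mul_sum]
    congr 1
    · refine Finset.sum_congr rfl fun j hj => ?_
      rw [map_smul, smul_eq_mul, ← hsplit n (M + 1) j (Finset.mem_range.1 hj).le hn']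
      ring
    · rw [map_smul, smul_eq_mul]
      field_simp
  · intro ζ₀ _ ζ hζ
    have hx := hxt ζ ζ₀ hζ
    have h2 : Tendsto (fun n => it (Φ n) (fun _ => c n) (M + 2) (c n + lam n * ζ n)) 𝒰 (𝓝 (deriv G w)) := by
      have := hT w (mem_ball_self h.pos) _ hx
      rwa [dslope_same] at this
    have h1 : Tendsto (fun n => ∑ j ∈ Finset.range (M + 2), ζ n ^ j • (((lam n : ℂ) ^ (M + 2 - j))⁻¹ • (C j n - ℓ (C j n) • G w)) +
        ζ n ^ (M + 2) • (it (Φ n) (fun _ => c n) (M + 2) (c n + lam n * ζ n) -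
          ℓ (it (Φ n) (fun _ => c n) (M + 2) (c n + lam n * ζ n)) • G w)) 𝒰
        (𝓝 (∑ j ∈ Finset.range (M + 2), ζ₀ ^ j • A j + ζ₀ ^ (M + 2) • (deriv G w - ℓ (deriv G w) • G w))) := by
      refine (tendsto_finsetSum _ fun j hj => (hζ.pow j).smul (hAA j hj)).add ((hζ.pow (M + 2)).smul ?_)
      exact h2.sub (((ℓ.continuous.tendsto _).comp h2).smul_const (G w))
    refine h1.congr' ?_
    filter_upwards [hlamp] with n hn
    have hn' : (lam n : ℂ) ≠ 0 := by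
      rw [Ne, Complex.ofReal_eq_zero]
      exact hn.ne'
    have h3 : ∀ v : E, ∀ t : ℂ, (t • v - ℓ (t • v) • G w) = t • (v - ℓ v • G w) := by
      intro v t
      rw [map_smul, smul_eq_mul, smul_sub, smul_smul]
    have h4 : Φ n (c n + lam n * ζ n) - ℓ (Φ n (c n + lam n * ζ n)) • G w =
        ∑ j ∈ Finset.range (M + 2), ((lam n : ℂ) ^ j * ζ n ^ j) • (C j n - ℓ (C j n) • G w) +
        ((lam n : ℂ) ^ (M + 2) * ζ n ^ (M + 2)) • (it (Φ n) (fun _ => c n) (M + 2) (c n + lam n * ζ n) -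
          ℓ (it (Φ n) (fun _ => c n) (M + 2) (c n + lam n * ζ n)) • G w) := by
      rw [hnewton n (M + 2) (ζ n), map_add, map_sum, add_smul, Finset.sum_smul, add_sub_add_comm, ← Finset.sum_sub_distrib, h3]
      congr 1
      exact Finset.sum_congr rfl fun j _ => h3 _ _
    rw [h4, smul_add, Finset.smul_sum]
    congr 1
    · refine Finset.sum_congr rfl fun j hj => ?_
      rw [← hsplit n (M + 2) j (Finset.mem_range.1 hj).le hn', smul_smul, smul_smul]
      congr 1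
      ring
    · rw [smul_smul]
      congr 1
      field_simp
  · rintro ⟨h1, h2⟩
    rw [Finset.sum_eq_zero (fun j hj => by rw [h1 j hj, norm_zero, Real.zero_rpow (hinv _ j hj).ne']),
      Finset.sum_eq_zero (fun j hj => by rw [h2 j hj, norm_zero, Real.zero_rpow (hinv _ j hj).ne'])] at hone
    norm_num at hone
  · intro ε hε
    obtain ⟨K, hK0, hK⟩ : ∃ K : ℝ, 0 < K ∧ K = ‖ℓ‖ * ‖G w‖ + 1 := ⟨‖ℓ‖ * ‖G w‖ + 1, by positivity, rfl⟩
    have hπn : ∀ v : E, ‖v - ℓ v • G w‖ ≤ K * ‖v‖ := by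
      intro v
      calc ‖v - ℓ v • G w‖ ≤ ‖v‖ + ‖ℓ v • G w‖ := norm_sub_le _ _
        _ ≤ ‖v‖ + ‖ℓ‖ * ‖v‖ * ‖G w‖ := by
          rw [norm_smul]
          gcongr
          exact ℓ.le_opNorm v
        _ = K * ‖v‖ := by rw [hK]; ring
    obtain ⟨e, he0, he1, he2⟩ : ∃ e : ℝ, 0 < e ∧ ‖ℓ‖ * e ≤ ε / 2 ∧ K * e ≤ ε / 2 := by
      refine ⟨ε / (2 * (‖ℓ‖ + K)), by positivity, ?_, ?_⟩
      · rw [mul_div_assoc', div_le_iff₀ (by positivity)]
        nlinarith [norm_nonneg ℓ]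
      · rw [mul_div_assoc', div_le_iff₀ (by positivity)]
        nlinarith [norm_nonneg ℓ]
    -- the limits are near their values at `w`
    have hds : DifferentiableOn ℂ (_root_.dslope G w) (ball w r) := (Complex.differentiableOn_dslope hwr).2 h.holG
    obtain ⟨s₀, hs₀, hs₀'⟩ : ∃ s₀, 0 < s₀ ∧ ∀ z ∈ closedBall w s₀, z ∈ ball w r ∧ ‖G z - G w‖ < e / 2 ∧
        ‖_root_.dslope G w z - deriv G w‖ < e / 2 := by
      have h1 : ∀ᶠ z in 𝓝 w, z ∈ ball w r ∧ ‖G z - G w‖ < e / 2 ∧ ‖_root_.dslope G w z - deriv G w‖ < e / 2 := by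
        have h2 : Tendsto (fun z => ‖G z - G w‖) (𝓝 w) (𝓝 0) := by
          have := ((h.holG.continuousOn.continuousAt hwr).tendsto.sub_const (G w)).norm
          simpa using this
        have h3 : Tendsto (fun z => ‖_root_.dslope G w z - deriv G w‖) (𝓝 w) (𝓝 0) := by
          have h4 := (hds.continuousOn.continuousAt hwr).tendsto
          rw [dslope_same] at h4
          have := (h4.sub_const (deriv G w)).norm
          simpa using this
        exact (Filter.Eventually.and hwr ((h2.eventually (gt_mem_nhds (by positivity))).and (h3.eventually (gt_mem_nhds (by positivity)))))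
      obtain ⟨s₁, hs₁, hs₁'⟩ := Metric.mem_nhds_iff.1 h1
      exact ⟨s₁ / 2, by positivity, fun z hz => hs₁' (closedBall_subset_ball (by linarith) hz)⟩
    have hu1 : ∀ᶠ n in (𝒰 : Filter ℕ), ∀ z ∈ closedBall w s₀, ‖it (Φ n) (fun _ => c n) (M + 1) z - G z‖ < e / 2 :=
      hS.unif h.holG.continuousOn isOpen_ball (isCompact_closedBall w s₀) (fun z hz => (hs₀' z hz).1) (by positivity)
    have hu2 : ∀ᶠ n in (𝒰 : Filter ℕ), ∀ z ∈ closedBall w s₀, ‖it (Φ n) (fun _ => c n) (M + 2) z - _root_.dslope G w z‖ < e / 2 :=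
      hT.unif hds.continuousOn isOpen_ball (isCompact_closedBall w s₀) (fun z hz => (hs₀' z hz).1) (by positivity)
    set R : ℝ := max 1 (2 * (M + 2) / ε) with hR
    have hR1 : 1 ≤ R := le_max_left _ _
    have hR0 : 0 < R := by linarith
    have hRε : (M + 2) * (1 / R) ≤ ε / 2 := by
      have h1 : 2 * ((M : ℝ) + 2) / ε ≤ R := le_max_right _ _
      rw [div_le_iff₀ hε] at h1
      rw [mul_div_assoc', div_le_iff₀ hR0]
      linarith
    refine ⟨R, s₀ / 2, hR1, by positivity, ?_⟩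
    filter_upwards [hu1, hu2, hlamp, hc1.eventually (ball_mem_nhds w (show 0 < s₀ / 2 by positivity))] with n h1 h2 h3 h4 u hu hu'
    have hz : c n + u ∈ closedBall w s₀ := by
      rw [mem_closedBall, dist_eq_norm]
      have h4' : ‖c n - w‖ < s₀ / 2 := by rwa [← dist_eq_norm]
      calc ‖c n + u - w‖ = ‖(c n - w) + u‖ := by ring_nf
        _ ≤ ‖c n - w‖ + ‖u‖ := norm_add_le _ _
        _ ≤ s₀ := by linarith
    obtain ⟨h5, h6, h7⟩ := hs₀' _ hz
    have hu0 : 0 < ‖u‖ := lt_of_lt_of_le (by positivity) hu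
    have hnw : ∀ k, Φ n (c n + u) = ∑ j ∈ Finset.range k, u ^ j • C j n + u ^ k • it (Φ n) (fun _ => c n) k (c n + u) := by
      intro k
      rw [newton (Φ n) (fun _ => c n) k (c n + u)]
      simp only [Finset.prod_const, Finset.card_range, add_sub_cancel_left]
      rfl
    have hlu : lam n ≤ ‖u‖ := le_trans (by nlinarith) hu
    have hratio : lam n / ‖u‖ ≤ 1 / R := by
      rw [div_le_div_iff₀ hu0 hR0]
      linarith
    have hterm : ∀ (k j : ℕ) (x : ℝ), j ∈ Finset.range k → 0 ≤ x → x ^ (((k - j : ℕ) : ℝ)⁻¹) ≤ lam n → ‖u‖ ^ j * x ≤ 1 / R * ‖u‖ ^ k := by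
      intro k j x hj hx hxl
      have hj' := Finset.mem_range.1 hj
      have h8 := pow_le_pow_left₀ (Real.rpow_nonneg hx _) hxl (k - j)
      rw [hpow _ _ j hj hx] at h8
      have h9 : (lam n / ‖u‖) ^ (k - j) ≤ 1 / R := by
        calc (lam n / ‖u‖) ^ (k - j) ≤ (lam n / ‖u‖) ^ 1 := by
              refine pow_le_pow_of_le_one (by positivity) ?_ (by omega)
              rw [div_le_one hu0]
              exact hlu
          _ = lam n / ‖u‖ := pow_one _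
          _ ≤ 1 / R := hratio
      calc ‖u‖ ^ j * x ≤ ‖u‖ ^ j * lam n ^ (k - j) := by gcongr
        _ = ‖u‖ ^ j * (‖u‖ ^ (k - j) * (lam n / ‖u‖) ^ (k - j)) := by
          rw [← mul_pow, mul_div_cancel₀ _ hu0.ne']
        _ = (lam n / ‖u‖) ^ (k - j) * ‖u‖ ^ (j + (k - j)) := by
          rw [pow_add]
          ring
        _ ≤ 1 / R * ‖u‖ ^ k := by
          rw [Nat.add_sub_cancel' hj'.le]
          gcongr
    refine ⟨h5, ?_, ?_⟩
    · have h8 : ℓ (Φ n (c n + u)) - u ^ (M + 1) = ∑ j ∈ Finset.range (M + 1), u ^ j * ℓ (C j n) +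
          u ^ (M + 1) * ℓ (it (Φ n) (fun _ => c n) (M + 1) (c n + u) - G w) := by
        rw [hnw (M + 1), map_add, map_sum, map_smul, map_sub, hℓ, smul_eq_mul]
        simp only [map_smul, smul_eq_mul]
        ring
      have h9 : ‖it (Φ n) (fun _ => c n) (M + 1) (c n + u) - G w‖ ≤ e := by
        have h10 := h1 _ hz
        calc ‖it (Φ n) (fun _ => c n) (M + 1) (c n + u) - G w‖ =
              ‖(it (Φ n) (fun _ => c n) (M + 1) (c n + u) - G (c n + u)) + (G (c n + u) - G w)‖ := by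
                congr 1
                abel
          _ ≤ ‖it (Φ n) (fun _ => c n) (M + 1) (c n + u) - G (c n + u)‖ + ‖G (c n + u) - G w‖ := norm_add_le _ _
          _ ≤ e := by linarith
      rw [h8]
      calc ‖∑ j ∈ Finset.range (M + 1), u ^ j * ℓ (C j n) + u ^ (M + 1) * ℓ (it (Φ n) (fun _ => c n) (M + 1) (c n + u) - G w)‖
          ≤ ‖∑ j ∈ Finset.range (M + 1), u ^ j * ℓ (C j n)‖ + ‖u ^ (M + 1) * ℓ (it (Φ n) (fun _ => c n) (M + 1) (c n + u) - G w)‖ :=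
            norm_add_le _ _
        _ ≤ ∑ j ∈ Finset.range (M + 1), 1 / R * ‖u‖ ^ (M + 1) + ‖u‖ ^ (M + 1) * (‖ℓ‖ * e) := by
            gcongr
            · refine norm_sum_le_of_le _ fun j hj => ?_
              rw [norm_mul, norm_pow]
              exact hterm (M + 1) j _ hj (norm_nonneg _) (hle1 n j hj)
            · rw [norm_mul, norm_pow]
              gcongr
              exact (ℓ.le_opNorm _).trans (mul_le_mul_of_nonneg_left h9 (norm_nonneg _))
        _ = ((M + 1) * (1 / R) + ‖ℓ‖ * e) * ‖u‖ ^ (M + 1) := by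
            rw [Finset.sum_const, Finset.card_range, nsmul_eq_mul]
            push_cast
            ring
        _ ≤ ε * ‖u‖ ^ (M + 1) := by
            gcongr
            have h11 : (0 : ℝ) ≤ 1 / R := by positivity
            nlinarith
    · have h8 : (Φ n (c n + u) - ℓ (Φ n (c n + u)) • G w) - u ^ (M + 2) • (deriv G w - ℓ (deriv G w) • G w) =
          ∑ j ∈ Finset.range (M + 2), u ^ j • (C j n - ℓ (C j n) • G w) +
          u ^ (M + 2) • ((it (Φ n) (fun _ => c n) (M + 2) (c n + u) - deriv G w) -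
            ℓ (it (Φ n) (fun _ => c n) (M + 2) (c n + u) - deriv G w) • G w) := by
        have h3' : ∀ v : E, ∀ t : ℂ, (t • v - ℓ (t • v) • G w) = t • (v - ℓ v • G w) := by
          intro v t
          rw [map_smul, smul_eq_mul, smul_sub, smul_smul]
        rw [hnw (M + 2), map_add, map_sum, add_smul, Finset.sum_smul, add_sub_add_comm, ← Finset.sum_sub_distrib, h3', add_sub_assoc,
          ← smul_sub, map_sub, sub_smul]
        congr 1
        · exact Finset.sum_congr rfl fun j _ => h3' _ _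
        · congr 1
          abel
      have h9 : ‖it (Φ n) (fun _ => c n) (M + 2) (c n + u) - deriv G w‖ ≤ e := by
        have h10 := h2 _ hz
        calc ‖it (Φ n) (fun _ => c n) (M + 2) (c n + u) - deriv G w‖ =
              ‖(it (Φ n) (fun _ => c n) (M + 2) (c n + u) - _root_.dslope G w (c n + u)) + (_root_.dslope G w (c n + u) - deriv G w)‖ := by
                congr 1
                abel
          _ ≤ ‖it (Φ n) (fun _ => c n) (M + 2) (c n + u) - _root_.dslope G w (c n + u)‖ + ‖_root_.dslope G w (c n + u) - deriv G w‖ :=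
              norm_add_le _ _
          _ ≤ e := by linarith
      rw [h8]
      calc ‖∑ j ∈ Finset.range (M + 2), u ^ j • (C j n - ℓ (C j n) • G w) +
          u ^ (M + 2) • ((it (Φ n) (fun _ => c n) (M + 2) (c n + u) - deriv G w) -
            ℓ (it (Φ n) (fun _ => c n) (M + 2) (c n + u) - deriv G w) • G w)‖
          ≤ ‖∑ j ∈ Finset.range (M + 2), u ^ j • (C j n - ℓ (C j n) • G w)‖ +
            ‖u ^ (M + 2) • ((it (Φ n) (fun _ => c n) (M + 2) (c n + u) - deriv G w) -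
            ℓ (it (Φ n) (fun _ => c n) (M + 2) (c n + u) - deriv G w) • G w)‖ := norm_add_le _ _
        _ ≤ ∑ j ∈ Finset.range (M + 2), 1 / R * ‖u‖ ^ (M + 2) + ‖u‖ ^ (M + 2) * (K * e) := by
            gcongr
            · refine norm_sum_le_of_le _ fun j hj => ?_
              rw [norm_smul, norm_pow]
              exact hterm (M + 2) j _ hj (norm_nonneg _) (hle2 n j hj)
            · rw [norm_smul, norm_pow]
              gcongr
              exact (hπn _).trans (mul_le_mul_of_nonneg_left h9 hK0.le)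
        _ = ((M + 2) * (1 / R) + K * e) * ‖u‖ ^ (M + 2) := by
            rw [Finset.sum_const, Finset.card_range, nsmul_eq_mul]
            push_cast
            ring
        _ ≤ ε * ‖u‖ ^ (M + 2) := by
            gcongr
            nlinarith

/-- **The rescaling by the Taylor coefficients.** -/
theorem scale [ProperSpace E] {Φ : ℕ → ℂ → E} {w : ℂ} {M : ℕ} {G : ℂ → E} {r : ℝ} (h : Obj 𝒰 Φ w (M + 1) G r) (ℓ : E →L[ℂ] ℂ)
    (hℓ : ℓ (G w) = 1) :
    ∃ (c : ℕ → ℂ) (lam : ℕ → ℝ) (a : ℕ → ℂ) (A : ℕ → E), Tendsto c 𝒰 (𝓝 w) ∧ (∀ᶠ n in (𝒰 : Filter ℕ), 0 < lam n) ∧ Tendsto lam 𝒰 (𝓝 0) ∧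
      a 0 = 0 ∧ (∀ j, ℓ (A j) = 0) ∧
      CC 𝒰 (fun n u => ((lam n : ℂ) ^ (M + 1))⁻¹ * ℓ (Φ n (c n + lam n * u)))
        (fun u => ∑ j ∈ Finset.range (M + 1), u ^ j * a j + u ^ (M + 1)) Set.univ ∧
      CC 𝒰 (fun n u => ((lam n : ℂ) ^ (M + 2))⁻¹ • (Φ n (c n + lam n * u) - ℓ (Φ n (c n + lam n * u)) • G w))
        (fun u => ∑ j ∈ Finset.range (M + 2), u ^ j • A j + u ^ (M + 2) • (deriv G w - ℓ (deriv G w) • G w)) Set.univ ∧
      ¬ ((∀ j ∈ Finset.range (M + 1), a j = 0) ∧ ∀ j ∈ Finset.range (M + 2), A j = 0) := by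
  obtain ⟨c, lam, a, A, h1, h2, h3, h4, h5, h6, h7, h8, -, -⟩ := scale_neck h ℓ hℓ
  exact ⟨c, lam, a, A, h1, h2, h3, h4, h5, h6, h7, h8⟩

end Pool.Agent.H48.GB
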