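import Pool.Agent.H74.NB.Dec

/-!
# GT: joint rescaling of several sequences by their Taylor coefficients

`F i n → (z - w) ^ M i • G i z` on a disc about `w`, for finitely many `i`; `c n → w` arbitrary, not a common zero of the `F i n` with `1 ≤ M i`.  There are
`lam n > 0`, `lam n → 0` with
* `F i n (c n + lam n * u) / lam n ^ M i` converges on all of `ℂ` to a polynomial of degree `M i` with leading coefficient `G i w`;
* the lower coefficients are not all zero;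
* (neck) for `R lam n ≤ ‖u‖ ≤ δ` the function `F i n (c n + u)` is near `u ^ M i • G i w`.
-/

set_option autoImplicit false
set_option linter.unusedSectionVars false

open Topology Filter Metric

namespace Pool.Agent.H48.GT

open Pool.Agent.H74.NB

variable {ι : Type} [Fintype ι] {E : ι → Type} [∀ i, NormedAddCommGroup (E i)] [∀ i, NormedSpace ℂ (E i)] [∀ i, ProperSpace (E i)]
  {𝒰 : Ultrafilter ℕ} {w : ℂ} {r : ℝ} {F : ∀ i, ℕ → ℂ → E i} {G : ∀ i, ℂ → E i} {M : ι → ℕ} {c : ℕ → ℂ}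

private theorem tay_inv (k j : ℕ) (hj : j ∈ Finset.range k) : (0 : ℝ) < ((k - j : ℕ) : ℝ)⁻¹ := by
  have := Finset.mem_range.1 hj
  have h4 : 0 < k - j := by omega
  positivity

private theorem tay_pow (k j : ℕ) (hj : j ∈ Finset.range k) {x : ℝ} (hx : 0 ≤ x) : (x ^ (((k - j : ℕ) : ℝ)⁻¹)) ^ (k - j) = x := by
  have : k - j ≠ 0 := by
    have := Finset.mem_range.1 hj
    omega
  exact Real.rpow_inv_natCast_pow hx this

/-- **Joint rescaling by the Taylor coefficients.** -/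
theorem tay (hr : 0 < r) (hF : ∀ i, ∀ᶠ n in (𝒰 : Filter ℕ), DifferentiableOn ℂ (F i n) (ball w r)) (hG : ∀ i, DifferentiableOn ℂ (G i) (ball w r))
    (hc : ∀ i, CC 𝒰 (F i) (fun z => (z - w) ^ M i • G i z) (ball w r)) (hcw : Tendsto c 𝒰 (𝓝 w))
    (hnz : ∀ᶠ n in (𝒰 : Filter ℕ), ∃ i, 1 ≤ M i ∧ F i n (c n) ≠ 0) :
    ∃ (lam : ℕ → ℝ) (A : ∀ i, ℕ → E i), (∀ᶠ n in (𝒰 : Filter ℕ), 0 < lam n) ∧ Tendsto lam 𝒰 (𝓝 0) ∧
      (∀ i j, Tendsto (fun n => if j < M i then ((lam n : ℂ) ^ (M i - j))⁻¹ • it (F i n) (fun _ => c n) j (c n) else 0) 𝒰 (𝓝 (A i j))) ∧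
      (∀ i, CC 𝒰 (fun n u => ((lam n : ℂ) ^ M i)⁻¹ • F i n (c n + lam n * u))
        (fun u => ∑ j ∈ Finset.range (M i), u ^ j • A i j + u ^ M i • G i w) Set.univ) ∧
      (¬ ∀ i, ∀ j ∈ Finset.range (M i), A i j = 0) ∧
      ∀ ε : ℝ, 0 < ε → ∃ R δ : ℝ, 1 ≤ R ∧ 0 < δ ∧ ∀ᶠ n in (𝒰 : Filter ℕ), ∀ u : ℂ, R * lam n ≤ ‖u‖ → ‖u‖ ≤ δ → c n + u ∈ ball w r ∧
        ∀ i, ‖F i n (c n + u) - u ^ M i • G i w‖ ≤ ε * ‖u‖ ^ M i := by
  have hwr : ball w r ∈ 𝓝 w := ball_mem_nhds w hr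
  have hit := fun i => cc_it hr (a := fun _ => c) (fun _ => hcw) (hF i) (hG i) (hc i)
  set C : ∀ i, ℕ → ℕ → E i := fun i j n => it (F i n) (fun _ => c n) j (c n) with hCdef
  have hC0 : ∀ i, ∀ j ∈ Finset.range (M i), Tendsto (C i j) 𝒰 (𝓝 0) := by
    intro i j hj
    have hj' := Finset.mem_range.1 hj
    obtain ⟨k, hk⟩ : ∃ k, j + (k + 1) = M i := ⟨M i - j - 1, by omega⟩
    have h1 := (hit i j (k + 1) hk).2 w (mem_ball_self hr) c hcw
    simpa using h1
  have hS : ∀ i, CC 𝒰 (fun n => it (F i n) (fun _ => c n) (M i)) (G i) (ball w r) := fun i =>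
    ((hit i (M i) 0 (by omega)).2).congr fun z _ => by simp
  set lam : ℕ → ℝ := fun n => ∑ i, ∑ j ∈ Finset.range (M i), ‖C i j n‖ ^ (((M i - j : ℕ) : ℝ)⁻¹) with hlamdef
  have hlam0 : ∀ n, 0 ≤ lam n := fun n => Finset.sum_nonneg fun i _ => Finset.sum_nonneg fun j _ => Real.rpow_nonneg (norm_nonneg _) _
  have hle : ∀ n i, ∀ j ∈ Finset.range (M i), ‖C i j n‖ ^ (((M i - j : ℕ) : ℝ)⁻¹) ≤ lam n := fun n i j hj =>
    (Finset.single_le_sum (f := fun j => ‖C i j n‖ ^ (((M i - j : ℕ) : ℝ)⁻¹)) (fun j _ => Real.rpow_nonneg (norm_nonneg _) _) hj).trans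
      (Finset.single_le_sum (f := fun i => ∑ j ∈ Finset.range (M i), ‖C i j n‖ ^ (((M i - j : ℕ) : ℝ)⁻¹))
        (fun i _ => Finset.sum_nonneg fun j _ => Real.rpow_nonneg (norm_nonneg _) _) (Finset.mem_univ i))
  have hlamt : Tendsto lam 𝒰 (𝓝 0) := by
    have h0 : (0 : ℝ) = ∑ i, ∑ j ∈ Finset.range (M i), (0 : ℝ) := by simp
    rw [h0]
    refine tendsto_finsetSum _ fun i _ => tendsto_finsetSum _ fun j hj => ?_
    have h3 := tay_inv (M i) j hj
    have h4 := ((hC0 i j hj).norm).rpow_const (p := ((M i - j : ℕ) : ℝ)⁻¹) (Or.inr h3.le)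
    rw [norm_zero, Real.zero_rpow h3.ne'] at h4
    exact h4
  have hlamp : ∀ᶠ n in (𝒰 : Filter ℕ), 0 < lam n := by
    filter_upwards [hnz] with n hn
    obtain ⟨i, hi1, hi2⟩ := hn
    have h1 := hle n i 0 (Finset.mem_range.2 (by omega))
    refine lt_of_lt_of_le (Real.rpow_pos_of_pos ?_ _) h1
    exact norm_pos_iff.2 hi2
  -- the limits of the parameters
  have hA : ∀ i, ∀ j : ℕ, ∃ x : E i, Tendsto (fun n => if j < M i then ((lam n : ℂ) ^ (M i - j))⁻¹ • C i j n else 0) 𝒰 (𝓝 x) := by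
    intro i j
    by_cases hj : j < M i
    · have hj' := Finset.mem_range.2 hj
      obtain ⟨y, -, hy⟩ := exists_lim (𝒰 := 𝒰) (isCompact_closedBall (0 : E i) 1) (x := fun n => ((lam n : ℂ) ^ (M i - j))⁻¹ • C i j n) (by
        filter_upwards [hlamp] with n hn
        rw [mem_closedBall_zero_iff, norm_smul, norm_inv, norm_pow, Complex.norm_real, Real.norm_of_nonneg hn.le,
          inv_mul_le_iff₀ (by positivity), mul_one]
        have h1 := hle n i j hj'
        have h2 := pow_le_pow_left₀ (Real.rpow_nonneg (norm_nonneg _) _) h1 (M i - j)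
        rwa [tay_pow _ _ hj' (norm_nonneg _)] at h2)
      exact ⟨y, by simpa [hj] using hy⟩
    · exact ⟨0, by simp [hj]⟩
  choose A hA using hA
  have hA' : ∀ i, ∀ j ∈ Finset.range (M i), Tendsto (fun n => ((lam n : ℂ) ^ (M i - j))⁻¹ • C i j n) 𝒰 (𝓝 (A i j)) := by
    intro i j hj
    have := hA i j
    simpa [Finset.mem_range.1 hj] using this
  have hone : ∑ i, ∑ j ∈ Finset.range (M i), ‖A i j‖ ^ (((M i - j : ℕ) : ℝ)⁻¹) = 1 := by
    have h1 : Tendsto (fun n => ∑ i, ∑ j ∈ Finset.range (M i), ‖((lam n : ℂ) ^ (M i - j))⁻¹ • C i j n‖ ^ (((M i - j : ℕ) : ℝ)⁻¹)) 𝒰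
        (𝓝 (∑ i, ∑ j ∈ Finset.range (M i), ‖A i j‖ ^ (((M i - j : ℕ) : ℝ)⁻¹))) :=
      tendsto_finsetSum _ fun i _ => tendsto_finsetSum _ fun j hj => ((hA' i j hj).norm).rpow_const (Or.inr (tay_inv _ j hj).le)
    refine tendsto_nhds_unique h1 (Tendsto.congr' ?_ tendsto_const_nhds)
    filter_upwards [hlamp] with n hn
    have h2 : ∀ i, ∀ j ∈ Finset.range (M i), ‖((lam n : ℂ) ^ (M i - j))⁻¹ • C i j n‖ ^ (((M i - j : ℕ) : ℝ)⁻¹) =
        ‖C i j n‖ ^ (((M i - j : ℕ) : ℝ)⁻¹) / lam n := by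
      intro i j hj
      have h4 : M i - j ≠ 0 := by
        have := Finset.mem_range.1 hj
        omega
      rw [norm_smul, norm_inv, norm_pow, Complex.norm_real, Real.norm_of_nonneg hn.le, inv_mul_eq_div,
        Real.div_rpow (norm_nonneg _) (by positivity), Real.pow_rpow_inv_natCast hn.le h4]
    have h3 : ∑ i, ∑ j ∈ Finset.range (M i), ‖((lam n : ℂ) ^ (M i - j))⁻¹ • C i j n‖ ^ (((M i - j : ℕ) : ℝ)⁻¹) = lam n / lam n := by
      rw [hlamdef]
      simp only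
      rw [Finset.sum_div]
      refine Finset.sum_congr rfl fun i _ => ?_
      rw [Finset.sum_div]
      exact Finset.sum_congr rfl (h2 i)
    rw [h3, div_self hn.ne']
  have hxt : ∀ (ζ : ℕ → ℂ) (ζ₀ : ℂ), Tendsto ζ 𝒰 (𝓝 ζ₀) → Tendsto (fun n => c n + lam n * ζ n) 𝒰 (𝓝 w) := by
    intro ζ ζ₀ hζ
    have h1 : Tendsto (fun n => (lam n : ℂ) * ζ n) 𝒰 (𝓝 ((0 : ℂ) * ζ₀)) :=
      ((Complex.continuous_ofReal.tendsto' 0 0 (by simp)).comp hlamt).mul hζ
    have := hcw.add h1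
    simpa using this
  have hnewton : ∀ (i : ι) (n : ℕ) (u : ℂ), F i n (c n + u) =
      ∑ j ∈ Finset.range (M i), u ^ j • C i j n + u ^ M i • it (F i n) (fun _ => c n) (M i) (c n + u) := by
    intro i n u
    rw [newton (F i n) (fun _ => c n) (M i) (c n + u)]
    simp only [Finset.prod_const, Finset.card_range, add_sub_cancel_left]
    rfl
  refine ⟨lam, A, hlamp, hlamt, hA, fun i => ?_, ?_, ?_⟩
  · intro ζ₀ _ ζ hζ
    have hx := hxt ζ ζ₀ hζ
    have h1 : Tendsto (fun n => ∑ j ∈ Finset.range (M i), ζ n ^ j • (((lam n : ℂ) ^ (M i - j))⁻¹ • C i j n) +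
        ζ n ^ M i • it (F i n) (fun _ => c n) (M i) (c n + lam n * ζ n)) 𝒰
        (𝓝 (∑ j ∈ Finset.range (M i), ζ₀ ^ j • A i j + ζ₀ ^ M i • G i w)) :=
      (tendsto_finsetSum _ fun j hj => (hζ.pow j).smul (hA' i j hj)).add ((hζ.pow (M i)).smul (hS i w (mem_ball_self hr) _ hx))
    refine h1.congr' ?_
    filter_upwards [hlamp] with n hn
    have hn' : (lam n : ℂ) ≠ 0 := by
      rw [Ne, Complex.ofReal_eq_zero]
      exact hn.ne'
    rw [hnewton i n (lam n * ζ n), smul_add, Finset.smul_sum]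
    congr 1
    · refine Finset.sum_congr rfl fun j hj => ?_
      have h3 : (lam n : ℂ) ^ M i = (lam n : ℂ) ^ j * (lam n : ℂ) ^ (M i - j) := by
        rw [← pow_add]
        congr 1
        have := Finset.mem_range.1 hj
        omega
      rw [smul_smul, smul_smul, mul_pow, h3]
      congr 1
      field_simp
    · rw [smul_smul, mul_pow]
      congr 1
      field_simp
  · intro h1
    rw [Finset.sum_eq_zero (fun i _ => Finset.sum_eq_zero fun j hj => by
      rw [h1 i j hj, norm_zero, Real.zero_rpow (tay_inv _ j hj).ne'])] at hone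
    norm_num at hone
  · intro ε hε
    obtain ⟨s₀, hs₀, hs₀'⟩ : ∃ s₀, 0 < s₀ ∧ ∀ z ∈ closedBall w s₀, z ∈ ball w r ∧ ∀ i, ‖G i z - G i w‖ < ε / 4 := by
      have h1 : ∀ᶠ z in 𝓝 w, z ∈ ball w r ∧ ∀ i, ‖G i z - G i w‖ < ε / 4 := by
        refine Filter.Eventually.and hwr (eventually_all.2 fun i => ?_)
        have h2 : Tendsto (fun z => ‖G i z - G i w‖) (𝓝 w) (𝓝 0) := by
          have := (((hG i).continuousOn.continuousAt hwr).tendsto.sub_const (G i w)).norm
          simpa using this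
        exact h2.eventually (gt_mem_nhds (by positivity))
      obtain ⟨s₁, hs₁, hs₁'⟩ := Metric.mem_nhds_iff.1 h1
      exact ⟨s₁ / 2, by positivity, fun z hz => hs₁' (closedBall_subset_ball (by linarith) hz)⟩
    have hu1 : ∀ᶠ n in (𝒰 : Filter ℕ), ∀ i, ∀ z ∈ closedBall w s₀, ‖it (F i n) (fun _ => c n) (M i) z - G i z‖ < ε / 4 :=
      eventually_all.2 fun i => (hS i).unif (hG i).continuousOn isOpen_ball (isCompact_closedBall w s₀) (fun z hz => (hs₀' z hz).1)
        (by positivity)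
    obtain ⟨m, hm⟩ : ∃ m : ℕ, ∀ i, M i ≤ m := ⟨∑ i, M i, fun i => Finset.single_le_sum (fun i _ => Nat.zero_le (M i)) (Finset.mem_univ i)⟩
    set R : ℝ := max 1 (2 * (m + 1) / ε) with hR
    have hR1 : 1 ≤ R := le_max_left _ _
    have hR0 : 0 < R := by linarith
    have hRε : (m + 1) * (1 / R) ≤ ε / 2 := by
      have h1 : 2 * ((m : ℝ) + 1) / ε ≤ R := le_max_right _ _
      rw [div_le_iff₀ hε] at h1
      rw [mul_div_assoc', div_le_iff₀ hR0]
      linarith
    refine ⟨R, s₀ / 2, hR1, by positivity, ?_⟩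
    filter_upwards [hu1, hlamp, hcw.eventually (ball_mem_nhds w (show 0 < s₀ / 2 by positivity))] with n h1 h3 h4 u hu hu'
    have hz : c n + u ∈ closedBall w s₀ := by
      rw [mem_closedBall, dist_eq_norm]
      have h4' : ‖c n - w‖ < s₀ / 2 := by rwa [← dist_eq_norm]
      calc ‖c n + u - w‖ = ‖(c n - w) + u‖ := by ring_nf
        _ ≤ ‖c n - w‖ + ‖u‖ := norm_add_le _ _
        _ ≤ s₀ := by linarith
    obtain ⟨h5, h6⟩ := hs₀' _ hz
    have hu0 : 0 < ‖u‖ := lt_of_lt_of_le (by positivity) hu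
    have hlu : lam n ≤ ‖u‖ := le_trans (by nlinarith) hu
    have hratio : lam n / ‖u‖ ≤ 1 / R := by
      rw [div_le_div_iff₀ hu0 hR0]
      linarith
    refine ⟨h5, fun i => ?_⟩
    have hterm : ∀ j ∈ Finset.range (M i), ‖u ^ j • C i j n‖ ≤ 1 / R * ‖u‖ ^ M i := by
      intro j hj
      have hj' := Finset.mem_range.1 hj
      have h8 := pow_le_pow_left₀ (Real.rpow_nonneg (norm_nonneg _) _) (hle n i j hj) (M i - j)
      rw [tay_pow _ _ hj (norm_nonneg _)] at h8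
      have h9 : (lam n / ‖u‖) ^ (M i - j) ≤ 1 / R := by
        calc (lam n / ‖u‖) ^ (M i - j) ≤ (lam n / ‖u‖) ^ 1 := by
              refine pow_le_pow_of_le_one (by positivity) ?_ (by omega)
              rw [div_le_one hu0]
              exact hlu
          _ = lam n / ‖u‖ := pow_one _
          _ ≤ 1 / R := hratio
      rw [norm_smul, norm_pow]
      calc ‖u‖ ^ j * ‖C i j n‖ ≤ ‖u‖ ^ j * lam n ^ (M i - j) := by gcongr
        _ = ‖u‖ ^ j * (‖u‖ ^ (M i - j) * (lam n / ‖u‖) ^ (M i - j)) := by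
          rw [← mul_pow, mul_div_cancel₀ _ hu0.ne']
        _ = (lam n / ‖u‖) ^ (M i - j) * ‖u‖ ^ (j + (M i - j)) := by
          rw [pow_add]
          ring
        _ ≤ 1 / R * ‖u‖ ^ M i := by
          rw [Nat.add_sub_cancel' hj'.le]
          gcongr
    have h8 : F i n (c n + u) - u ^ M i • G i w = ∑ j ∈ Finset.range (M i), u ^ j • C i j n +
        u ^ M i • (it (F i n) (fun _ => c n) (M i) (c n + u) - G i w) := by
      rw [hnewton i n u, smul_sub, add_sub_assoc]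
    have h9 : ‖it (F i n) (fun _ => c n) (M i) (c n + u) - G i w‖ ≤ ε / 2 := by
      have h10 := h1 i _ hz
      have h11 := h6 i
      calc ‖it (F i n) (fun _ => c n) (M i) (c n + u) - G i w‖ =
            ‖(it (F i n) (fun _ => c n) (M i) (c n + u) - G i (c n + u)) + (G i (c n + u) - G i w)‖ := by
              congr 1
              abel
        _ ≤ ‖it (F i n) (fun _ => c n) (M i) (c n + u) - G i (c n + u)‖ + ‖G i (c n + u) - G i w‖ := norm_add_le _ _
        _ ≤ ε / 2 := by linarith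
    have h12 : (M i : ℝ) ≤ m := by exact_mod_cast hm i
    rw [h8]
    calc ‖∑ j ∈ Finset.range (M i), u ^ j • C i j n + u ^ M i • (it (F i n) (fun _ => c n) (M i) (c n + u) - G i w)‖
        ≤ ‖∑ j ∈ Finset.range (M i), u ^ j • C i j n‖ + ‖u ^ M i • (it (F i n) (fun _ => c n) (M i) (c n + u) - G i w)‖ := norm_add_le _ _
      _ ≤ ∑ j ∈ Finset.range (M i), 1 / R * ‖u‖ ^ M i + ‖u‖ ^ M i * (ε / 2) := by
          gcongr
          · exact norm_sum_le_of_le _ hterm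
          · rw [norm_smul, norm_pow]
            gcongr
      _ = (M i * (1 / R) + ε / 2) * ‖u‖ ^ M i := by
          rw [Finset.sum_const, Finset.card_range, nsmul_eq_mul]
          ring
      _ ≤ ε * ‖u‖ ^ M i := by
          gcongr
          have h11 : (0 : ℝ) ≤ 1 / R := by positivity
          nlinarith

end Pool.Agent.H48.GT
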