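import Pool.Agent.H48.StackSort

/-!
# Counting direct-sum cuts of a list
-/

set_option autoImplicit false

namespace Pool.Agent.H48

/-- auxiliary function: number of cuts of `P ++ w` that lie strictly after `P`. -/
def kapAux : List ℕ → List ℕ → ℕ
  | _, [] => 0
  | P, x :: r => (if ∀ p ∈ P ++ [x], ∀ y ∈ r, p < y then 1 else 0) + kapAux (P ++ [x]) r

/-- number of direct-sum components of a list. -/
def kap (w : List ℕ) : ℕ := kapAux [] w

theorem kapAux_append (P X Y : List ℕ) (hP : ∀ p ∈ P, ∀ y ∈ Y, p < y)
    (hX : ∀ x ∈ X, ∀ y ∈ Y, x < y) :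
    kapAux P (X ++ Y) = kapAux P X + kapAux (P ++ X) Y := by
  induction X generalizing P with
  | nil => simp [kapAux]
  | cons a X ih =>
    simp only [List.cons_append, kapAux]
    have hPa : ∀ p ∈ P ++ [a], ∀ y ∈ Y, p < y := by
      intro p hp y hy
      rcases List.mem_append.1 hp with h | h
      · exact hP p h y hy
      · rw [List.mem_singleton] at h; subst h; exact hX p (by simp) y hy
    rw [ih (P ++ [a]) hPa (fun x hx y hy => hX x (by simp [hx]) y hy)]
    have h2 : (∀ p ∈ P ++ [a], ∀ y ∈ X ++ Y, p < y) ↔ (∀ p ∈ P ++ [a], ∀ y ∈ X, p < y) := by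
      constructor
      · intro h p hp y hy; exact h p hp y (List.mem_append_left _ hy)
      · intro h p hp y hy
        rcases List.mem_append.1 hy with h' | h'
        · exact h p hp y h'
        · exact hPa p hp y h'
    simp only [h2]
    rw [List.append_assoc P [a] X, List.singleton_append, add_assoc]

theorem kapAux_lower (P P' Y : List ℕ) (hP : ∀ p ∈ P, ∀ y ∈ Y, p < y) :
    kapAux (P ++ P') Y = kapAux P' Y := by
  induction Y generalizing P' with
  | nil => simp [kapAux]
  | cons a Y ih =>
    simp only [kapAux]
    rw [List.append_assoc, ih (P' ++ [a]) (fun p hp y hy => hP p hp y (by simp [hy]))]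
    have h2 : (∀ p ∈ P ++ (P' ++ [a]), ∀ y ∈ Y, p < y) ↔ (∀ p ∈ P' ++ [a], ∀ y ∈ Y, p < y) := by
      constructor
      · intro h p hp y hy; exact h p (List.mem_append_right _ hp) y hy
      · intro h p hp y hy
        rcases List.mem_append.1 hp with h' | h'
        · exact hP p h' y (by simp [hy])
        · exact h p h' y hy
    simp only [h2]

theorem kap_append (X Y : List ℕ) (hX : ∀ x ∈ X, ∀ y ∈ Y, x < y) :
    kap (X ++ Y) = kap X + kap Y := by
  unfold kap
  rw [kapAux_append [] X Y (by simp) hX, List.nil_append]
  congr 1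
  have := kapAux_lower X [] Y hX
  simpa using this

theorem kap_nil : kap [] = 0 := rfl

theorem kapAux_top (P r : List ℕ) (a : ℕ) (ha : a ∈ P) (hr : ∀ x ∈ r, x < a) (hne : r ≠ []) :
    kapAux P r = 1 := by
  induction r generalizing P with
  | nil => exact absurd rfl hne
  | cons x r ih =>
    simp only [kapAux]
    by_cases hr' : r = []
    · subst hr'; simp [kapAux]
    · rw [ih (P ++ [x]) (by simp [ha]) (fun z hz => hr z (by simp [hz])) hr']
      rw [if_neg]
      intro h
      obtain ⟨z, hz⟩ := List.exists_mem_of_ne_nil r hr'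
      have h1 := h a (by simp [ha]) z hz
      have h2 := hr z (by simp [hz])
      omega

theorem kap_cons_max (a : ℕ) (V : List ℕ) (hV : ∀ x ∈ V, x < a) : kap (a :: V) = 1 := by
  unfold kap
  simp only [kapAux, List.nil_append]
  by_cases hV' : V = []
  · subst hV'; simp [kapAux]
  · rw [kapAux_top [a] V a (by simp) hV hV', if_neg]
    intro h
    obtain ⟨z, hz⟩ := List.exists_mem_of_ne_nil V hV'
    have h1 := h a (by simp) z hz
    have h2 := hV z hz
    omega

theorem kap_singleton (a : ℕ) : kap [a] = 1 := kap_cons_max a [] (by simp)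

theorem kapAux_map {f : ℕ → ℕ} (hf : StrictMono f) (P w : List ℕ) :
    kapAux (P.map f) (w.map f) = kapAux P w := by
  induction w generalizing P with
  | nil => simp [kapAux]
  | cons x w ih =>
    simp only [List.map_cons, kapAux]
    have h1 : P.map f ++ [f x] = (P ++ [x]).map f := by simp
    rw [h1, ih]
    have h2 : (∀ p ∈ (P ++ [x]).map f, ∀ y ∈ w.map f, p < y) ↔ (∀ p ∈ P ++ [x], ∀ y ∈ w, p < y) := by
      constructor
      · intro h p hp y hy
        exact hf.lt_iff_lt.1 (h (f p) (List.mem_map_of_mem hp) (f y) (List.mem_map_of_mem hy))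
      · intro h p hp y hy
        obtain ⟨p', hp', rfl⟩ := List.mem_map.1 hp
        obtain ⟨y', hy', rfl⟩ := List.mem_map.1 hy
        exact hf (h p' hp' y' hy')
    simp only [h2]

theorem kap_map {f : ℕ → ℕ} (hf : StrictMono f) (w : List ℕ) : kap (w.map f) = kap w := by
  have := kapAux_map hf [] w
  simpa [kap] using this

theorem kapAux_pos (P w : List ℕ) (hw : w ≠ []) : 1 ≤ kapAux P w := by
  induction w generalizing P with
  | nil => exact absurd rfl hw
  | cons x w ih =>
    simp only [kapAux]
    by_cases h : w = []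
    · subst h; simp
    · have := ih (P ++ [x]) h
      omega

theorem kap_pos (w : List ℕ) (hw : w ≠ []) : 1 ≤ kap w := kapAux_pos [] w hw

theorem split_unique (w : List ℕ) (h h' : ℕ) (hh : h ≤ w.length) (hh' : h' ≤ w.length)
    (hc : ∀ x ∈ w.take h, ∀ y ∈ w.drop h, x < y)
    (hc' : ∀ x ∈ w.take h', ∀ y ∈ w.drop h', x < y)
    (hk : kap (w.drop h) = kap (w.drop h')) : h = h' := by
  -- wlog h < h'
  have key : ∀ h h' : ℕ, h < h' → h' ≤ w.length →
      (∀ x ∈ w.take h', ∀ y ∈ w.drop h', x < y) → kap (w.drop h') < kap (w.drop h) := by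
    intro h h' hlt hh' hc'
    have h1 : w.drop h = (w.take h').drop h ++ w.drop h' := by
      have h2 : w = w.take h' ++ w.drop h' := (List.take_append_drop h' w).symm
      conv_lhs => rw [h2]
      rw [List.drop_append_of_le_length]
      rw [List.length_take]; omega
    rw [h1, kap_append]
    · have : 1 ≤ kap ((w.take h').drop h) := by
        apply kap_pos
        intro hnil
        have := congrArg List.length hnil
        rw [List.length_drop, List.length_take] at this
        simp at this
        omega
      omega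
    · intro x hx y hy
      exact hc' x (List.mem_of_mem_drop hx) y hy
  rcases lt_trichotomy h h' with hlt | heq | hgt
  · have := key h h' hlt hh' hc'; omega
  · exact heq
  · have := key h' h hgt hh hc; omega

end Pool.Agent.H48
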