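import Pool.Agent.H48.Decomp

/-!
# The operator inequality for the counting arrays
-/

set_option autoImplicit false

namespace Pool.Agent.H48

open scoped ENNReal

/-- arrays -/
abbrev Arr := ℕ → ℕ → ℝ≥0∞

noncomputable def Qop (f : Arr) : Arr
  | 0, c => 2 * f 0 c + f 1 c
  | i + 1, c => f i c + 2 * f (i + 1) c + f (i + 2) c

noncomputable def Kop (f : Arr) : Arr := fun i c => ∑' j : ℕ, f i (c + j)

noncomputable def conv (f h : Arr) : Arr := fun i c =>
  ∑ p ∈ Finset.HasAntidiagonal.antidiagonal i, ∑ r ∈ Finset.HasAntidiagonal.antidiagonal c,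
    f p.1 r.1 * h p.2 r.2

noncomputable def Phi (t : ℝ≥0∞) (f : Arr) : Arr
  | _, 0 => 0
  | 0, c + 1 => t * ((if c = 0 then 1 else 0) + Qop f 0 c)
  | i + 1, c + 1 => t * (f i c + Qop f (i + 1) c + conv (Qop f) (Kop f) i c)

section

open Classical

variable (t : ℝ≥0∞)

theorem g_zero (i c : ℕ) : g t 0 i c = 0 := by
  unfold g
  rw [ENNReal.tsum_eq_zero]
  intro F
  rw [if_neg]
  rintro ⟨hv, hs, -, -⟩
  have := flatten_ne_nil hv.ne hv.nonempty
  have : 0 < sz F := List.length_pos_iff.2 this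
  omega

theorem g_col_zero (N i : ℕ) : g t N i 0 = 0 := by
  unfold g
  rw [ENNReal.tsum_eq_zero]
  intro F
  rw [if_neg]
  rintro ⟨hv, hs, -, h⟩
  have h1 : up F ≠ [] := by
    intro h2
    have h3 := flatten_ne_nil hv.ne hv.nonempty
    have h4 := (up_perm F hv.nodup).length_eq
    rw [h2] at h4
    exact h3 (List.length_eq_zero_iff.1 h4.symm)
  have := kap_pos _ h1
  omega

theorem c2_sum_zero (N c : ℕ) : (∑' F : Fo, if c2 N 0 c F then t * t ^ sz F else 0) = 0 := by
  rw [ENNReal.tsum_eq_zero]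
  intro F
  rw [if_neg]
  rintro ⟨hv, hs, h, -⟩
  exact hv.nonempty (List.length_eq_zero_iff.1 h)

theorem c2_sum_succ (N i c : ℕ) :
    (∑' F : Fo, if c2 N (i + 1) c F then t * t ^ sz F else 0) = t * g t N i c := by
  rw [g, ← ENNReal.tsum_mul_left]
  apply tsum_congr
  intro F
  have : c2 N (i + 1) c F ↔ cG N i c F := Iff.rfl
  simp only [this]
  split_ifs <;> simp

theorem q_le (N i c : ℕ) : q t N i c ≤ Qop (g t N) i c := by
  rw [q, ENNReal.tsum_prod', tsum_fintype]
  have huniv : (Finset.univ : Finset Ty) = {.leaf, .left, .right, .both} := rfl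
  rw [huniv]
  rw [Finset.sum_insert (by simp), Finset.sum_insert (by simp), Finset.sum_insert (by simp),
    Finset.sum_singleton]
  have hlr : ∀ ty : Ty, (ty = .left ∨ ty = .right) →
      (∑' F : Fo, if cQ N i c (ty, F) then t ^ sz F else 0) ≤ g t N i c := by
    intro ty hty
    rw [g]
    apply ENNReal.tsum_le_tsum
    intro F
    by_cases h : cQ N i c (ty, F)
    · rw [if_pos h]
      obtain ⟨h1, h2, h3, h4, h5⟩ := h
      rw [if_pos]
      refine ⟨h2, h3, ?_, h5⟩
      rcases hty with rfl | rfl <;> simpa [lenTy] using h4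
    · rw [if_neg h]; exact zero_le
  have hb : (∑' F : Fo, if cQ N i c (.both, F) then t ^ sz F else 0) ≤ g t N (i + 1) c := by
    rw [g]
    apply ENNReal.tsum_le_tsum
    intro F
    by_cases h : cQ N i c (.both, F)
    · rw [if_pos h]
      obtain ⟨h1, h2, h3, h4, h5⟩ := h
      rw [if_pos]
      refine ⟨h2, h3, ?_, h5⟩
      simp only [lenTy] at h4
      simp only [okTy] at h1
      omega
    · rw [if_neg h]; exact zero_le
  match i with
  | 0 =>
    have hl : (∑' F : Fo, if cQ N 0 c (.leaf, F) then t ^ sz F else 0) = 0 := by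
      rw [ENNReal.tsum_eq_zero]
      intro F
      rw [if_neg]
      rintro ⟨-, h2, -, h4, -⟩
      simp only [lenTy] at h4
      have : F.length = 0 := by omega
      exact h2.nonempty (List.length_eq_zero_iff.1 this)
    rw [hl, zero_add, ← add_assoc, Qop, two_mul]
    gcongr
    · exact hlr _ (Or.inl rfl)
    · exact hlr _ (Or.inr rfl)
  | i + 1 =>
    have hl : (∑' F : Fo, if cQ N (i + 1) c (.leaf, F) then t ^ sz F else 0) ≤ g t N i c := by
      rw [g]
      apply ENNReal.tsum_le_tsum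
      intro F
      by_cases h : cQ N (i + 1) c (.leaf, F)
      · rw [if_pos h]
        obtain ⟨h1, h2, h3, h4, h5⟩ := h
        rw [if_pos]
        refine ⟨h2, h3, ?_, h5⟩
        simp only [lenTy] at h4
        omega
      · rw [if_neg h]; exact zero_le
    rw [Qop, two_mul, ← add_assoc, ← add_assoc, ← add_assoc]
    gcongr
    · exact hlr _ (Or.inl rfl)
    · exact hlr _ (Or.inr rfl)

theorem k_le (N i c : ℕ) : k t N i c ≤ Kop (g t N) i c := by
  rw [k, Kop]
  simp only [g]
  rw [ENNReal.tsum_comm]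
  apply ENNReal.tsum_le_tsum
  intro F
  by_cases h : cK N i c F
  · rw [if_pos h]
    obtain ⟨h1, h2, h3, h4⟩ := h
    refine le_trans ?_ (ENNReal.le_tsum (kap (up F) - c))
    rw [if_pos]
    exact ⟨h1, h2, h3, by omega⟩
  · rw [if_neg h]; exact zero_le

theorem q_sum (N i c : ℕ) :
    (∑' p : Ty × Fo, if cQ N i c p then t * t ^ sz p.2 else 0) = t * q t N i c := by
  rw [q, ← ENNReal.tsum_mul_left]
  apply tsum_congr
  intro F
  split_ifs <;> simp

theorem P4_sum_zero (N c : ℕ) : (∑' d : Ty × Fo × Fo × ℕ, if P4 N 0 c d then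
        t * (t ^ sz d.2.1 * t ^ sz d.2.2.1) else 0) = 0 := by
  rw [ENNReal.tsum_eq_zero]
  intro d
  rw [if_neg]
  rintro ⟨a1, a2, a3, a4, a5, a6, a7, a8⟩
  have hlen2 : 1 ≤ d.2.2.1.length := List.length_pos_iff.2 a4.nonempty
  have hlen1 : 1 ≤ lenTy d.1 d.2.1 := by
    have h0 : 1 ≤ d.2.1.length := List.length_pos_iff.2 a2.nonempty
    revert a1
    cases d.1 <;> simp [lenTy, okTy] <;> omega
  omega

/-- The fundamental inequality. -/
theorem g_le_Phi (N i c : ℕ) : g t (N + 1) i c ≤ Phi t (g t N) i c := by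
  match i, c with
  | i, 0 => rw [g_col_zero]; exact zero_le
  | 0, c + 1 =>
    refine (g_succ_le t N 0 c).trans ?_
    rw [c2_sum_zero, P4_sum_zero, q_sum, Phi, mul_add, add_zero, add_zero]
    gcongr
    · by_cases h : c = 0 <;> simp [h]
    · exact q_le t N 0 c
  | i + 1, c + 1 =>
    refine (g_succ_le t N (i + 1) c).trans ?_
    rw [c2_sum_succ, q_sum, Phi, mul_add, mul_add, if_neg (by simp), zero_add]
    gcongr
    · exact q_le t N (i + 1) c
    · refine (P4_sum t N i c).trans ?_
      unfold conv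
      gcongr
      · exact q_le t N _ _
      · exact k_le t N _ _

end

end Pool.Agent.H48
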