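import Mathlib

/-!
# The stack-sorting map on lists of natural numbers
-/

set_option autoImplicit false

namespace Pool.Agent.H48

/-- West's stack-sorting map. -/
def ss : List ℕ → List ℕ
  | [] => []
  | (x :: xs) =>
    ss ((x :: xs).takeWhile (fun z => z ≠ (x :: xs).foldr max 0)) ++
      ss (((x :: xs).dropWhile (fun z => z ≠ (x :: xs).foldr max 0)).tail) ++
      [(x :: xs).foldr max 0]
termination_by l => l.length
decreasing_by
  · have hmem : (x :: xs).foldr max 0 ∈ (x :: xs) := by
      have : ∀ (l : List ℕ), l ≠ [] → l.foldr max 0 ∈ l := by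
        intro l
        induction l with
        | nil => intro h; exact absurd rfl h
        | cons a l ih =>
          intro _
          by_cases hl : l = []
          · subst hl; simp
          · have h1 := ih hl
            simp only [List.foldr_cons]
            rcases le_total a (l.foldr max 0) with h | h
            · rw [max_eq_right h]; exact List.mem_cons_of_mem _ h1
            · rw [max_eq_left h]; exact List.mem_cons_self
      exact this _ (by simp)
    have h1 : ((x :: xs).takeWhile (fun z => z ≠ (x :: xs).foldr max 0)).length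
        ≤ (x :: xs).length := (List.takeWhile_sublist _).length_le
    rcases lt_or_eq_of_le h1 with h | h
    · exact h
    · exfalso
      have h2 := (List.takeWhile_prefix
        (l := (x :: xs)) (fun z => z ≠ (x :: xs).foldr max 0)).eq_of_length h
      rw [← h2] at hmem
      have h3 := List.mem_takeWhile_imp hmem
      rw [h2] at h3
      simp at h3
  · have h1 : ((x :: xs).dropWhile (fun z => z ≠ (x :: xs).foldr max 0)).length
        ≤ (x :: xs).length := (List.dropWhile_sublist _).length_le
    rw [List.length_tail]
    have : 0 < (x :: xs).length := by simp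
    omega

theorem ss_nil : ss [] = [] := by
  unfold ss; rfl

theorem foldr_max_eq (L R : List ℕ) (m : ℕ) (hL : ∀ x ∈ L, x < m) (hR : ∀ x ∈ R, x < m) :
    (L ++ m :: R).foldr max 0 = m := by
  have hR' : R.foldr max 0 ≤ m := by
    induction R with
    | nil => simp
    | cons a R ih =>
      simp only [List.foldr_cons]
      have h1 : a < m := hR a (by simp)
      have h2 := ih (fun x hx => hR x (by simp [hx]))
      omega
  induction L with
  | nil => simp [hR']
  | cons a L ih =>
    have h1 := ih (fun x hx => hL x (by simp [hx]))
    have h2 : a < m := hL a (by simp)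
    simp only [List.cons_append, List.foldr_cons, h1]
    omega

theorem ss_split (L R : List ℕ) (m : ℕ) (hL : ∀ x ∈ L, x < m) (hR : ∀ x ∈ R, x < m) :
    ss (L ++ m :: R) = ss L ++ ss R ++ [m] := by
  have hmax := foldr_max_eq L R m hL hR
  have htake : (L ++ m :: R).takeWhile (fun z => z ≠ m) = L := by
    rw [List.takeWhile_append_of_pos]
    · simp
    · intro x hx
      have := hL x hx
      simp; omega
  have hdrop : (L ++ m :: R).dropWhile (fun z => z ≠ m) = m :: R := by
    rw [List.dropWhile_append_of_pos]
    · simp
    · intro x hx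
      have := hL x hx
      simp; omega
  cases hL' : L ++ m :: R with
  | nil => simp at hL'
  | cons x xs =>
    rw [ss, ← hL', hmax, htake, hdrop]
    simp

theorem exists_split (w : List ℕ) (h : w ≠ []) (hn : w.Nodup) :
    ∃ (L : List ℕ) (m : ℕ) (R : List ℕ), w = L ++ m :: R ∧ (∀ x ∈ L, x < m) ∧ (∀ x ∈ R, x < m) := by
  have hne : w.toFinset.Nonempty := by
    rcases w with _ | ⟨a, w⟩
    · exact absurd rfl h
    · exact ⟨a, by simp⟩
  obtain ⟨m, hm, hmax⟩ := w.toFinset.exists_max_image id hne
  have hm' : m ∈ w := by simpa using hm
  obtain ⟨L, R, hw⟩ := List.append_of_mem hm'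
  refine ⟨L, m, R, hw, ?_, ?_⟩
  · intro x hx
    have h1 : x ≤ m := hmax x (by simp [hw, hx])
    have h2 : x ≠ m := by
      rw [hw, List.nodup_append] at hn
      exact hn.2.2 x hx m (by simp)
    omega
  · intro x hx
    have h1 : x ≤ m := hmax x (by simp [hw, hx])
    have h2 : x ≠ m := by
      rw [hw, List.nodup_append] at hn
      have h3 := hn.2.1
      rw [List.nodup_cons] at h3
      intro hxm
      exact h3.1 (hxm ▸ hx)
    omega

theorem nodup_induction {P : List ℕ → Prop} (h0 : P [])
    (h1 : ∀ (L : List ℕ) (m : ℕ) (R : List ℕ), (L ++ m :: R).Nodup → (∀ x ∈ L, x < m) →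
      (∀ x ∈ R, x < m) → P L → P R → P (L ++ m :: R)) :
    ∀ w : List ℕ, w.Nodup → P w := by
  intro w
  induction' hlen : w.length using Nat.strong_induction_on with k ih generalizing w
  intro hn
  by_cases hw : w = []
  · subst hw; exact h0
  · obtain ⟨L, m, R, hw', hL, hR⟩ := exists_split w hw hn
    have hlen' : L.length + (R.length + 1) = k := by
      rw [← hlen, hw']; simp
    have hnL : L.Nodup := by
      rw [hw'] at hn; exact (List.nodup_append.1 hn).1
    have hnR : R.Nodup := by
      rw [hw'] at hn
      exact (List.nodup_cons.1 (List.nodup_append.1 hn).2.1).2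
    rw [hw']
    exact h1 L m R (hw' ▸ hn) hL hR (ih L.length (by omega) L rfl hnL)
      (ih R.length (by omega) R rfl hnR)

theorem ss_perm : ∀ w : List ℕ, w.Nodup → (ss w).Perm w := by
  apply nodup_induction
  · rw [ss_nil]
  · intro L m R _ hL hR ihL ihR
    rw [ss_split L R m hL hR]
    refine (List.Perm.append_right [m] (ihL.append ihR)).trans ?_
    rw [List.append_assoc]
    exact List.Perm.append_left L (List.perm_append_singleton m R)

theorem ss_map {f : ℕ → ℕ} (hf : StrictMono f) :
    ∀ w : List ℕ, w.Nodup → ss (w.map f) = (ss w).map f := by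
  apply nodup_induction
  · simp [ss_nil]
  · intro L m R _ hL hR ihL ihR
    rw [ss_split L R m hL hR, List.map_append, List.map_cons, ss_split, ihL, ihR]
    · simp
    · intro x hx
      obtain ⟨z, hz, rfl⟩ := List.mem_map.1 hx
      exact hf (hL z hz)
    · intro x hx
      obtain ⟨z, hz, rfl⟩ := List.mem_map.1 hx
      exact hf (hR z hz)

theorem ss_mem {w : List ℕ} (hw : w.Nodup) {x : ℕ} : x ∈ ss w ↔ x ∈ w :=
  (ss_perm w hw).mem_iff

theorem ss_nodup {w : List ℕ} (hw : w.Nodup) : (ss w).Nodup :=
  (ss_perm w hw).nodup_iff.2 hw

/-- The list avoids the pattern 231. -/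
def Av (w : List ℕ) : Prop :=
  ∀ a b c : ℕ, List.Sublist [b, c, a] w → a < b → b < c → False

theorem Av.of_sublist {u w : List ℕ} (h : Av w) (hu : List.Sublist u w) : Av u :=
  fun a b c hs h1 h2 => h a b c (hs.trans hu) h1 h2

theorem av_map {f : ℕ → ℕ} (hf : StrictMono f) {w : List ℕ} : Av (w.map f) ↔ Av w := by
  constructor
  · intro h a b c hs h1 h2
    exact h (f a) (f b) (f c) (by simpa using hs.map f) (hf h1) (hf h2)
  · intro h a b c hs h1 h2
    rw [List.sublist_map_iff] at hs
    obtain ⟨l, hl, hbc⟩ := hs
    match l, hl, hbc with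
    | [b', c', a'], hl, hbc =>
      simp only [List.map_cons, List.map_nil, List.cons.injEq, and_true] at hbc
      obtain ⟨rfl, rfl, rfl⟩ := hbc
      exact h a' b' c' hl (hf.lt_iff_lt.1 h1) (hf.lt_iff_lt.1 h2)

theorem av_iff : ∀ w : List ℕ, w.Nodup → (Av w ↔ (ss w).Pairwise (· < ·)) := by
  apply nodup_induction
  · simp only [ss_nil, List.Pairwise.nil, iff_true]
    intro a b c h
    simp at h
  · intro L m R hn hL hR ihL ihR
    rw [ss_split L R m hL hR]
    have hnL : L.Nodup := (List.nodup_append.1 hn).1
    have hnR : R.Nodup := (List.nodup_cons.1 (List.nodup_append.1 hn).2.1).2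
    have hdisj := (List.nodup_append.1 hn).2.2
    constructor
    · intro h
      rw [List.pairwise_append, List.pairwise_append]
      refine ⟨⟨ihL.1 (h.of_sublist (List.sublist_append_left _ _)),
        ihR.1 (h.of_sublist ((List.sublist_cons_self _ _).trans
          (List.sublist_append_right _ _))), ?_⟩, List.pairwise_singleton _ _, ?_⟩
      · intro b hb a ha
        have hb' : b ∈ L := (ss_mem hnL).1 hb
        have ha' : a ∈ R := (ss_mem hnR).1 ha
        by_contra hcon
        have hne : b ≠ a := hdisj b hb' a (by simp [ha'])
        have hlt : a < b := by omega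
        refine h a b m ?_ hlt (hL b hb')
        have h1 : List.Sublist [b] L := by simpa using hb'
        have h2 : List.Sublist [m, a] (m :: R) := by
          simpa using ha'
        exact h1.append h2
      · intro x hx z hz
        rw [List.mem_singleton] at hz
        subst hz
        rcases List.mem_append.1 hx with h1 | h1
        · exact hL x ((ss_mem hnL).1 h1)
        · exact hR x ((ss_mem hnR).1 h1)
    · intro h
      rw [List.pairwise_append, List.pairwise_append] at h
      obtain ⟨⟨h1, h2, h3⟩, _, _⟩ := h
      have hAL := ihL.2 h1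
      have hAR := ihR.2 h2
      intro a b c hs hab hbc
      have hLR : ∀ x ∈ L, ∀ z ∈ R, x < z := fun x hx z hz =>
        h3 x ((ss_mem hnL).2 hx) z ((ss_mem hnR).2 hz)
      rw [List.sublist_append_iff] at hs
      obtain ⟨l1, l2, hl, hs1, hs2⟩ := hs
      have memR : ∀ x ∈ (m :: R), x = m ∨ x ∈ R := fun x hx => by simpa using hx
      match l1, hl with
      | [], hl =>
        simp only [List.nil_append] at hl
        subst hl
        rw [List.sublist_cons_iff] at hs2
        rcases hs2 with h | ⟨r, hr, hs'⟩
        · exact hAR a b c h hab hbc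
        · rw [List.cons.injEq] at hr
          obtain ⟨rfl, rfl⟩ := hr
          have : c ∈ R := hs'.subset (by simp)
          have := hR c this
          omega
      | [b'], hl =>
        simp only [List.cons_append, List.nil_append, List.cons.injEq] at hl
        obtain ⟨rfl, rfl⟩ := hl
        have hbL : b ∈ L := hs1.subset (by simp)
        have haR : a ∈ m :: R := hs2.subset (by simp)
        rcases memR a haR with h | h
        · have := hL b hbL; omega
        · have := hLR b hbL a h; omega
      | [b', c'], hl =>
        simp only [List.cons_append, List.nil_append, List.cons.injEq] at hl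
        obtain ⟨rfl, rfl, rfl⟩ := hl
        have hbL : b ∈ L := hs1.subset (by simp)
        have haR : a ∈ m :: R := hs2.subset (by simp)
        rcases memR a haR with h | h
        · have := hL b hbL; omega
        · have := hLR b hbL a h; omega
      | [b', c', a'], hl =>
        simp only [List.cons_append, List.nil_append, List.cons.injEq] at hl
        obtain ⟨rfl, rfl, rfl, _⟩ := hl
        exact hAL _ _ _ hs1 hab hbc
      | (b' :: c' :: a' :: d' :: r), hl =>
        simp at hl

end Pool.Agent.H48
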